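import Pool.Agent.Y327.HP.Frames

/-!
# The lattice of periods is countable
-/

set_option autoImplicit false

namespace Pool.Agent.Y327.HP

open Complex MeasureTheory Set Topology

noncomputable section

variable {g : ℕ}

/-- a small deformation of a loop -/
structure Hom (a : Conf g) where
  x0 : ℝ → ℂ
  y0 : ℝ → ℂ
  X : ℝ → ℂ
  hx0 : ContDiff ℝ (⊤ : ℕ∞) x0
  hy0 : ContDiff ℝ (⊤ : ℕ∞) y0
  hX : ContDiff ℝ (⊤ : ℕ∞) X
  px : x0 1 = x0 0
  py : y0 1 = y0 0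
  pX : X 1 = X 0
  mem : ∀ t, y0 t ^ 2 = pol a (x0 t) ∧ y0 t ≠ 0
  small : ∀ t j, ‖X t / (x0 t - a j)‖ < 1 / 2

namespace Hom

variable {a : Conf g} (M : Hom a)

def v (j : Fin (2 * g + 1)) (t : ℝ) : ℂ := M.X t / (M.x0 t - a j)
def xx (τ t : ℝ) : ℂ := M.x0 t + τ * M.X t
def xt (τ t : ℝ) : ℂ := deriv M.x0 t + τ * deriv M.X t
def yy (τ t : ℝ) : ℂ := M.y0 t * exp ((∑ j, log (1 + τ * M.v j t)) / 2)
def S1 (τ t : ℝ) : ℂ := ∑ j, M.v j t / (1 + τ * M.v j t)

lemma pol_ne (t : ℝ) : pol a (M.x0 t) ≠ 0 := by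
  have h := M.mem t
  rw [← h.1]
  exact pow_ne_zero 2 h.2

lemma x0_ne (t : ℝ) (j : Fin (2 * g + 1)) : M.x0 t - a j ≠ 0 := Loc.ne_of_pol (M.pol_ne t) j

lemma v_smooth (j : Fin (2 * g + 1)) : ContDiff ℝ (⊤ : ℕ∞) (M.v j) := by
  unfold v
  simp only [div_eq_mul_inv]
  exact M.hX.mul ((M.hx0.sub contDiff_const).inv fun t => M.x0_ne t j)

lemma slit {τ : ℝ} (hτ : |τ| ≤ 2) (j : Fin (2 * g + 1)) (t : ℝ) :
    1 + (τ : ℂ) * M.v j t ∈ slitPlane := by
  refine mem_slitPlane_of_norm_lt_one ?_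
  rw [norm_mul, Complex.norm_real, Real.norm_eq_abs]
  have h1 := M.small t j
  have h2 := norm_nonneg (M.v j t)
  have h3 : ‖M.v j t‖ < 1 / 2 := h1
  nlinarith [abs_nonneg τ]

lemma yy_ne (τ t : ℝ) : M.yy τ t ≠ 0 := mul_ne_zero (M.mem t).2 (exp_ne_zero _)

lemma xx_hasDerivAt_t (τ t : ℝ) : HasDerivAt (M.xx τ) (M.xt τ t) t := by
  unfold xx xt
  have h1 : HasDerivAt M.x0 (deriv M.x0 t) t := (M.hx0.differentiable (by simp) t).hasDerivAt
  have h2 : HasDerivAt M.X (deriv M.X t) t := (M.hX.differentiable (by simp) t).hasDerivAt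
  exact h1.add (h2.const_mul (τ : ℂ))

/-- the integrand -/
def F (k : ℕ) (τ t : ℝ) : ℂ := M.xx τ t ^ k * M.xt τ t / M.yy τ t

/-- derivative of the integrand in `τ` -/
def G (k : ℕ) (τ t : ℝ) : ℂ :=
  (k * M.xx τ t ^ (k - 1) * M.X t * M.xt τ t + M.xx τ t ^ k * deriv M.X t) / M.yy τ t
    - M.F k τ t * (M.S1 τ t / 2)

lemma yy_hasDerivAt {τ : ℝ} (hτ : |τ| ≤ 2) (t : ℝ) :
    HasDerivAt (fun τ => M.yy τ t) (M.yy τ t * (M.S1 τ t / 2)) τ := by
  have h1 : ∀ j, HasDerivAt (fun τ : ℝ => log (1 + (τ : ℂ) * M.v j t))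
      (M.v j t / (1 + (τ : ℂ) * M.v j t)) τ := by
    intro j
    refine HasDerivAt.clog_real ?_ (M.slit hτ j t)
    have := ((ofRealCLM.hasDerivAt (x := τ)).mul_const (M.v j t)).const_add (1 : ℂ)
    simpa using this
  have h2 : HasDerivAt (fun τ : ℝ => ∑ j, log (1 + (τ : ℂ) * M.v j t)) (M.S1 τ t) τ :=
    HasDerivAt.fun_sum fun j _ => h1 j
  have h3 := ((h2.div_const 2).cexp).const_mul (M.y0 t)
  refine h3.congr_deriv ?_
  unfold yy
  ring

lemma F_hasDerivAt (k : ℕ) {τ : ℝ} (hτ : |τ| ≤ 2) (t : ℝ) :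
    HasDerivAt (fun τ => M.F k τ t) (M.G k τ t) τ := by
  have h1 : HasDerivAt (fun τ : ℝ => M.xx τ t) (M.X t) τ := by
    unfold xx
    have := ((ofRealCLM.hasDerivAt (x := τ)).mul_const (M.X t)).const_add (M.x0 t)
    simpa using this
  have h2 : HasDerivAt (fun τ : ℝ => M.xt τ t) (deriv M.X t) τ := by
    unfold xt
    have := ((ofRealCLM.hasDerivAt (x := τ)).mul_const (deriv M.X t)).const_add (deriv M.x0 t)
    simpa using this
  have h3 := M.yy_hasDerivAt hτ t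
  have h4 := (((h1.pow k).mul h2).div h3 (M.yy_ne τ t))
  refine h4.congr_deriv ?_
  have := M.yy_ne τ t
  unfold G F
  field_simp
  simp only [Pi.mul_apply, Pi.pow_apply]
  ring

/-! ### continuity -/

lemma yy_cont : ContinuousOn (fun p : ℝ × ℝ => M.yy p.1 p.2) Mov.Dom := by
  unfold yy
  refine ContinuousOn.mul ?_ (ContinuousOn.cexp (ContinuousOn.div_const ?_ 2))
  · exact (M.hy0.continuous.comp continuous_snd).continuousOn
  · refine continuousOn_finsetSum _ fun j _ => ContinuousOn.clog ?_ fun p hp => M.slit hp j p.2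
    refine Continuous.continuousOn ?_
    exact continuous_const.add ((continuous_ofReal.comp continuous_fst).mul
      ((M.v_smooth j).continuous.comp continuous_snd))

lemma xx_cont : Continuous (fun p : ℝ × ℝ => M.xx p.1 p.2) := by
  unfold xx
  exact (M.hx0.continuous.comp continuous_snd).add
    ((continuous_ofReal.comp continuous_fst).mul (M.hX.continuous.comp continuous_snd))

lemma dX_cont : Continuous (deriv M.X) := M.hX.continuous_deriv (by simp)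

lemma xt_cont : Continuous (fun p : ℝ × ℝ => M.xt p.1 p.2) := by
  unfold xt
  exact ((M.hx0.continuous_deriv (by simp)).comp continuous_snd).add
    ((continuous_ofReal.comp continuous_fst).mul (M.dX_cont.comp continuous_snd))

lemma S1_cont : ContinuousOn (fun p : ℝ × ℝ => M.S1 p.1 p.2) Mov.Dom := by
  unfold S1
  refine continuousOn_finsetSum _ fun j _ => ContinuousOn.div ?_ ?_ fun p hp =>
    slitPlane_ne_zero (M.slit hp j p.2)
  · exact ((M.v_smooth j).continuous.comp continuous_snd).continuousOn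
  · refine Continuous.continuousOn ?_
    exact continuous_const.add ((continuous_ofReal.comp continuous_fst).mul
      ((M.v_smooth j).continuous.comp continuous_snd))

lemma F_cont (k : ℕ) : ContinuousOn (fun p : ℝ × ℝ => M.F k p.1 p.2) Mov.Dom := by
  unfold F
  exact (((M.xx_cont.pow k).mul M.xt_cont).continuousOn).div M.yy_cont fun p _ => M.yy_ne _ _

lemma G_cont (k : ℕ) : ContinuousOn (fun p : ℝ × ℝ => M.G k p.1 p.2) Mov.Dom := by
  unfold G
  refine ContinuousOn.sub (ContinuousOn.div ?_ M.yy_cont fun p _ => M.yy_ne _ _)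
    ((M.F_cont k).mul (M.S1_cont.div_const 2))
  refine Continuous.continuousOn ?_
  exact (((continuous_const.mul (M.xx_cont.pow _)).mul
    (M.hX.continuous.comp continuous_snd)).mul M.xt_cont).add
    ((M.xx_cont.pow k).mul (M.dX_cont.comp continuous_snd))

lemma int_hasDerivAt (k : ℕ) {τ : ℝ} (hτ : |τ| < 2) :
    HasDerivAt (fun τ => ∫ t in (0 : ℝ)..1, M.F k τ t) (∫ t in (0 : ℝ)..1, M.G k τ t) τ := by
  have hsub : Icc (-2 : ℝ) 2 ×ˢ Icc (0 : ℝ) 1 ⊆ Mov.Dom := by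
    rintro ⟨τ, t⟩ ⟨h, _⟩
    exact abs_le.2 h
  obtain ⟨B, hB⟩ := (isCompact_Icc.prod isCompact_Icc).exists_bound_of_continuousOn
    ((M.G_cont k).mono hsub)
  have hnhds : {τ : ℝ | |τ| ≤ 2} ∈ 𝓝 τ := by
    have h1 : IsOpen {τ : ℝ | |τ| < 2} := isOpen_lt continuous_abs continuous_const
    exact Filter.mem_of_superset (h1.mem_nhds hτ)
      fun x hx => (show |x| ≤ 2 from le_of_lt hx)
  refine (intervalIntegral.hasDerivAt_integral_of_dominated_loc_of_deriv_le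
    (F := fun τ t => M.F k τ t) (F' := fun τ t => M.G k τ t) (bound := fun _ => B) hnhds
    ?_ ?_ ?_ ?_ ?_ ?_).2
  · filter_upwards [hnhds] with τ' hτ'
    exact (Mov.slice_cont (M.F_cont k) hτ').aestronglyMeasurable
  · exact (Mov.slice_cont (M.F_cont k) hτ.le).intervalIntegrable _ _
  · exact (Mov.slice_cont (M.G_cont k) hτ.le).aestronglyMeasurable
  · refine Filter.Eventually.of_forall fun t ht τ' hτ' => ?_
    rw [uIoc_of_le zero_le_one] at ht
    exact hB (τ', t) ⟨abs_le.1 hτ', ⟨ht.1.le, ht.2⟩⟩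
  · exact intervalIntegrable_const
  · exact Filter.Eventually.of_forall fun t _ τ' hτ' => M.F_hasDerivAt k hτ' t

/-! ### the deformation does not change the periods -/

lemma xx_sub {τ t : ℝ} (j : Fin (2 * g + 1)) :
    M.xx τ t - a j = (M.x0 t - a j) * (1 + τ * M.v j t) := by
  have h1 := M.x0_ne t j
  unfold xx v
  field_simp
  ring

lemma xx_sub_ne {τ : ℝ} (hτ : |τ| ≤ 2) (t : ℝ) (j : Fin (2 * g + 1)) :
    M.xx τ t - a j ≠ 0 := by
  rw [xx_sub]
  exact mul_ne_zero (M.x0_ne t j) (slitPlane_ne_zero (M.slit hτ j t))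

lemma S1_eq {τ : ℝ} (hτ : |τ| ≤ 2) (t : ℝ) :
    M.S1 τ t = ∑ j, M.X t / (M.xx τ t - a j) := by
  unfold S1
  refine Finset.sum_congr rfl fun j _ => ?_
  rw [xx_sub]
  have h1 := M.x0_ne t j
  have h2 : M.X t = M.v j t * (M.x0 t - a j) := by
    unfold v
    field_simp
  have h4 := slitPlane_ne_zero (M.slit hτ j t)
  rw [h2]
  field_simp

lemma yy_sq {τ : ℝ} (hτ : |τ| ≤ 2) (t : ℝ) : M.yy τ t ^ 2 = pol a (M.xx τ t) := by
  unfold yy
  rw [mul_pow, (M.mem t).1, ← exp_nat_mul]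
  have e1 : ((2 : ℕ) : ℂ) * ((∑ j, log (1 + τ * M.v j t)) / 2) = ∑ j, log (1 + τ * M.v j t) := by
    push_cast
    ring
  rw [e1, exp_sum]
  unfold pol
  rw [← Finset.prod_mul_distrib]
  refine Finset.prod_congr rfl fun j _ => ?_
  rw [exp_log (slitPlane_ne_zero (M.slit hτ j t)), M.xx_sub]

lemma yy_smooth {τ : ℝ} (hτ : |τ| ≤ 2) : ContDiff ℝ (⊤ : ℕ∞) (M.yy τ) := by
  unfold yy
  refine M.hy0.mul (ContDiff.cexp (ContDiff.div_const (ContDiff.sum fun j _ => ?_) 2))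
  have hV : ContDiff ℝ (⊤ : ℕ∞) fun t => 1 + (τ : ℂ) * M.v j t :=
    contDiff_const.add (contDiff_const.mul (M.v_smooth j))
  rw [contDiff_iff_contDiffAt]
  intro t
  have h1 : ContDiffAt ℝ (⊤ : ℕ∞) log (1 + (τ : ℂ) * M.v j t) :=
    (contDiffAt_log (M.slit hτ j t)).restrict_scalars ℝ
  exact ContDiffAt.comp t (f := fun t => 1 + (τ : ℂ) * M.v j t) h1 hV.contDiffAt

lemma yy_hasDerivAt_t {τ : ℝ} (hτ : |τ| ≤ 2) (t : ℝ) :
    HasDerivAt (M.yy τ)
      (M.yy τ t * ((∑ j, 1 / (M.xx τ t - a j)) * M.xt τ t) / 2) t := by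
  obtain ⟨y', hy'⟩ : ∃ y', HasDerivAt (M.yy τ) y' t :=
    ⟨_, ((M.yy_smooth hτ).differentiable (by simp) t).hasDerivAt⟩
  have h1 : HasDerivAt (fun t => M.yy τ t ^ 2) (2 * M.yy τ t * y') t := by
    refine (hy'.pow 2).congr_deriv ?_
    simp
  have h2 := Mov.pol_hasDerivAt a (M.xx_hasDerivAt_t τ t) (M.xx_sub_ne hτ t)
  have h3 : (fun t => M.yy τ t ^ 2) = fun t => pol a (M.xx τ t) := by
    funext t
    exact M.yy_sq hτ t
  rw [h3] at h1
  have h4 := h1.unique h2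
  have h5 := M.yy_ne τ t
  rw [← M.yy_sq hτ] at h4
  have h6 : y' = M.yy τ t * ((∑ j, 1 / (M.xx τ t - a j)) * M.xt τ t) / 2 := by
    have h7 : 2 * M.yy τ t * y'
        = 2 * M.yy τ t * (M.yy τ t * ((∑ j, 1 / (M.xx τ t - a j)) * M.xt τ t) / 2) := by
      rw [h4]
      ring
    exact mul_left_cancel₀ (mul_ne_zero two_ne_zero h5) h7
  rw [← h6]
  exact hy'

/-- the primitive -/
def Q (k : ℕ) (τ t : ℝ) : ℂ := M.xx τ t ^ k * M.X t / M.yy τ t

lemma Q_hasDerivAt (k : ℕ) {τ : ℝ} (hτ : |τ| ≤ 2) (t : ℝ) :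
    HasDerivAt (M.Q k τ) (M.G k τ t) t := by
  have hx := M.xx_hasDerivAt_t τ t
  have hy := M.yy_hasDerivAt_t hτ t
  have hX : HasDerivAt M.X (deriv M.X t) t := (M.hX.differentiable (by simp) t).hasDerivAt
  have h1 := ((hx.pow k).mul hX).div hy (M.yy_ne τ t)
  refine h1.congr_deriv ?_
  unfold G F
  rw [M.S1_eq hτ]
  have hsplit : ∑ j, M.X t / (M.xx τ t - a j) = M.X t * (∑ j, 1 / (M.xx τ t - a j)) := by
    rw [Finset.mul_sum]
    refine Finset.sum_congr rfl fun j _ => ?_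
    ring
  rw [hsplit]
  generalize (∑ j, 1 / (M.xx τ t - a j)) = A
  have := M.yy_ne τ t
  simp only [Pi.mul_apply, Pi.pow_apply]
  field_simp

lemma Q_per (k : ℕ) (τ : ℝ) : M.Q k τ 1 = M.Q k τ 0 := by
  unfold Q xx yy v
  rw [M.px, M.py, M.pX]

lemma int_G (k : ℕ) {τ : ℝ} (hτ : |τ| ≤ 2) : ∫ t in (0 : ℝ)..1, M.G k τ t = 0 := by
  have hc1 : Continuous fun t => M.G k τ t := Mov.slice_cont (M.G_cont k) hτ
  rw [intervalIntegral.integral_eq_sub_of_hasDerivAt (fun t _ => M.Q_hasDerivAt k hτ t)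
      (hc1.intervalIntegrable _ _), M.Q_per, sub_self]

lemma int_const (k : ℕ) :
    ∫ t in (0 : ℝ)..1, M.F k 1 t = ∫ t in (0 : ℝ)..1, M.F k 0 t := by
  have h1 : ∀ τ ∈ Icc (0 : ℝ) 1, HasDerivWithinAt (fun τ => ∫ t in (0 : ℝ)..1, M.F k τ t) 0
      (Icc 0 1) τ := by
    intro τ hτ
    have h2 : |τ| < 2 := by
      rw [abs_of_nonneg hτ.1]
      linarith [hτ.2]
    have h3 := M.int_hasDerivAt k h2
    rw [M.int_G k h2.le] at h3
    exact h3.hasDerivWithinAt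
  have h4 := (convex_Icc (0 : ℝ) 1).norm_image_sub_le_of_norm_hasDerivWithin_le (C := 0) h1
    (fun τ _ => by simp) (x := 0) (y := 1) ⟨le_rfl, zero_le_one⟩ ⟨zero_le_one, le_rfl⟩
  rw [zero_mul] at h4
  exact sub_eq_zero.1 (norm_le_zero_iff.1 h4)

end Hom

/-- a uniform lower bound along a loop -/
lemma exists_lower {a : Conf g} {σ₀ : ℝ → ℂ × ℂ} (h₀ : CL a σ₀) :
    ∃ m : ℝ, 0 < m ∧ ∀ t ∈ Icc (0 : ℝ) 1, m ≤ ‖(σ₀ t).2‖ ∧ ∀ j, m ≤ ‖(σ₀ t).1 - a j‖ := by
  have hne : (Icc (0 : ℝ) 1).Nonempty := ⟨0, le_rfl, zero_le_one⟩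
  have hx : Continuous fun t => (σ₀ t).1 := continuous_fst.comp h₀.smooth.continuous
  have hy : Continuous fun t => (σ₀ t).2 := continuous_snd.comp h₀.smooth.continuous
  have key : ∀ f : ℝ → ℂ, Continuous f → (∀ t, f t ≠ 0) →
      ∃ m : ℝ, 0 < m ∧ ∀ t ∈ Icc (0 : ℝ) 1, m ≤ ‖f t‖ := by
    intro f hf hf0
    obtain ⟨t₀, ht₀, hmin⟩ := isCompact_Icc.exists_isMinOn hne hf.norm.continuousOn
    exact ⟨‖f t₀‖, norm_pos_iff.2 (hf0 t₀), fun t ht => hmin ht⟩
  obtain ⟨m₀, hm₀, h1⟩ := key _ hy fun t => (h₀.mem t).2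
  have h2 : ∀ j, ∃ m : ℝ, 0 < m ∧ ∀ t ∈ Icc (0 : ℝ) 1, m ≤ ‖(σ₀ t).1 - a j‖ := fun j =>
    key (fun t => (σ₀ t).1 - a j) (hx.sub continuous_const) fun t => by
      refine Loc.ne_of_pol ?_ j
      rw [← (h₀.mem t).1]
      exact pow_ne_zero 2 (h₀.mem t).2
  choose c hc0 hc using h2
  obtain ⟨j₀, _, hj₀⟩ := Finset.exists_min_image (Finset.univ : Finset (Fin (2 * g + 1))) c
    ⟨0, Finset.mem_univ _⟩
  refine ⟨min m₀ (c j₀), lt_min hm₀ (hc0 j₀), fun t ht => ⟨(min_le_left _ _).trans (h1 t ht),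
    fun j => ?_⟩⟩
  exact (min_le_right _ _).trans ((hj₀ j (Finset.mem_univ _)).trans (hc j t ht))

/-- Nearby loops have the same periods. -/
lemma loc_const {a : Conf g} {σ₀ : ℝ → ℂ × ℂ} (h₀ : CL a σ₀) :
    ∃ η : ℝ, 0 < η ∧ ∀ σ₁, CL a σ₁ → (∀ t ∈ Icc (0 : ℝ) 1, ‖σ₁ t - σ₀ t‖ < η) →
      ∀ k, abelInt k σ₁ = abelInt k σ₀ := by
  obtain ⟨m, hm, hlow⟩ := exists_lower h₀
  have hg0 : (0 : ℝ) ≤ g := Nat.cast_nonneg g
  refine ⟨m / (2 * g + 2), by positivity, fun σ₁ h₁ hclose k => ?_⟩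
  -- everything holds for all `t`
  have hall : ∀ t, m ≤ ‖(σ₀ t).2‖ ∧ (∀ j, m ≤ ‖(σ₀ t).1 - a j‖)
      ∧ ‖σ₁ t - σ₀ t‖ < m / (2 * g + 2) := by
    intro t
    have hp : Function.Periodic (fun t => (σ₀ t, σ₁ t)) 1 := fun t => by
      simp only
      rw [h₀.per t, h₁.per t]
    obtain ⟨y, hy, hy2⟩ := hp.exists_mem_Ico₀ one_pos t
    simp only [Prod.mk.injEq] at hy2
    rw [hy2.1, hy2.2]
    have hy' : y ∈ Icc (0 : ℝ) 1 := ⟨hy.1, hy.2.le⟩
    exact ⟨(hlow y hy').1, (hlow y hy').2, hclose y hy'⟩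
  have hXn : ∀ t, ‖(σ₁ t).1 - (σ₀ t).1‖ < m / (2 * g + 2) := fun t =>
    (norm_fst_le (σ₁ t - σ₀ t)).trans_lt (hall t).2.2
  have hYn : ∀ t, ‖(σ₁ t).2 - (σ₀ t).2‖ < m / (2 * g + 2) := fun t =>
    (norm_snd_le (σ₁ t - σ₀ t)).trans_lt (hall t).2.2
  have hv : ∀ t j, ‖((σ₁ t).1 - (σ₀ t).1) / ((σ₀ t).1 - a j)‖ < 1 / (2 * g + 2) := by
    intro t j
    have h1 := (hall t).2.1 j
    rw [norm_div, div_lt_iff₀ (by linarith)]
    calc ‖(σ₁ t).1 - (σ₀ t).1‖ < m / (2 * g + 2) := hXn t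
      _ = 1 / (2 * g + 2) * m := by ring
      _ ≤ 1 / (2 * g + 2) * ‖(σ₀ t).1 - a j‖ := by gcongr
  have hhalf : (1 : ℝ) / (2 * g + 2) ≤ 1 / 2 := by
    apply one_div_le_one_div_of_le (by norm_num)
    linarith
  have s1 : ContDiff ℝ (⊤ : ℕ∞) fun t => (σ₁ t).1 := contDiff_fst.comp h₁.smooth
  have s0 : ContDiff ℝ (⊤ : ℕ∞) fun t => (σ₀ t).1 := contDiff_fst.comp h₀.smooth
  have p0 : σ₀ 1 = σ₀ 0 := by
    have := h₀.per 0
    rwa [zero_add] at this
  have p1 : σ₁ 1 = σ₁ 0 := by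
    have := h₁.per 0
    rwa [zero_add] at this
  let M : Hom a := ⟨fun t => (σ₀ t).1, fun t => (σ₀ t).2, fun t => (σ₁ t).1 - (σ₀ t).1, s0,
    contDiff_snd.comp h₀.smooth, s1.sub s0, by rw [p0], by rw [p0],
    by rw [p0, p1], h₀.mem, fun t j => (hv t j).trans_le hhalf⟩
  have hxx : ∀ t, M.xx 1 t = (σ₁ t).1 := by
    intro t
    show (σ₀ t).1 + ((1 : ℝ) : ℂ) * ((σ₁ t).1 - (σ₀ t).1) = (σ₁ t).1
    push_cast
    ring
  have hxx0 : ∀ t, M.xx 0 t = (σ₀ t).1 := by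
    intro t
    show (σ₀ t).1 + ((0 : ℝ) : ℂ) * ((σ₁ t).1 - (σ₀ t).1) = (σ₀ t).1
    push_cast
    ring
  have hyy0 : ∀ t, M.yy 0 t = (σ₀ t).2 := by
    intro t
    show (σ₀ t).2 * exp ((∑ j, log (1 + ((0 : ℝ) : ℂ) * M.v j t)) / 2) = (σ₀ t).2
    simp
  have hyy : ∀ t, M.yy 1 t = (σ₁ t).2 := by
    intro t
    have h1 := M.yy_sq (τ := 1) (by norm_num) t
    rw [hxx t, ← (h₁.mem t).1, sq_eq_sq_iff_eq_or_eq_neg] at h1
    rcases h1 with h1 | h1
    · exact h1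
    · exfalso
      set L : ℂ := (∑ j, log (1 + ((1 : ℝ) : ℂ) * M.v j t)) / 2 with hL
      have h2 : M.yy 1 t = (σ₀ t).2 * exp L := rfl
      have hLn : ‖L‖ ≤ 1 := by
        have h3 : ∀ j, ‖log (1 + ((1 : ℝ) : ℂ) * M.v j t)‖ ≤ 3 / 2 * (1 / (2 * g + 2)) := by
          intro j
          have h4 : ‖M.v j t‖ < 1 / (2 * g + 2) := hv t j
          rw [ofReal_one, one_mul]
          refine (norm_log_one_add_half_le_self (h4.le.trans hhalf)).trans ?_
          gcongr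
        rw [hL, norm_div]
        have h5 : ‖∑ j, log (1 + ((1 : ℝ) : ℂ) * M.v j t)‖
            ≤ (2 * g + 1) * (3 / 2 * (1 / (2 * g + 2))) := by
          refine (norm_sum_le_of_le _ fun j _ => h3 j).trans ?_
          rw [Finset.sum_const, Finset.card_univ, Fintype.card_fin, nsmul_eq_mul]
          push_cast
          exact le_rfl
        have h6 : ((2 : ℝ) * g + 1) * (3 / 2 * (1 / (2 * g + 2))) ≤ 3 / 2 := by
          have h7 : ((2 : ℝ) * g + 1) * (1 / (2 * g + 2)) ≤ 1 := by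
            rw [mul_one_div, div_le_one (by positivity)]
            linarith
          nlinarith
        have h8 : ‖(2 : ℂ)‖ = 2 := by simp
        rw [h8]
        linarith
      have hre : 0 ≤ (exp L).re := by
        rw [exp_re]
        refine mul_nonneg (Real.exp_pos _).le ?_
        have h3 : |L.im| ≤ 1 := (abs_im_le_norm L).trans hLn
        have h4 := Real.pi_gt_three
        obtain ⟨h5, h6⟩ := abs_le.1 h3
        exact Real.cos_nonneg_of_neg_pi_div_two_le_of_le (by linarith) (by linarith)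
      have h9 : (σ₁ t).2 - (σ₀ t).2 = -((σ₀ t).2 * (1 + exp L)) := by
        have h10 : (σ₁ t).2 = -M.yy 1 t := by
          rw [h1]
          ring
        rw [h10, h2]
        ring
      have h11 := hYn t
      rw [h9, norm_neg, norm_mul] at h11
      have h12 : 1 ≤ ‖1 + exp L‖ := by
        refine le_trans ?_ (re_le_norm _)
        rw [add_re, one_re]
        linarith
      have h13 : m / (2 * g + 2) ≤ m := div_le_self hm.le (by linarith)
      have h14 := (hall t).1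
      nlinarith
  have hint := M.int_const k
  have hxt : ∀ t, M.xt 1 t = deriv (fun u => (σ₁ u).1) t := by
    intro t
    have h1 := (M.xx_hasDerivAt_t 1 t).deriv
    rw [← h1]
    congr 1
    funext u
    exact hxx u
  have hxt0 : ∀ t, M.xt 0 t = deriv (fun u => (σ₀ u).1) t := by
    intro t
    have h1 := (M.xx_hasDerivAt_t 0 t).deriv
    rw [← h1]
    congr 1
    funext u
    exact hxx0 u
  unfold Hom.F at hint
  simp only [hxx, hxx0, hyy, hyy0, hxt, hxt0] at hint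
  exact hint

/-- The set of period vectors of loops on one curve is countable. -/
lemma V1_countable (a : Conf g) :
    {v : ℕ → ℂ | ∃ σ, CL a σ ∧ v = fun k => abelInt k σ}.Countable := by
  set S : Set (ℕ → ℂ) := {v : ℕ → ℂ | ∃ σ, CL a σ ∧ v = fun k => abelInt k σ} with hS
  have h1 : ∀ v : S, ∃ σ, CL a σ ∧ v.1 = fun k => abelInt k σ := fun v => v.2
  choose σ hσ hv using h1
  choose η hη hη2 using fun v : S => loc_const (hσ v)
  let c : S → C(Icc (0 : ℝ) 1, ℂ × ℂ) := fun v =>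
    ⟨fun t => σ v t, (hσ v).smooth.continuous.comp continuous_subtype_val⟩
  have hc : ∀ v w : S, dist (c w) (c v) < η v → w = v := by
    intro v w h
    have h2 := hη2 v (σ w) (hσ w) (fun t ht => by
      have h3 := ContinuousMap.dist_apply_le_dist (f := c w) (g := c v) ⟨t, ht⟩
      rw [dist_eq_norm] at h3
      exact lt_of_le_of_lt h3 h)
    apply Subtype.ext
    rw [hv w, hv v]
    funext k
    exact h2 k
  have hcount : Countable S := by
    refine Pairwise.countable_of_isOpen_disjoint (α := C(Icc (0 : ℝ) 1, ℂ × ℂ))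
      (s := fun v : S => Metric.ball (c v) (η v / 2)) ?_ (fun v => Metric.isOpen_ball)
      (fun v => ⟨c v, Metric.mem_ball_self (by linarith [hη v])⟩)
    intro v w hvw
    rw [Function.onFun, Set.disjoint_left]
    intro f hf1 hf2
    apply hvw
    rw [Metric.mem_ball] at hf1 hf2
    rcases le_total (η v) (η w) with hle | hle
    · refine hc w v ?_
      calc dist (c v) (c w) ≤ dist f (c v) + dist f (c w) := dist_triangle_left _ _ _
        _ < η w := by linarith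
    · refine (hc v w ?_).symm
      calc dist (c w) (c v) ≤ dist f (c w) + dist f (c v) := dist_triangle_left _ _ _
        _ < η v := by linarith
  exact Set.countable_coe_iff.1 hcount

/-- The set of period vectors of loops is countable. -/
lemma perSet_countable (a : Conf g) {s : ℂ} (hs : s ≠ 0) :
    {v : Row g → ℂ | ∃ γ, IsLoop a s γ ∧ per γ = v}.Countable := by
  obtain ⟨ρ, hρ⟩ := IsAlgClosed.exists_pow_nat_eq (1 / s) (n := 2) (by norm_num)
  have hρ0 : ρ ≠ 0 := by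
    rintro rfl
    have h1 : (1 : ℂ) / s ≠ 0 := div_ne_zero one_ne_zero hs
    apply h1
    rw [← hρ]
    norm_num
  have hρ2 : ρ ^ 2 * s = 1 := by
    rw [hρ]
    field_simp
  have hV := V1_countable a
  refine ((hV.prod hV).image (fun p => (Sum.elim (fun k : Fin (2 * g) => p.1 (k : ℕ))
    (fun k : Fin (2 * g) => ρ⁻¹ * p.2 (k : ℕ)) : Row g → ℂ))).mono ?_
  rintro _ ⟨γ, hγ, rfl⟩
  refine ⟨(fun k => abelInt k (fun t => (γ t).1),
    fun k => abelInt k (fun t => ((γ t).2.1, (γ t).2.2 / ρ))),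
    ⟨⟨_, CL_one hγ, rfl⟩, ⟨_, CL_two hρ0 hρ2 hγ, rfl⟩⟩, ?_⟩
  funext k
  rcases k with k | k
  · rfl
  · have h1 := abelInt_scale k ρ fun t => (γ t).2
    show ρ⁻¹ * abelInt k (fun t => ((γ t).2.1, (γ t).2.2 / ρ)) = abelInt k fun t => (γ t).2
    rw [h1, ← mul_assoc, inv_mul_cancel₀ hρ0, one_mul]

theorem Lam_countable' (a : Conf g) {s : ℂ} (hs : s ≠ 0) :
    (Lam a s : Set (Row g → ℂ)).Countable := countable_closure (perSet_countable a hs)

/-- A countable family of loops generates. -/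
theorem exists_generates_nat (a : Conf g) {s : ℂ} (hs : s ≠ 0) :
    ∃ γ : ℕ → ℝ → Pt, Generates a s γ := by
  have hne : {v : Row g → ℂ | ∃ γ, IsLoop a s γ ∧ per γ = v}.Nonempty := by
    refine ⟨_, fun _ => (bp a 1 one_ne_zero, bp a s hs), ⟨contDiff_const, fun _ => rfl,
      fun _ => ⟨?_, bp_mem a s hs⟩⟩, rfl⟩
    have := bp_mem a 1 one_ne_zero
    rwa [one_mul] at this
  obtain ⟨f, hf⟩ := (perSet_countable a hs).exists_eq_range hne
  have h1 : ∀ n, ∃ γ, IsLoop a s γ ∧ per γ = f n := by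
    intro n
    have h2 : f n ∈ {v : Row g → ℂ | ∃ γ, IsLoop a s γ ∧ per γ = v} := by
      rw [hf]
      exact ⟨n, rfl⟩
    exact h2
  choose γ hγ hγ2 using h1
  refine ⟨γ, hγ, ?_⟩
  unfold Lam
  rw [hf]
  congr 1
  ext v
  constructor
  · rintro ⟨n, rfl⟩
    exact ⟨n, (hγ2 n).symm⟩
  · rintro ⟨n, rfl⟩
    exact ⟨n, hγ2 n⟩

end

end Pool.Agent.Y327.HP
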