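import Mathlib

/-!
# Periods of the families `C_a × C_a^{(s)}` of products of hyperelliptic curves: definitions

For `a = (a_1, …, a_m)`, `m = 2g + 1`, with distinct entries let `C_a : y² = ∏ (x - a_i)` and
`C_a^{(s)} : s y² = ∏ (x - a_i)`. The products `C_a × C_a^{(s)}` of the smooth projective models
form a smooth projective family over `T × 𝔾_m` for every variety `T` of configurations `a`. The
first de Rham cohomology of the fibres has the algebraic basis `x₁^k dx₁/y₁, x₂^k dx₂/y₂`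
(`0 ≤ k < 2g`), and the first homology is recorded by the period vectors of smooth loops in the
open part where `y₁` and `y₂` do not vanish (the homology of this open part maps onto the homology of
the fibre).
-/

set_option autoImplicit false

namespace Pool.Agent.Y327.HP

open Complex MeasureTheory Set

noncomputable section

/-- The field of algebraic numbers in `ℂ`. -/
abbrev Qbar : IntermediateField ℚ ℂ := algebraicClosure ℚ ℂ

/-- Pairs of points of the affine plane: `((x₁, y₁), (x₂, y₂))`. -/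
abbrev Pt : Type := (ℂ × ℂ) × (ℂ × ℂ)

/-- The tuples `a = (a_0, …, a_{2g})`. -/
abbrev Conf (g : ℕ) : Type := Fin (2 * g + 1) → ℂ

/-- The indices of the `4g` differentials. -/
abbrev Row (g : ℕ) : Type := Fin (2 * g) ⊕ Fin (2 * g)

variable {g : ℕ}

/-- The polynomial `∏ (x - a_i)`. -/
def pol (a : Conf g) (x : ℂ) : ℂ := ∏ i, (x - a i)

/-- The open part `y₁, y₂ ≠ 0` of the affine part of `C_a × C_a^{(s)}`, which is given by
`y₁² = ∏ (x₁ - a_i)` and `s y₂² = ∏ (x₂ - a_i)`. -/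
def Fibre (a : Conf g) (s : ℂ) : Set Pt :=
  {p | (p.1.2 ^ 2 = pol a p.1.1 ∧ p.1.2 ≠ 0) ∧ s * p.2.2 ^ 2 = pol a p.2.1 ∧ p.2.2 ≠ 0}

/-- Smooth loops in this open part of the fibre. -/
structure IsLoop (a : Conf g) (s : ℂ) (γ : ℝ → Pt) : Prop where
  smooth : ContDiff ℝ (⊤ : ℕ∞) γ
  periodic : Function.Periodic γ 1
  mem : ∀ t, γ t ∈ Fibre a s

/-- The integral of `x ^ k dx / y` along the plane path `σ = (x, y)`, `0 ≤ t ≤ 1`. -/
def abelInt (k : ℕ) (σ : ℝ → ℂ × ℂ) : ℂ :=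
  ∫ t in (0 : ℝ)..1, (σ t).1 ^ k * deriv (fun u => (σ u).1) t / (σ t).2

/-- The period vector of a loop: the integrals of `x₁^k dx₁/y₁` and `x₂^k dx₂/y₂`, `k < 2g`. -/
def per (γ : ℝ → Pt) : Row g → ℂ :=
  Sum.elim (fun k => abelInt k (fun t => (γ t).1)) (fun k => abelInt k (fun t => (γ t).2))

/-- The lattice of periods: the image of `H₁(C_a × C_a^{(s)}, ℤ)` in the dual of de Rham
cohomology. -/
def Lam (a : Conf g) (s : ℂ) : AddSubgroup (Row g → ℂ) :=
  AddSubgroup.closure {v | ∃ γ, IsLoop a s γ ∧ per γ = v}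

/-- A family of loops whose classes generate `H₁(C_a × C_a^{(s)}, ℤ)`. -/
structure Generates {ι : Type} (a : Conf g) (s : ℂ) (γ : ι → ℝ → Pt) : Prop where
  loop : ∀ i, IsLoop a s (γ i)
  gen : AddSubgroup.closure (Set.range fun i => per (g := g) (γ i)) = Lam a s

/-- Period matrix of a family of loops: rows indexed by the differentials, columns by the
loops. -/
def perMat {ι : Type} (γ : ι → ℝ → Pt) : Matrix (Row g) ι ℂ := Matrix.of fun k j => per (γ j) k

/-- The value at `(a, s, M)` of a polynomial over `Qbar` in the coordinates of `a`, in `s` and in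
the entries of `M`. -/
def ev {ι : Type} (F : MvPolynomial ((Fin (2 * g + 1) ⊕ Unit) ⊕ (Row g × ι)) Qbar)
    (q : (Conf g × ℂ) × Matrix (Row g) ι ℂ) : ℂ :=
  MvPolynomial.aeval (Sum.elim (Sum.elim q.1.1 fun _ => q.1.2) fun ij => q.2 ij.1 ij.2) F

/-- The value at `M` of a polynomial over `Qbar` in the entries of a matrix. -/
def ev₀ {ι : Type} (F : MvPolynomial (Row g × ι) Qbar) (M : Matrix (Row g) ι ℂ) : ℂ :=
  MvPolynomial.aeval (fun ij : Row g × ι => M ij.1 ij.2) F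

/-- `Z` is a closed subvariety defined over `Qbar` of `S × Y`, where `S = T × 𝔾_m`. -/
def IsClosedSub {ι : Type} (T : Set (Conf g)) (Y : Set (Matrix (Row g) ι ℂ))
    (Z : Set ((Conf g × ℂ) × Matrix (Row g) ι ℂ)) : Prop :=
  ∃ I : Set (MvPolynomial ((Fin (2 * g + 1) ⊕ Unit) ⊕ (Row g × ι)) Qbar),
    Z = {q | q.1.1 ∈ T ∧ q.1.2 ≠ 0 ∧ q.2 ∈ Y ∧ ∀ F ∈ I, ev F q = 0}

/-- `Z` is a closed subvariety defined over `Qbar` of `Y`. -/
def IsClosedSub₀ {ι : Type} (Y : Set (Matrix (Row g) ι ℂ)) (Z : Set (Matrix (Row g) ι ℂ)) :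
    Prop :=
  ∃ I : Set (MvPolynomial (Row g × ι) Qbar), Z = {M | M ∈ Y ∧ ∀ F ∈ I, ev₀ F M = 0}

/-- The smallest closed subvariety of `S × Y` defined over `Qbar` that contains `G`, where
`S = T × 𝔾_m`. -/
def BVar {ι : Type} (T : Set (Conf g)) (Y : Set (Matrix (Row g) ι ℂ))
    (G : Set ((Conf g × ℂ) × Matrix (Row g) ι ℂ)) : Set ((Conf g × ℂ) × Matrix (Row g) ι ℂ) :=
  ⋂₀ {Z | IsClosedSub T Y Z ∧ G ⊆ Z}

/-- The `Qbar`-Zariski closure in `Y` of the point `M₀`. -/
def ptClosure {ι : Type} (Y : Set (Matrix (Row g) ι ℂ)) (M₀ : Matrix (Row g) ι ℂ) :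
    Set (Matrix (Row g) ι ℂ) :=
  ⋂₀ {Z | IsClosedSub₀ Y Z ∧ M₀ ∈ Z}

/-- `F⁰ H₁(C_a × C_a^{(s)}, ℂ)`: the annihilator of the holomorphic one-forms `x^k dx/y`, `k < g`,
on both factors in the dual of de Rham cohomology. -/
def F0 (g : ℕ) : Submodule ℂ (Row g → ℂ) where
  carrier := {v | ∀ k : Fin (2 * g), (k : ℕ) < g → v (Sum.inl k) = 0 ∧ v (Sum.inr k) = 0}
  add_mem' := by
    intro v w hv hw k hk
    obtain ⟨h1, h2⟩ := hv k hk
    obtain ⟨h3, h4⟩ := hw k hk
    simp [h1, h2, h3, h4]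
  zero_mem' := by
    intro k _
    simp
  smul_mem' := by
    intro r v hv k hk
    obtain ⟨h1, h2⟩ := hv k hk
    simp [h1, h2]

/-- The integral Hodge structures `(H₁(C_a × C_a^{(s)}, ℤ), F⁰)` and
`(H₁(C_b × C_b^{(s')}, ℤ), F⁰)` are isomorphic. -/
def HodgeIso (a b : Conf g) (s s' : ℂ) : Prop :=
  ∃ e : (Row g → ℂ) ≃ₗ[ℂ] (Row g → ℂ),
    (Lam a s).map e.toLinearMap.toAddMonoidHom = Lam b s' ∧ (F0 g).map e.toLinearMap = F0 g

/-- A local frame over the open subset `U` of `T × 𝔾_m`: a continuous family of loops whose classes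
generate the homology of every fibre, and whose period matrix is continuous with values in `Y`. -/
structure IsLocalFrame {ι : Type} (T : Set (Conf g)) (Y : Set (Matrix (Row g) ι ℂ))
    (U : Set (Conf g × ℂ)) (Γ : Conf g × ℂ → ι → ℝ → Pt) : Prop where
  opn : ∃ O : Set (Conf g × ℂ), IsOpen O ∧ U = O ∩ {p | p.1 ∈ T ∧ p.2 ≠ 0}
  cont : ∀ i, ContinuousOn (fun q : (Conf g × ℂ) × ℝ => Γ q.1 i q.2) (U ×ˢ Set.univ)
  gen : ∀ p ∈ U, Generates p.1 p.2 (Γ p)
  mem : ∀ p ∈ U, perMat (Γ p) ∈ Y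
  conv : ∀ k j, ContinuousOn (fun p => perMat (g := g) (Γ p) k j) U

/-- The graph of the period matrix of a frame over `U`. -/
def graph {ι : Type} (U : Set (Conf g × ℂ)) (Γ : Conf g × ℂ → ι → ℝ → Pt) :
    Set ((Conf g × ℂ) × Matrix (Row g) ι ℂ) :=
  {q | q.1 ∈ U ∧ q.2 = perMat (Γ q.1)}

/-- The invertible matrices `GL_{4g}`, as a subset of the square matrices. -/
def GLn (g : ℕ) : Set (Matrix (Row g) (Row g) ℂ) := {M | M.det ≠ 0}

/-- The field `κ = K(a, s)`. -/
abbrev kap (K : IntermediateField ℚ ℂ) (a : Conf g) (s : ℂ) : IntermediateField K ℂ :=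
  IntermediateField.adjoin K (insert s (Set.range a))

/-- `Z` admits a relation of degree at most `δ` over `κ(a, s)`: a polynomial in the matrix entries,
with coefficients in `κ(a, s)` and total degree at most `δ`, that vanishes on `Z` but not on
`B`. -/
def HasRelation {ι : Type} (K : IntermediateField ℚ ℂ) (a : Conf g) (s : ℂ) (δ : ℕ)
    (Z B : Set (Matrix (Row g) ι ℂ)) : Prop :=
  ∃ F : MvPolynomial (Row g × ι) (kap K a s), F.totalDegree ≤ δ ∧
    (∀ M ∈ Z, MvPolynomial.aeval (fun ij : Row g × ι => M ij.1 ij.2) F = 0) ∧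
    ∃ M ∈ B, MvPolynomial.aeval (fun ij : Row g × ι => M ij.1 ij.2) F ≠ 0

end

end Pool.Agent.Y327.HP
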