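import Pool.Agent.Y327.HP.Nonzero

/-!
# Degree one relations for the families `C_a × C_a^{(s)}`
-/

set_option autoImplicit false

namespace Pool.Agent.Y327.HP

open Complex MeasureTheory Set

noncomputable section

variable {g : ℕ}

/-! ### The scaling maps -/

/-- `(x₂, y₂) ↦ (x₂, y₂ / ρ)` on the second factor. -/
def scale (ρ : ℂ) (p : Pt) : Pt := (p.1, (p.2.1, p.2.2 / ρ))

/-- The diagonal vector `(1, …, 1, ρ, …, ρ)`. -/
def dvec (g : ℕ) (ρ : ℂ) : Row g → ℂ := Sum.elim (fun _ => 1) (fun _ => ρ)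

theorem abelInt_scale (k : ℕ) (ρ : ℂ) (σ : ℝ → ℂ × ℂ) :
    abelInt k (fun t => ((σ t).1, (σ t).2 / ρ)) = ρ * abelInt k σ := by
  unfold abelInt
  rw [← intervalIntegral.integral_const_mul]
  congr 1
  ext t
  simp only
  rw [div_div_eq_mul_div]
  ring

theorem per_scale (ρ : ℂ) (γ : ℝ → Pt) :
    per (fun t => scale ρ (γ t)) = dvec g ρ * per γ := by
  ext i
  rcases i with k | k
  · simp [per, dvec, scale]
  · have h0 := abelInt_scale k ρ (fun t => (γ t).2)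
    simpa [per, dvec, scale] using h0

theorem isLoop_scale {a : Conf g} {s ρ : ℂ} (hρ : ρ ≠ 0) {γ : ℝ → Pt} (h : IsLoop a s γ) :
    IsLoop a (ρ ^ 2 * s) (fun t => scale ρ (γ t)) := by
  refine ⟨?_, ?_, ?_⟩
  · have h1 := h.smooth
    unfold scale
    fun_prop
  · intro t
    simp only
    rw [h.periodic t]
  · intro t
    obtain ⟨h1, h2, h3⟩ := h.mem t
    refine ⟨h1, ?_, ?_⟩
    · simp only [scale]
      rw [← h2]
      field_simp
    · exact div_ne_zero h3 hρ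

theorem dvec_mul (ρ σ : ℂ) (v : Row g → ℂ) : dvec g ρ * (dvec g σ * v) = dvec g (ρ * σ) * v := by
  ext i
  rcases i with k | k <;> simp [dvec, mul_assoc]

theorem dvec_one (v : Row g → ℂ) : dvec g 1 * v = v := by
  ext i
  rcases i with k | k <;> simp [dvec]

/-- Multiplication by `(1, …, 1, ρ, …, ρ)` as a linear equivalence. -/
def Deq (g : ℕ) (ρ : ℂ) (hρ : ρ ≠ 0) : (Row g → ℂ) ≃ₗ[ℂ] (Row g → ℂ) where
  toFun v := dvec g ρ * v
  invFun v := dvec g ρ⁻¹ * v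
  map_add' v w := by rw [mul_add]
  map_smul' r v := by simp
  left_inv v := by
    show dvec g ρ⁻¹ * (dvec g ρ * v) = v
    rw [dvec_mul, inv_mul_cancel₀ hρ, dvec_one]
  right_inv v := by
    show dvec g ρ * (dvec g ρ⁻¹ * v) = v
    rw [dvec_mul, mul_inv_cancel₀ hρ, dvec_one]

theorem Deq_apply (ρ : ℂ) (hρ : ρ ≠ 0) (v : Row g → ℂ) : Deq g ρ hρ v = dvec g ρ * v := rfl

theorem Lam_scale_le {a : Conf g} {s ρ : ℂ} (hρ : ρ ≠ 0) :
    (Lam a s).map (Deq g ρ hρ).toLinearMap.toAddMonoidHom ≤ Lam a (ρ ^ 2 * s) := by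
  unfold Lam
  rw [AddMonoidHom.map_closure]
  apply AddSubgroup.closure_mono
  rintro _ ⟨v, ⟨γ, hγ, rfl⟩, rfl⟩
  exact ⟨_, isLoop_scale hρ hγ, per_scale ρ γ⟩

theorem Lam_scale {a : Conf g} {s ρ : ℂ} (hρ : ρ ≠ 0) :
    (Lam a s).map (Deq g ρ hρ).toLinearMap.toAddMonoidHom = Lam a (ρ ^ 2 * s) := by
  refine le_antisymm (Lam_scale_le hρ) ?_
  intro v hv
  have h1 := Lam_scale_le (a := a) (s := ρ ^ 2 * s) (inv_ne_zero hρ)
  have h2 : ρ⁻¹ ^ 2 * (ρ ^ 2 * s) = s := by field_simp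
  rw [h2] at h1
  refine ⟨(Deq g ρ⁻¹ (inv_ne_zero hρ)) v, h1 ⟨v, hv, rfl⟩, ?_⟩
  show Deq g ρ hρ (Deq g ρ⁻¹ (inv_ne_zero hρ) v) = v
  simp only [Deq_apply]
  rw [dvec_mul, mul_inv_cancel₀ hρ, dvec_one]

theorem generates_scale {ι : Type} {a : Conf g} {s ρ : ℂ} (hρ : ρ ≠ 0) {γ : ι → ℝ → Pt}
    (h : Generates a s γ) : Generates a (ρ ^ 2 * s) (fun i t => scale ρ (γ i t)) := by
  refine ⟨fun i => isLoop_scale hρ (h.loop i), ?_⟩
  rw [← Lam_scale hρ, ← h.gen, AddMonoidHom.map_closure]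
  congr 1
  ext v
  constructor
  · rintro ⟨i, rfl⟩
    exact ⟨_, ⟨i, rfl⟩, (per_scale ρ (γ i)).symm⟩
  · rintro ⟨_, ⟨i, rfl⟩, rfl⟩
    exact ⟨i, per_scale ρ (γ i)⟩

/-! ### Loops on the two factors -/

/-- a base point of the curve `s y² = ∏ (x - a_i)` -/
lemma exists_bp (a : Conf g) {s : ℂ} (hs : s ≠ 0) :
    ∃ b : ℂ × ℂ, s * b.2 ^ 2 = pol a b.1 ∧ b.2 ≠ 0 := by
  obtain ⟨x, hx⟩ := Set.Infinite.exists_notMem_finite (s := (Set.univ : Set ℂ))
    Set.infinite_univ (Set.finite_range a)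
  obtain ⟨y, hy⟩ := IsAlgClosed.exists_pow_nat_eq (pol a x / s) (n := 2) (by norm_num)
  have h0 : pol a x ≠ 0 := by
    unfold pol
    rw [Finset.prod_ne_zero_iff]
    intro i _ h
    exact hx.2 ⟨i, (sub_eq_zero.1 h).symm⟩
  refine ⟨(x, y), ?_, ?_⟩
  · simp only
    rw [hy]
    field_simp
  · rintro rfl
    apply div_ne_zero h0 hs
    rw [← hy]
    norm_num

/-- a base point -/
def bp (a : Conf g) (s : ℂ) (hs : s ≠ 0) : ℂ × ℂ := (exists_bp a hs).choose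

lemma bp_mem (a : Conf g) (s : ℂ) (hs : s ≠ 0) :
    s * (bp a s hs).2 ^ 2 = pol a (bp a s hs).1 ∧ (bp a s hs).2 ≠ 0 := (exists_bp a hs).choose_spec

/-- The loop `(σ, pt)`. -/
def lpA (a : Conf g) (s : ℂ) (hs : s ≠ 0) (σ : ℝ → ℂ × ℂ) (t : ℝ) : Pt := (σ t, bp a s hs)

/-- The loop `(pt, σ)` on the fibre over `s = w ^ 2`. -/
def lpB (a : Conf g) (σ : ℝ → ℂ × ℂ) (w : ℂ) (t : ℝ) : Pt :=
  (bp a 1 one_ne_zero, ((σ t).1, (σ t).2 / w))

theorem isLoop_lpA {a : Conf g} {σ : ℝ → ℂ × ℂ} (h1 : ContDiff ℝ (⊤ : ℕ∞) σ)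
    (h2 : Function.Periodic σ 1) (h3 : ∀ t, (σ t).2 ^ 2 = pol a (σ t).1 ∧ (σ t).2 ≠ 0)
    (s : ℂ) (hs : s ≠ 0) : IsLoop a s (lpA a s hs σ) := by
  refine ⟨?_, ?_, ?_⟩
  · unfold lpA
    exact h1.prodMk contDiff_const
  · intro t
    unfold lpA
    rw [h2]
  · intro t
    exact ⟨h3 t, bp_mem a s hs⟩

theorem isLoop_lpB {a : Conf g} {σ : ℝ → ℂ × ℂ} (h1 : ContDiff ℝ (⊤ : ℕ∞) σ)
    (h2 : Function.Periodic σ 1) (h3 : ∀ t, (σ t).2 ^ 2 = pol a (σ t).1 ∧ (σ t).2 ≠ 0) {w : ℂ}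
    (hw : w ≠ 0) : IsLoop a (w ^ 2) (lpB a σ w) := by
  refine ⟨?_, ?_, ?_⟩
  · unfold lpB
    have h4 : ContDiff ℝ (⊤ : ℕ∞) fun t => (σ t).1 := contDiff_fst.comp h1
    have h5 : ContDiff ℝ (⊤ : ℕ∞) fun t => (σ t).2 := contDiff_snd.comp h1
    exact contDiff_const.prodMk (h4.prodMk (h5.div_const w))
  · intro t
    unfold lpB
    rw [h2]
  · intro t
    have hb := bp_mem a 1 one_ne_zero
    rw [one_mul] at hb
    refine ⟨hb, ?_, div_ne_zero (h3 t).2 hw⟩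
    simp only [lpB]
    rw [← (h3 t).1]
    field_simp

theorem per_lpA (a : Conf g) (s : ℂ) (hs : s ≠ 0) (σ : ℝ → ℂ × ℂ) (k : Fin (2 * g)) :
    per (lpA a s hs σ) (Sum.inl k) = abelInt k σ := by
  simp [per, lpA]

theorem per_lpB (a : Conf g) (σ : ℝ → ℂ × ℂ) (w : ℂ) (k : Fin (2 * g)) :
    per (lpB a σ w) (Sum.inr k) = w * abelInt k σ := by
  have h := abelInt_scale k w σ
  simpa [per, lpB] using h

/-! ### Zariski closures over the algebraic numbers -/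

/-- Row scaling by `(1, …, 1, ρ, …, ρ)`. -/
def Dm {ι : Type} (ρ : ℂ) (M : Matrix (Row g) ι ℂ) : Matrix (Row g) ι ℂ :=
  Matrix.of fun k j => dvec g ρ k * M k j

theorem Dm_apply {ι : Type} (ρ : ℂ) (M : Matrix (Row g) ι ℂ) (k : Row g) (j : ι) :
    Dm ρ M k j = dvec g ρ k * M k j := rfl

theorem perMat_scale {ι : Type} (ρ : ℂ) (γ : ι → ℝ → Pt) :
    perMat (g := g) (fun i t => scale ρ (γ i t)) = Dm ρ (perMat γ) := by
  ext k j
  rw [Dm_apply]
  simp only [perMat, Matrix.of_apply]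
  rw [per_scale]
  rfl

/-- A polynomial vanishing on the branch `ρ ↦ (a, s₀ρ², D(ρ)M₀)` for infinitely many `ρ` vanishes at
the other branch over `(a, s₀)`. -/
theorem ev_branch {ι : Type} (F : MvPolynomial ((Fin (2 * g + 1) ⊕ Unit) ⊕ (Row g × ι)) Qbar)
    (a : Conf g) (s₀ : ℂ) (M₀ : Matrix (Row g) ι ℂ) (T : Set ℂ) (hT : T.Infinite)
    (h : ∀ ρ ∈ T, ev F ((a, ρ ^ 2 * s₀), Dm ρ M₀) = 0) (ρ : ℂ) :
    ev F ((a, ρ ^ 2 * s₀), Dm ρ M₀) = 0 := by
  classical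
  let pv : Row g → Polynomial ℂ := Sum.elim (fun _ => 1) (fun _ => Polynomial.X)
  let H : Polynomial ℂ := MvPolynomial.aeval (R := Qbar)
    (Sum.elim (Sum.elim (fun i => Polynomial.C (a i))
      fun _ => Polynomial.X ^ 2 * Polynomial.C s₀)
      fun ij : Row g × ι => pv ij.1 * Polynomial.C (M₀ ij.1 ij.2)) F
  have key : ∀ r : ℂ, H.eval r = ev F ((a, r ^ 2 * s₀), Dm r M₀) := by
    intro r
    have h1 : H.eval r = (((Polynomial.aeval r : Polynomial ℂ →ₐ[ℂ] ℂ).restrictScalars Qbar)) H := by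
      simp [Polynomial.aeval_def, Polynomial.eval₂_eq_eval_map]
    rw [h1]
    simp only [H, ev]
    rw [← AlgHom.comp_apply, MvPolynomial.comp_aeval]
    congr 2
    ext o
    rcases o with (i | i) | ⟨i, j⟩
    · simp
    · simp
      ring
    · simp only [Sum.elim_inr]
      rw [Dm_apply]
      rcases i with k | k
      · simp [pv, dvec]
      · simp [pv, dvec]
        ring
  have hH : H = 0 := by
    apply Polynomial.eq_zero_of_infinite_isRoot
    apply hT.mono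
    intro r hr
    show H.IsRoot r
    rw [Polynomial.IsRoot.def, key r]
    exact h r hr
  rw [← key ρ, hH, Polynomial.eval_zero]

/-- The linear relation: for a generating family over `s₀ = w²` there is a linear form in the
entries, with coefficients in any field containing `w`, which vanishes on the period matrix but not
on the other branch. -/
theorem exists_relation {ι : Type} (hg : 1 ≤ g) {a : Conf g} (ha : Function.Injective a) {w : ℂ}
    (hw : w ≠ 0) {γ : ι → ℝ → Pt} (h : Generates a (w ^ 2) γ) (k : Type) [Field k] [Algebra k ℂ]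
    (w' : k) (hw' : algebraMap k ℂ w' = w) :
    ∃ F : MvPolynomial (Row g × ι) k, F.totalDegree ≤ 1 ∧
      MvPolynomial.aeval (fun ij : Row g × ι => perMat (g := g) γ ij.1 ij.2) F = 0 ∧
      MvPolynomial.aeval (fun ij : Row g × ι => Dm (-1) (perMat (g := g) γ) ij.1 ij.2) F ≠ 0 := by
  classical
  obtain ⟨σ, hσ1, hσ2, hσ3, e, he⟩ := exists_loop hg a ha
  have hw2 : w ^ 2 ≠ 0 := pow_ne_zero 2 hw
  have hA : per (g := g) (lpA a (w ^ 2) hw2 σ)
      ∈ AddSubgroup.closure (Set.range fun i => per (g := g) (γ i)) := by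
    rw [h.gen]
    exact AddSubgroup.subset_closure ⟨_, isLoop_lpA hσ1 hσ2 hσ3 _ hw2, rfl⟩
  have hB : per (g := g) (lpB a σ w)
      ∈ AddSubgroup.closure (Set.range fun i => per (g := g) (γ i)) := by
    rw [h.gen]
    exact AddSubgroup.subset_closure ⟨_, isLoop_lpB hσ1 hσ2 hσ3 hw, rfl⟩
  obtain ⟨n, hn⟩ := AddSubgroup.mem_closure_range_iff.mp hA
  obtain ⟨m, hm⟩ := AddSubgroup.mem_closure_range_iff.mp hB
  have hn0 : ∑ i ∈ n.support, (n i : ℂ) * per (g := g) (γ i) (Sum.inl e) = abelInt e σ := by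
    have h1 := congrFun hn (Sum.inl e)
    rw [per_lpA] at h1
    rw [h1, Finsupp.sum, Finset.sum_apply]
    apply Finset.sum_congr rfl
    intro i _
    simp
  have hm2 : ∑ i ∈ m.support, (m i : ℂ) * per (g := g) (γ i) (Sum.inr e)
      = w * abelInt e σ := by
    have h1 := congrFun hm (Sum.inr e)
    rw [per_lpB] at h1
    rw [h1, Finsupp.sum, Finset.sum_apply]
    apply Finset.sum_congr rfl
    intro i _
    simp
  let F : MvPolynomial (Row g × ι) k :=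
    (∑ i ∈ n.support, MvPolynomial.C (w' * (n i : k)) * MvPolynomial.X ((Sum.inl e : Row g), i)) -
      ∑ i ∈ m.support, MvPolynomial.C ((m i : k)) * MvPolynomial.X ((Sum.inr e : Row g), i)
  have hF : ∀ M : Matrix (Row g) ι ℂ,
      MvPolynomial.aeval (fun ij : Row g × ι => M ij.1 ij.2) F =
      w * ∑ i ∈ n.support, (n i : ℂ) * M (Sum.inl e) i
        - ∑ i ∈ m.support, (m i : ℂ) * M (Sum.inr e) i := by
    intro M
    simp only [F, map_sub, map_sum, map_mul, MvPolynomial.aeval_C, MvPolynomial.aeval_X, hw',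
      map_intCast, Finset.mul_sum]
    congr 1
    apply Finset.sum_congr rfl
    intro i _
    ring
  have hdeg : F.totalDegree ≤ 1 := by
    apply (MvPolynomial.totalDegree_sub _ _).trans
    apply max_le
    · apply MvPolynomial.totalDegree_finsetSum_le
      intro i _
      apply (MvPolynomial.totalDegree_mul _ _).trans
      rw [MvPolynomial.totalDegree_C, MvPolynomial.totalDegree_X]
    · apply MvPolynomial.totalDegree_finsetSum_le
      intro i _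
      apply (MvPolynomial.totalDegree_mul _ _).trans
      rw [MvPolynomial.totalDegree_C, MvPolynomial.totalDegree_X]
  refine ⟨F, hdeg, ?_, ?_⟩
  · rw [hF]
    simp only [perMat, Matrix.of_apply]
    rw [hn0, hm2, sub_self]
  · rw [hF]
    simp only [Dm_apply, perMat, Matrix.of_apply]
    have e0 : dvec g (-1) (Sum.inl e) = 1 := rfl
    have e2 : dvec g (-1) (Sum.inr e) = -1 := rfl
    simp only [e0, e2, one_mul]
    have h3 : ∑ i ∈ m.support, (m i : ℂ) * (-1 * per (g := g) (γ i) (Sum.inr e))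
        = -(w * abelInt e σ) := by
      rw [← hm2, ← Finset.sum_neg_distrib]
      apply Finset.sum_congr rfl
      intro i _
      ring
    rw [hn0, h3, sub_neg_eq_add, ← two_mul]
    exact mul_ne_zero two_ne_zero (mul_ne_zero hw he)

/-! ### Hodge structures of the fibres -/

theorem hodgeIso_scale {a : Conf g} {s ρ : ℂ} (hρ : ρ ≠ 0) : HodgeIso a a s (ρ ^ 2 * s) := by
  have hz : ∀ (σ : ℂ) (w : Row g → ℂ), w ∈ F0 g → dvec g σ * w ∈ F0 g := by
    intro σ w hw k hk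
    obtain ⟨h1, h2⟩ := hw k hk
    constructor
    · show dvec g σ (Sum.inl k) * w (Sum.inl k) = 0
      rw [h1, mul_zero]
    · show dvec g σ (Sum.inr k) * w (Sum.inr k) = 0
      rw [h2, mul_zero]
  refine ⟨Deq g ρ hρ, Lam_scale hρ, ?_⟩
  ext v
  constructor
  · rintro ⟨w, hw, rfl⟩
    exact hz ρ w hw
  · intro hv
    refine ⟨dvec g ρ⁻¹ * v, hz _ v hv, ?_⟩
    show dvec g ρ * (dvec g ρ⁻¹ * v) = v
    rw [dvec_mul, mul_inv_cancel₀ hρ, dvec_one]

theorem hodgeIso_all (a : Conf g) {s s' : ℂ} (hs : s ≠ 0) (hs' : s' ≠ 0) : HodgeIso a a s s' := by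
  obtain ⟨ρ, hρ⟩ := IsAlgClosed.exists_pow_nat_eq (s' / s) (n := 2) (by norm_num)
  have hρ0 : ρ ≠ 0 := by
    rintro rfl
    have : s' / s ≠ 0 := div_ne_zero hs' hs
    apply this
    rw [← hρ]
    norm_num
  have h := hodgeIso_scale (a := a) (s := s) hρ0
  have e : ρ ^ 2 * s = s' := by
    rw [hρ]
    field_simp
  rwa [e] at h

/-! ### Local bases of the local system and the main inequality -/

/-- The branch of `√(s / s₀)` near `s₀`. -/
def rt (s₀ s : ℂ) : ℂ := exp (log (s / s₀) / 2)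

theorem rt_ne (s₀ s : ℂ) : rt s₀ s ≠ 0 := exp_ne_zero _

theorem rt_self {s₀ : ℂ} (h : s₀ ≠ 0) : rt s₀ s₀ = 1 := by
  unfold rt
  rw [div_self h]
  simp

theorem ball_ne {s₀ s : ℂ} (h : s ∈ Metric.ball s₀ ‖s₀‖) : s ≠ 0 := by
  rintro rfl
  rw [Metric.mem_ball, dist_eq_norm, zero_sub, norm_neg] at h
  exact lt_irrefl _ h

theorem rt_sq {s₀ s : ℂ} (h : s₀ ≠ 0) (hs : s ≠ 0) : rt s₀ s ^ 2 * s₀ = s := by
  unfold rt
  rw [← exp_nat_mul]
  have e : ((2 : ℕ) : ℂ) * (log (s / s₀) / 2) = log (s / s₀) := by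
    push_cast
    ring
  rw [e, exp_log (div_ne_zero hs h)]
  field_simp

theorem div_mem_slit {s₀ s : ℂ} (h : s₀ ≠ 0) (hs : s ∈ Metric.ball s₀ ‖s₀‖) :
    s / s₀ ∈ slitPlane := by
  have h1 : ‖(s - s₀) / s₀‖ < 1 := by
    rw [norm_div, div_lt_one (norm_pos_iff.mpr h)]
    rwa [Metric.mem_ball, dist_eq_norm] at hs
  have h2 := mem_slitPlane_of_norm_lt_one h1
  have h3 : 1 + (s - s₀) / s₀ = s / s₀ := by
    field_simp
    ring
  rwa [h3] at h2

theorem rt_diff {s₀ : ℂ} (h : s₀ ≠ 0) : DifferentiableOn ℂ (rt s₀) (Metric.ball s₀ ‖s₀‖) := by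
  intro s hs
  unfold rt
  apply DifferentiableAt.differentiableWithinAt
  apply DifferentiableAt.cexp
  apply DifferentiableAt.div_const
  apply DifferentiableAt.clog
  · fun_prop
  · exact div_mem_slit h hs

theorem rt_real {s₀ : ℂ} (h : s₀ ≠ 0) {r : ℝ} (hr : 0 < r) :
    rt s₀ ((r : ℂ) ^ 2 * s₀) = r := by
  unfold rt
  have e : (r : ℂ) ^ 2 * s₀ / s₀ = ((r ^ 2 : ℝ) : ℂ) := by
    push_cast
    field_simp
  rw [e, ← ofReal_log (by positivity)]
  rw [Real.log_pow]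
  have e2 : ((((2 : ℕ) : ℝ) * Real.log r : ℝ) : ℂ) / 2 = ((Real.log r : ℝ) : ℂ) := by
    push_cast
    ring
  rw [e2, ← ofReal_exp, Real.exp_log hr]

/-! ### Every local frame scales along the second variable -/

/-- the additive subgroup generated by a countable set is countable -/
theorem countable_closure {A : Type} [AddCommGroup A] {S : Set A} (hS : S.Countable) :
    (AddSubgroup.closure S : Set A).Countable := by
  classical
  have : Countable S := hS.to_subtype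
  have h1 : (AddSubgroup.closure S : Set A) ⊆
      Set.range fun n : S →₀ ℤ => n.sum fun i k => k • (i : A) := by
    intro x hx
    have hx' : x ∈ AddSubgroup.closure (Set.range ((↑) : S → A)) := by
      rwa [Subtype.range_coe]
    obtain ⟨n, hn⟩ := AddSubgroup.mem_closure_range_iff.mp hx'
    exact ⟨n, hn.symm⟩
  exact (Set.countable_range _).mono h1

/-- Over the slice `{a} × ball s₀ r`, the period matrix of a local frame is a scaling of its value at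
`(a, s₀)`. -/
theorem slice {ι : Type} {T : Set (Conf g)} {Y : Set (Matrix (Row g) ι ℂ)}
    {U : Set (Conf g × ℂ)} {Γ : Conf g × ℂ → ι → ℝ → Pt} (hΓ : IsLocalFrame T Y U Γ)
    {a : Conf g} {s₀ : ℂ} (hs : (a, s₀) ∈ U) (hcount : (Lam a s₀ : Set (Row g → ℂ)).Countable) :
    ∃ r : ℝ, 0 < r ∧ r ≤ ‖s₀‖ ∧ ∀ s ∈ Metric.ball s₀ r, (a, s) ∈ U ∧
      perMat (g := g) (Γ (a, s)) = Dm (rt s₀ s) (perMat (Γ (a, s₀))) := by
  obtain ⟨O, hO, hU⟩ := hΓ.opn
  have hs' := hs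
  rw [hU] at hs'
  obtain ⟨hsO, haT, hs0⟩ := hs'
  simp only at haT hs0
  have hO' : IsOpen {s : ℂ | (a, s) ∈ O} := hO.preimage (by fun_prop : Continuous fun s : ℂ => (a, s))
  obtain ⟨r', hr'0, hr'⟩ := Metric.isOpen_iff.1 hO' s₀ hsO
  have hn : 0 < ‖s₀‖ := norm_pos_iff.2 hs0
  refine ⟨min r' ‖s₀‖, lt_min hr'0 hn, min_le_right _ _, ?_⟩
  set r : ℝ := min r' ‖s₀‖ with hr
  have hball : ∀ s ∈ Metric.ball s₀ r, s ∈ Metric.ball s₀ ‖s₀‖ := fun s h =>
    Metric.ball_subset_ball (min_le_right _ _) h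
  have hmemU : ∀ s ∈ Metric.ball s₀ r, (a, s) ∈ U := by
    intro s h
    rw [hU]
    exact ⟨hr' (Metric.ball_subset_ball (min_le_left _ _) h), haT, ball_ne (hball s h)⟩
  intro s h
  refine ⟨hmemU s h, ?_⟩
  ext k j
  -- the scaled column takes values in a countable set
  set G : ℂ → (Row g → ℂ) := fun z k => (dvec g (rt s₀ z) k)⁻¹ * perMat (g := g) (Γ (a, z)) k j
    with hG
  have hGmem : ∀ z ∈ Metric.ball s₀ r, G z ∈ (Lam a s₀ : Set (Row g → ℂ)) := by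
    intro z hz
    have hg1 := (hΓ.gen _ (hmemU z hz)).loop j
    have h1 := isLoop_scale (inv_ne_zero (rt_ne s₀ z)) hg1
    have h2 : (rt s₀ z)⁻¹ ^ 2 * z = s₀ := by
      have h3 := rt_sq hs0 (ball_ne (hball z hz))
      have h4 := rt_ne s₀ z
      calc (rt s₀ z)⁻¹ ^ 2 * z = (rt s₀ z)⁻¹ ^ 2 * (rt s₀ z ^ 2 * s₀) := by rw [h3]
        _ = s₀ := by field_simp
    simp only at h1
    rw [h2] at h1
    refine AddSubgroup.subset_closure ⟨_, h1, ?_⟩
    rw [per_scale]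
    funext k
    simp only [hG, perMat, Matrix.of_apply, Pi.mul_apply]
    congr 1
    rcases k with k | k <;> simp [dvec]
  have hGc : ContinuousOn G (Metric.ball s₀ r) := by
    rw [continuousOn_pi]
    intro k
    have h1 : ContinuousOn (fun z => perMat (g := g) (Γ (a, z)) k j) (Metric.ball s₀ r) :=
      (hΓ.conv k j).comp (by fun_prop) fun z hz => hmemU z hz
    have h2 : ContinuousOn (fun z => (dvec g (rt s₀ z) k)⁻¹) (Metric.ball s₀ r) := by
      rcases k with k | k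
      · simp only [dvec, Sum.elim_inl]
        exact continuousOn_const
      · simp only [dvec, Sum.elim_inr]
        refine ContinuousOn.inv₀ ((rt_diff hs0).continuousOn.mono hball) fun z _ => rt_ne _ _
    exact h2.mul h1
  have hpre : IsPreconnected (G '' Metric.ball s₀ r) :=
    (Metric.isPreconnected_ball).image G hGc
  have hsub := hcount.isTotallyDisconnected (G '' Metric.ball s₀ r)
    (by rintro _ ⟨z, hz, rfl⟩; exact hGmem z hz) hpre
  have hs₀mem : s₀ ∈ Metric.ball s₀ r := Metric.mem_ball_self (lt_min hr'0 hn)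
  have heq : G s = G s₀ := hsub ⟨s, h, rfl⟩ ⟨s₀, hs₀mem, rfl⟩
  have hk := congrFun heq k
  simp only [hG] at hk
  rw [rt_self hs0] at hk
  have hd1 : dvec g 1 k = 1 := by rcases k with k | k <;> rfl
  have hd2 : dvec g (rt s₀ s) k ≠ 0 := by
    rcases k with k | k
    · simp [dvec]
    · simpa [dvec] using rt_ne s₀ s
  rw [hd1, inv_one, one_mul] at hk
  rw [Dm_apply, ← hk, ← mul_assoc, mul_inv_cancel₀ hd2, one_mul]

/-- The other branch lies in the closure of the graph. -/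
theorem other_mem {ι : Type} {T : Set (Conf g)} {Y : Set (Matrix (Row g) ι ℂ)}
    (hY : ∀ ρ : ℂ, ρ ≠ 0 → ∀ M ∈ Y, Dm ρ M ∈ Y) {a : Conf g} (haT : a ∈ T) {s₀ : ℂ} (h0 : s₀ ≠ 0)
    {M₀ : Matrix (Row g) ι ℂ} (hM : M₀ ∈ Y) {r : ℝ} (hr : 0 < r)
    {G : Set ((Conf g × ℂ) × Matrix (Row g) ι ℂ)}
    (hG : ∀ s ∈ Metric.ball s₀ r, ((a, s), Dm (rt s₀ s) M₀) ∈ G) :
    ((a, s₀), Dm (-1) M₀) ∈ BVar T Y G := by
  rintro Z ⟨⟨I, rfl⟩, hZ⟩
  refine ⟨haT, h0, hY _ (by norm_num) _ hM, ?_⟩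
  intro F hF
  have hn : 0 < ‖s₀‖ := norm_pos_iff.2 h0
  set c : ℝ := min 1 (r / (3 * ‖s₀‖)) with hc
  have hc0 : 0 < c := lt_min one_pos (by positivity)
  have hT : (((fun v : ℝ => (v : ℂ)) '' Set.Ioo 1 (1 + c)) : Set ℂ).Infinite := by
    apply Set.Infinite.image
    · exact Complex.ofReal_injective.injOn
    · exact Set.Ioo_infinite (by linarith)
  have h1 := ev_branch F a s₀ M₀ _ hT ?_ (-1)
  · simpa using h1
  · rintro _ ⟨v, ⟨hv1, hv2⟩, rfl⟩
    have hv0 : 0 < v := by linarith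
    have hmem : ((v : ℂ) ^ 2 * s₀) ∈ Metric.ball s₀ r := by
      rw [Metric.mem_ball, dist_eq_norm]
      have e : (v : ℂ) ^ 2 * s₀ - s₀ = ((v ^ 2 - 1 : ℝ) : ℂ) * s₀ := by
        push_cast
        ring
      rw [e, norm_mul, Complex.norm_real, Real.norm_eq_abs, abs_of_pos (by nlinarith)]
      have h7 : v ^ 2 - 1 < 3 * c := by
        have h8 : c ≤ 1 := min_le_left _ _
        nlinarith
      have h9 : c ≤ r / (3 * ‖s₀‖) := min_le_right _ _
      calc (v ^ 2 - 1) * ‖s₀‖ < 3 * c * ‖s₀‖ := mul_lt_mul_of_pos_right h7 hn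
        _ ≤ 3 * (r / (3 * ‖s₀‖)) * ‖s₀‖ := by gcongr
        _ = r := by field_simp
    have h2 := hG _ hmem
    rw [rt_real h0 hv0] at h2
    exact (hZ h2).2.2.2 F hF

theorem isAlgebraic_kap (K : IntermediateField ℚ ℂ) [FiniteDimensional ℚ K] {a : Conf g} {s : ℂ}
    (ha : ∀ i, IsAlgebraic ℚ (a i)) (hs : IsAlgebraic ℚ s) (x : kap K a s) :
    IsAlgebraic ℚ (x : ℂ) := by
  have h1 : Algebra.IsAlgebraic ℚ K := Algebra.IsAlgebraic.of_finite ℚ K
  have h2 : Algebra.IsAlgebraic K (kap K a s) :=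
    IntermediateField.isAlgebraic_adjoin (fun y hy => by
      rcases Set.mem_insert_iff.1 hy with rfl | ⟨i, rfl⟩
      · exact (hs.tower_top K).isIntegral
      · exact ((ha i).tower_top K).isIntegral)
  have h3 : Algebra.IsAlgebraic ℚ (kap K a s) := Algebra.IsAlgebraic.trans ℚ K (kap K a s)
  exact (h3.isAlgebraic x).algebraMap

/-- the relation, for a set that contains a piece of the branch -/
theorem hasRelation {ι : Type} (hg : 1 ≤ g) (K : IntermediateField ℚ ℂ) [FiniteDimensional ℚ K]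
    {T : Set (Conf g)} {Y : Set (Matrix (Row g) ι ℂ)}
    (hY : ∀ ρ : ℂ, ρ ≠ 0 → ∀ M ∈ Y, Dm ρ M ∈ Y)
    {a : Conf g} (ha : Function.Injective a) (haT : a ∈ T) (haa : ∀ i, IsAlgebraic ℚ (a i))
    {δ : ℕ} (hδ : 1 ≤ δ) {w : ℂ} (hw : w ≠ 0) (hwa : IsAlgebraic ℚ w) (hwk : w ∈ kap K a (w ^ 2))
    {γ : ι → ℝ → Pt} (h : Generates a (w ^ 2) γ) (hM : perMat (g := g) γ ∈ Y) {r : ℝ} (hr : 0 < r)
    {G : Set ((Conf g × ℂ) × Matrix (Row g) ι ℂ)}
    (hG : ∀ s ∈ Metric.ball (w ^ 2) r, ((a, s), Dm (rt (w ^ 2) s) (perMat γ)) ∈ G) :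
    HasRelation K a (w ^ 2) δ (ptClosure Y (perMat γ)) {M | ((a, w ^ 2), M) ∈ BVar T Y G} := by
  have h0 : w ^ 2 ≠ 0 := pow_ne_zero 2 hw
  have ha2 : IsAlgebraic ℚ (w ^ 2) := hwa.pow 2
  obtain ⟨F, hdeg, hF1, hF2⟩ := exists_relation hg ha hw h (kap K a (w ^ 2)) ⟨w, hwk⟩ rfl
  refine ⟨F, hdeg.trans hδ, ?_, ?_⟩
  · intro M hMc
    let φ : kap K a (w ^ 2) →+* Qbar :=
      (algebraMap (kap K a (w ^ 2)) ℂ).codRestrict Qbar
        (fun x => mem_algebraicClosure_iff.mpr (isAlgebraic_kap K haa ha2 x))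
    have hφ : ∀ N : Matrix (Row g) ι ℂ, ev₀ (MvPolynomial.map φ F) N =
        MvPolynomial.aeval (fun ij : Row g × ι => N ij.1 ij.2) F := by
      intro N
      unfold ev₀
      rw [MvPolynomial.aeval_def, MvPolynomial.eval₂_map, MvPolynomial.aeval_def]
      rfl
    have h1 := hMc {N | N ∈ Y ∧ ev₀ (MvPolynomial.map φ F) N = 0}
      ⟨⟨{MvPolynomial.map φ F}, ?_⟩, hM, ?_⟩
    · rw [← hφ]
      exact h1.2
    · ext N
      simp
    · rw [hφ]
      exact hF1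
  · exact ⟨_, other_mem hY haT h0 hM hr hG, hF2⟩

/-- The main theorem for arbitrary local frames. -/
theorem main_frames {ι : Type} (hg : 1 ≤ g) (K : IntermediateField ℚ ℂ)
    [FiniteDimensional ℚ K] {T : Set (Conf g)} {Y : Set (Matrix (Row g) ι ℂ)}
    (hY : ∀ ρ : ℂ, ρ ≠ 0 → ∀ M ∈ Y, Dm ρ M ∈ Y)
    {a : Conf g} (ha : Function.Injective a) (haa : ∀ i, IsAlgebraic ℚ (a i))
    {δ : ℕ} (hδ : 1 ≤ δ) {w s₀ : ℂ} (hs₀ : s₀ ≠ 0) (hsa : IsAlgebraic ℚ s₀) (hws : w ^ 2 = s₀)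
    (hwk : w ∈ kap K a s₀) {U : Set (Conf g × ℂ)} {Γ : Conf g × ℂ → ι → ℝ → Pt}
    (hΓ : IsLocalFrame T Y U Γ) (hU : (a, s₀) ∈ U)
    (hcount : (Lam a s₀ : Set (Row g → ℂ)).Countable)
    {G : Set ((Conf g × ℂ) × Matrix (Row g) ι ℂ)} (hG : graph U Γ ⊆ G) :
    HasRelation K a s₀ δ (ptClosure Y (perMat (Γ (a, s₀)))) {M | ((a, s₀), M) ∈ BVar T Y G} := by
  subst hws
  have hw : w ≠ 0 := by
    rintro rfl
    apply hs₀
    norm_num
  have hwa : IsAlgebraic ℚ w := IsAlgebraic.of_pow (n := 2) (by norm_num) hsa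
  have haT : a ∈ T := by
    obtain ⟨O, _, hU2⟩ := hΓ.opn
    rw [hU2] at hU
    exact hU.2.1
  obtain ⟨r, hr, _, hslice⟩ := slice hΓ hU hcount
  refine hasRelation hg K hY ha haT haa hδ hw hwa hwk (hΓ.gen _ hU) (hΓ.mem _ hU) hr ?_
  intro s hs
  apply hG
  exact ⟨(hslice s hs).1, (hslice s hs).2.symm⟩

/-! ### The fixed curve -/

/-- The frame obtained by transporting loops over `s₀` with the isomorphisms
`(x₂, y₂) ↦ (x₂, y₂ / √(s / s₀))`. -/
def frame {ι : Type} (s₀ : ℂ) (γ : ι → ℝ → Pt) (p : Conf g × ℂ) (i : ι) (t : ℝ) : Pt :=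
  scale (rt s₀ p.2) (γ i t)

theorem frame_self {ι : Type} {s₀ : ℂ} (h : s₀ ≠ 0) (γ : ι → ℝ → Pt) (a : Conf g) :
    frame s₀ γ (a, s₀) = γ := by
  funext i t
  unfold frame
  rw [rt_self h]
  simp [scale]

/-- the slice `{a} × ball s₀ |s₀|` -/
def sl (a : Conf g) (s₀ : ℂ) : Set (Conf g × ℂ) := {p | p.1 = a ∧ p.2 ∈ Metric.ball s₀ ‖s₀‖}

theorem isLocalFrame_frame {ι : Type} {a : Conf g} {Y : Set (Matrix (Row g) ι ℂ)}
    (hY : ∀ ρ : ℂ, ρ ≠ 0 → ∀ M ∈ Y, Dm ρ M ∈ Y) {s₀ : ℂ} (h0 : s₀ ≠ 0) {γ : ι → ℝ → Pt}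
    (h : Generates a s₀ γ) (hM : perMat (g := g) γ ∈ Y) :
    IsLocalFrame {a} Y (sl a s₀) (frame s₀ γ) := by
  have hrt : ContinuousOn (fun p : Conf g × ℂ => rt s₀ p.2) (sl a s₀) :=
    (rt_diff h0).continuousOn.comp continuousOn_snd fun q hq => hq.2
  refine ⟨⟨{p | p.2 ∈ Metric.ball s₀ ‖s₀‖}, Metric.isOpen_ball.preimage continuous_snd, ?_⟩,
    ?_, ?_, ?_, ?_⟩
  · ext p
    constructor
    · rintro ⟨h1, h2⟩
      exact ⟨h2, h1, ball_ne h2⟩
    · rintro ⟨h1, h2, _⟩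
      exact ⟨h2, h1⟩
  · intro i
    have h1 : ContinuousOn (fun q : (Conf g × ℂ) × ℝ => rt s₀ q.1.2) (sl a s₀ ×ˢ Set.univ) :=
      hrt.comp continuousOn_fst fun q hq => hq.1
    have h2 : Continuous (fun q : (Conf g × ℂ) × ℝ => γ i q.2) :=
      (h.loop i).smooth.continuous.comp continuous_snd
    unfold frame scale
    apply ContinuousOn.prodMk
    · exact (continuous_fst.comp h2).continuousOn
    · apply ContinuousOn.prodMk
      · exact (continuous_fst.comp (continuous_snd.comp h2)).continuousOn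
      · apply ContinuousOn.div
        · exact (continuous_snd.comp (continuous_snd.comp h2)).continuousOn
        · exact h1
        · intro q _
          exact rt_ne _ _
  · rintro ⟨b, s⟩ ⟨hb, hs⟩
    simp only at hb hs
    subst hb
    have h1 := generates_scale (rt_ne s₀ s) h
    rw [rt_sq h0 (ball_ne hs)] at h1
    exact h1
  · rintro ⟨b, s⟩ ⟨hb, hs⟩
    have h1 := hY _ (rt_ne s₀ s) _ hM
    rwa [← perMat_scale] at h1
  · intro k j
    have e : (fun p : Conf g × ℂ => perMat (g := g) (frame s₀ γ p) k j)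
        = fun p => dvec g (rt s₀ p.2) k * perMat γ k j := by
      funext p
      have := perMat_scale (g := g) (rt s₀ p.2) γ
      unfold frame
      rw [this, Dm_apply]
    rw [e]
    refine ContinuousOn.mul ?_ continuousOn_const
    rcases k with k | k
    · simp only [dvec, Sum.elim_inl]
      exact continuousOn_const
    · simp only [dvec, Sum.elim_inr]
      exact hrt

theorem perMat_frame {ι : Type} (s₀ s : ℂ) (γ : ι → ℝ → Pt) (a : Conf g) :
    perMat (g := g) (frame s₀ γ (a, s)) = Dm (rt s₀ s) (perMat γ) := perMat_scale _ _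

/-- all loops generate -/
theorem exists_generates (a : Conf g) (s : ℂ) :
    ∃ (ι : Type) (γ : ι → ℝ → Pt), Generates a s γ := by
  refine ⟨{γ : ℝ → Pt // IsLoop a s γ}, fun γ => γ.1, fun γ => γ.2, ?_⟩
  unfold Lam
  congr 1
  ext v
  constructor
  · rintro ⟨γ, rfl⟩
    exact ⟨γ.1, γ.2, rfl⟩
  · rintro ⟨γ, hγ, rfl⟩
    exact ⟨⟨γ, hγ⟩, rfl⟩

theorem GLn_stable : ∀ ρ : ℂ, ρ ≠ 0 → ∀ M ∈ GLn g, Dm ρ M ∈ GLn g := by
  intro ρ hρ M hM
  have h1 : Dm ρ M = Matrix.diagonal (dvec g ρ) * M := by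
    ext k j
    rw [Matrix.diagonal_mul]
    rfl
  show (Dm ρ M).det ≠ 0
  rw [h1, Matrix.det_mul, Matrix.det_diagonal]
  refine mul_ne_zero ?_ hM
  rw [Finset.prod_ne_zero_iff]
  intro k _
  rcases k with k | k
  · simp [dvec]
  · simpa [dvec] using hρ

end

end Pool.Agent.Y327.HP
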