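import Pool.Agent.Y327.HP.ODE

/-!
# Local frames over `T × 𝔾_m`
-/

set_option autoImplicit false

namespace Pool.Agent.Y327.HP

open Complex MeasureTheory Set Topology

noncomputable section

variable {g : ℕ}

/-- transport on both factors -/
def Tr2 {a : Conf g} (D : Loc a) (ε : Conf g) (q : Pt) : Pt := (D.Tr ε q.1, D.Tr ε q.2)

lemma loop_ne1 {a : Conf g} {s : ℂ} {γ : ℝ → Pt} (h : IsLoop a s γ) (t : ℝ)
    (j : Fin (2 * g + 1)) : (γ t).1.1 - a j ≠ 0 := by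
  refine Loc.ne_of_pol ?_ j
  rw [← (h.mem t).1.1]
  exact pow_ne_zero 2 (h.mem t).1.2

lemma loop_ne2 {a : Conf g} {s : ℂ} (hs : s ≠ 0) {γ : ℝ → Pt} (h : IsLoop a s γ) (t : ℝ)
    (j : Fin (2 * g + 1)) : (γ t).2.1 - a j ≠ 0 := by
  refine Loc.ne_of_pol ?_ j
  rw [← (h.mem t).2.1]
  exact mul_ne_zero hs (pow_ne_zero 2 (h.mem t).2.2)

lemma isLoop_Tr2 {a : Conf g} (D : Loc a) {ε : Conf g} (hε : ‖ε‖ ≤ D.e) {s : ℂ} (hs : s ≠ 0)
    {γ : ℝ → Pt} (h : IsLoop a s γ) : IsLoop (a + ε) s fun t => Tr2 D ε (γ t) := by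
  refine ⟨?_, ?_, ?_⟩
  · have h1 : ContDiff ℝ (⊤ : ℕ∞) fun t => (γ t).1 := contDiff_fst.comp h.smooth
    have h2 : ContDiff ℝ (⊤ : ℕ∞) fun t => (γ t).2 := contDiff_snd.comp h.smooth
    exact (D.Tr_smooth hε h1 fun t j => loop_ne1 h t j).prodMk
      (D.Tr_smooth hε h2 fun t j => loop_ne2 hs h t j)
  · intro t
    simp only
    rw [h.periodic t]
  · intro t
    obtain ⟨⟨h1, h2⟩, h3, h4⟩ := h.mem t
    have e1 := D.Tr_mem hε (s := 1) (p := (γ t).1) (by rw [one_mul]; exact h1) one_ne_zero h2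
    rw [one_mul] at e1
    exact ⟨e1, D.Tr_mem hε h3 hs h4⟩

lemma exists_Tr2 {a : Conf g} (D : Loc a) {ε : Conf g} (hε : ‖ε‖ ≤ D.e) {s : ℂ} (hs : s ≠ 0)
    {γ : ℝ → Pt} (h : IsLoop (a + ε) s γ) :
    ∃ γ₀ : ℝ → Pt, IsLoop a s γ₀ ∧ (fun t => Tr2 D ε (γ₀ t)) = γ := by
  have h1 : ContDiff ℝ (⊤ : ℕ∞) fun t => (γ t).1 := contDiff_fst.comp h.smooth
  have h2 : ContDiff ℝ (⊤ : ℕ∞) fun t => (γ t).2 := contDiff_snd.comp h.smooth
  obtain ⟨σ₁, a1, b1, c1, d1⟩ := D.exists_Tr hε one_ne_zero h1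
    (fun t => by rw [h.periodic t])
    (fun t => by rw [one_mul]; exact (h.mem t).1)
  obtain ⟨σ₂, a2, b2, c2, d2⟩ := D.exists_Tr hε hs h2
    (fun t => by rw [h.periodic t]) (fun t => (h.mem t).2)
  refine ⟨fun t => (σ₁ t, σ₂ t), ⟨a1.prodMk a2, fun t => ?_, fun t => ⟨?_, c2 t⟩⟩, ?_⟩
  · rw [b1 t, b2 t]
  · have := c1 t
    rwa [one_mul] at this
  · funext t
    unfold Tr2
    simp only
    rw [d1 t, d2 t]

lemma CL_one {a : Conf g} {s : ℂ} {γ : ℝ → Pt} (h : IsLoop a s γ) : CL a fun t => (γ t).1 :=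
  ⟨contDiff_fst.comp h.smooth, fun t => by rw [h.periodic t], fun t => (h.mem t).1⟩

lemma CL_two {a : Conf g} {s ρ : ℂ} (hρ : ρ ≠ 0) (h2 : ρ ^ 2 * s = 1) {γ : ℝ → Pt}
    (h : IsLoop a s γ) : CL a fun t => ((γ t).2.1, (γ t).2.2 / ρ) := by
  have h3 : ContDiff ℝ (⊤ : ℕ∞) fun t => (γ t).2 := contDiff_snd.comp h.smooth
  refine ⟨?_, fun t => by rw [h.periodic t], fun t => ⟨?_, ?_⟩⟩
  · exact (contDiff_fst.comp h3).prodMk ((contDiff_snd.comp h3).div_const ρ)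
  · simp only
    rw [← (h.mem t).2.1, div_pow]
    have h4 : s = 1 / ρ ^ 2 := by
      rw [← h2]
      field_simp
    rw [h4]
    ring
  · exact div_ne_zero (h.mem t).2.2 hρ

lemma Tr_scale {a : Conf g} (D : Loc a) (ε : Conf g) (ρ : ℂ) (q : ℂ × ℂ) :
    D.Tr ε (q.1, q.2 / ρ) = ((D.Tr ε q).1, (D.Tr ε q).2 / ρ) := by
  unfold Loc.Tr
  simp only
  rw [div_mul_eq_mul_div]

/-- Transport preserves the linear relations between period vectors. -/
theorem per_transport {a : Conf g} (D : Loc a) {ε : Conf g} (hε : ‖ε‖ ≤ D.e / 2) {s₀ : ℂ}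
    (h0 : s₀ ≠ 0) {ι : Type*} (s : Finset ι) (n : ι → ℤ) (γ : ι → ℝ → Pt)
    (hγ : ∀ i, IsLoop a s₀ (γ i)) (hrel : ∑ i ∈ s, n i • per (g := g) (γ i) = 0) :
    ∑ i ∈ s, n i • per (g := g) (fun t => Tr2 D ε (γ i t)) = 0 := by
  obtain ⟨ρ, hρ⟩ := IsAlgClosed.exists_pow_nat_eq (1 / s₀) (n := 2) (by norm_num)
  have hρ0 : ρ ≠ 0 := by
    rintro rfl
    have h1 : (1 : ℂ) / s₀ ≠ 0 := div_ne_zero one_ne_zero h0
    apply h1
    rw [← hρ]
    norm_num
  have hρ2 : ρ ^ 2 * s₀ = 1 := by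
    rw [hρ]
    field_simp
  have r1 : ∀ k < 2 * g, ∑ i ∈ s, (n i : ℂ) * abelInt k (fun t => (γ i t).1) = 0 := by
    intro k hk
    have h1 := congrFun hrel (Sum.inl ⟨k, hk⟩)
    simpa [per, Finset.sum_apply] using h1
  have r2 : ∀ k < 2 * g, ∑ i ∈ s, (n i : ℂ) * abelInt k (fun t => (γ i t).2) = 0 := by
    intro k hk
    have h1 := congrFun hrel (Sum.inr ⟨k, hk⟩)
    simpa [per, Finset.sum_apply] using h1
  have t1 := relation_transport D hε s (fun i => (n i : ℂ)) (fun i t => (γ i t).1)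
    (fun i => CL_one (hγ i)) r1
  have t2 := relation_transport D hε s (fun i => (n i : ℂ))
    (fun i t => ((γ i t).2.1, (γ i t).2.2 / ρ)) (fun i => CL_two hρ0 hρ2 (hγ i)) (by
      intro k hk
      have h1 := r2 k hk
      have h2 : ∀ i, abelInt k (fun t => ((γ i t).2.1, (γ i t).2.2 / ρ))
          = ρ * abelInt k (fun t => (γ i t).2) := fun i => abelInt_scale k ρ fun t => (γ i t).2
      simp only [h2]
      have h3 : ∑ i ∈ s, (n i : ℂ) * (ρ * abelInt k (fun t => (γ i t).2))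
          = ρ * ∑ i ∈ s, (n i : ℂ) * abelInt k (fun t => (γ i t).2) := by
        rw [Finset.mul_sum]
        refine Finset.sum_congr rfl fun i _ => ?_
        ring
      rw [h3, h1, mul_zero])
  have t2' : ∀ k < 2 * g, ∑ i ∈ s, (n i : ℂ) * abelInt k (fun t => D.Tr ε (γ i t).2) = 0 := by
    intro k hk
    have h1 := t2 k hk
    have h2 : ∀ i, abelInt k (fun t => D.Tr ε ((γ i t).2.1, (γ i t).2.2 / ρ))
        = ρ * abelInt k (fun t => D.Tr ε (γ i t).2) := by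
      intro i
      have h4 : ∀ t, D.Tr ε ((γ i t).2.1, (γ i t).2.2 / ρ)
          = ((D.Tr ε (γ i t).2).1, (D.Tr ε (γ i t).2).2 / ρ) := fun t => Tr_scale D ε ρ _
      simp only [h4]
      exact abelInt_scale k ρ fun t => D.Tr ε (γ i t).2
    simp only [h2] at h1
    have h3 : ∑ i ∈ s, (n i : ℂ) * (ρ * abelInt k (fun t => D.Tr ε (γ i t).2))
        = ρ * ∑ i ∈ s, (n i : ℂ) * abelInt k (fun t => D.Tr ε (γ i t).2) := by
      rw [Finset.mul_sum]
      refine Finset.sum_congr rfl fun i _ => ?_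
      ring
    rw [h3] at h1
    exact (mul_eq_zero.1 h1).resolve_left hρ0
  funext k
  rcases k with k | k
  · have h1 := t1 k k.2
    simpa [per, Finset.sum_apply, Tr2] using h1
  · have h1 := t2' k k.2
    simpa [per, Finset.sum_apply, Tr2] using h1

theorem generates_Tr2 {ι : Type} {a : Conf g} (D : Loc a) {ε : Conf g} (hε : ‖ε‖ ≤ D.e / 2)
    {s₀ : ℂ} (h0 : s₀ ≠ 0) {γ : ι → ℝ → Pt} (h : Generates a s₀ γ) :
    Generates (a + ε) s₀ (fun i t => Tr2 D ε (γ i t)) := by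
  have hε' : ‖ε‖ ≤ D.e := hε.trans (by linarith [D.e_pos])
  refine ⟨fun i => isLoop_Tr2 D hε' h0 (h.loop i), le_antisymm ?_ ?_⟩
  · rw [AddSubgroup.closure_le]
    rintro _ ⟨i, rfl⟩
    exact AddSubgroup.subset_closure ⟨_, isLoop_Tr2 D hε' h0 (h.loop i), rfl⟩
  · unfold Lam
    rw [AddSubgroup.closure_le]
    rintro _ ⟨δ', hδ', rfl⟩
    obtain ⟨δ, hδ, hTr⟩ := exists_Tr2 D hε' h0 hδ'
    have h1 : per (g := g) δ ∈ AddSubgroup.closure (Set.range fun i => per (g := g) (γ i)) := by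
      rw [h.gen]
      exact AddSubgroup.subset_closure ⟨δ, hδ, rfl⟩
    obtain ⟨n, hn⟩ := AddSubgroup.mem_closure_range_iff.mp h1
    have h2 := per_transport D hε h0 (Finset.insertNone n.support)
      (fun o : Option ι => o.elim (-1) n) (fun o => o.elim δ γ)
      (by rintro (_ | i); exacts [hδ, h.loop i]) (by
        rw [Finset.sum_insertNone]
        simp only [Option.elim_none, Option.elim_some]
        rw [hn, Finsupp.sum]
        simp)
    rw [Finset.sum_insertNone] at h2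
    simp only [Option.elim_none, Option.elim_some] at h2
    rw [hTr] at h2
    have h3 : per (g := g) δ'
        = ∑ i ∈ n.support, n i • per (g := g) (fun t => Tr2 D ε (γ i t)) := by
      rw [neg_smul, one_smul] at h2
      exact (neg_add_eq_zero.1 h2)
    show per (g := g) δ' ∈ AddSubgroup.closure _
    rw [h3]
    refine AddSubgroup.sum_mem _ fun i _ => AddSubgroup.zsmul_mem _ ?_ _
    exact AddSubgroup.subset_closure ⟨i, rfl⟩

/-! ### Continuity -/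

/-- the parameter domain -/
def Dm1 {a : Conf g} (D : Loc a) : Set (Conf g × ℝ) := {ε | ‖ε‖ ≤ D.e} ×ˢ univ

lemma X_cont2 {a : Conf g} (D : Loc a) {x : ℝ → ℂ} (hx : Continuous x) :
    Continuous fun q : Conf g × ℝ => D.X q.1 (x q.2) := by
  unfold Loc.X
  refine continuous_finsetSum _ fun i _ => ?_
  exact ((continuous_apply i).comp continuous_fst).mul
    ((D.χ_smooth i).continuous.comp (hx.comp continuous_snd))

lemma Es_cont2 {a : Conf g} (D : Loc a) {x : ℝ → ℂ} (hx : Continuous x)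
    (hne : ∀ t j, x t - a j ≠ 0) :
    ContinuousOn (fun q : Conf g × ℝ => D.Es q.1 (x q.2)) (Dm1 D) := by
  unfold Loc.Es
  refine ContinuousOn.cexp (ContinuousOn.div_const ?_ 2)
  refine continuousOn_finsetSum _ fun j _ => ContinuousOn.clog ?_ fun q hq => D.V_slit hq.1 j _
  refine Continuous.continuousOn ?_
  unfold Loc.V
  refine continuous_const.add (Continuous.div ?_ ?_ fun q => hne q.2 j)
  · exact (X_cont2 D hx).sub ((continuous_apply j).comp continuous_fst)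
  · exact (hx.comp continuous_snd).sub continuous_const

lemma Tr_cont2 {a : Conf g} (D : Loc a) {σ : ℝ → ℂ × ℂ} (hσ : Continuous σ)
    (hne : ∀ t j, (σ t).1 - a j ≠ 0) :
    ContinuousOn (fun q : Conf g × ℝ => D.Tr q.1 (σ q.2)) (Dm1 D) := by
  have h1 : Continuous fun t => (σ t).1 := continuous_fst.comp hσ
  have h2 : Continuous fun t => (σ t).2 := continuous_snd.comp hσ
  have h3 : ContinuousOn (fun q : Conf g × ℝ => D.Es q.1 (σ q.2).1) (Dm1 D) :=
    Es_cont2 D (x := fun t => (σ t).1) h1 hne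
  have h4 : Continuous fun q : Conf g × ℝ => D.X q.1 (σ q.2).1 :=
    X_cont2 D (x := fun t => (σ t).1) h1
  have h5 : ContinuousOn (fun q : Conf g × ℝ => (σ q.2).1) (Dm1 D) :=
    (h1.comp continuous_snd).continuousOn
  have h6 : ContinuousOn (fun q : Conf g × ℝ => (σ q.2).2) (Dm1 D) :=
    (h2.comp continuous_snd).continuousOn
  have h7 := h5.add h4.continuousOn
  have h8 := h6.mul h3
  exact h7.prodMk h8

/-- the derivative of the transported curve -/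
lemma deriv_Tr {a : Conf g} (D : Loc a) (ε : Conf g) {σ : ℝ → ℂ × ℂ}
    (hσ : ContDiff ℝ (⊤ : ℕ∞) σ) (t : ℝ) :
    deriv (fun u => (D.Tr ε (σ u)).1) t = deriv (fun u => (σ u).1) t
      + ∑ i, ε i * deriv (fun u => ((D.χ i (σ u).1 : ℝ) : ℂ)) t := by
  have h1 : ContDiff ℝ (⊤ : ℕ∞) fun t => (σ t).1 := contDiff_fst.comp hσ
  have h2 : HasDerivAt (fun u => (σ u).1) (deriv (fun u => (σ u).1) t) t :=
    (h1.differentiable (by simp) t).hasDerivAt
  have h3 : ∀ i, HasDerivAt (fun u => ((D.χ i (σ u).1 : ℝ) : ℂ))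
      (deriv (fun u => ((D.χ i (σ u).1 : ℝ) : ℂ)) t) t := by
    intro i
    have hs : ContDiff ℝ (⊤ : ℕ∞) fun u => ((D.χ i (σ u).1 : ℝ) : ℂ) := (D.χ_smooth i).comp h1
    exact (hs.differentiable (by simp) t).hasDerivAt
  have h5 : HasDerivAt (fun u => ∑ i, ε i * ((D.χ i (σ u).1 : ℝ) : ℂ))
      (∑ i, ε i * deriv (fun u => ((D.χ i (σ u).1 : ℝ) : ℂ)) t) t :=
    HasDerivAt.fun_sum fun i _ => (h3 i).const_mul (ε i)
  have h4 := (h2.add h5).deriv
  have h6 : (fun u => (D.Tr ε (σ u)).1)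
      = (fun u => (σ u).1) + fun u => ∑ i, ε i * ((D.χ i (σ u).1 : ℝ) : ℂ) := by
    funext u
    rfl
  rw [h6]
  exact h4

/-- continuity of the periods -/
lemma abelInt_cont {a : Conf g} (D : Loc a) {σ : ℝ → ℂ × ℂ} (hσ : ContDiff ℝ (⊤ : ℕ∞) σ)
    (hne : ∀ t j, (σ t).1 - a j ≠ 0) (hne2 : ∀ t, (σ t).2 ≠ 0) (k : ℕ) :
    ContinuousOn (fun ε : Conf g => abelInt k (fun t => D.Tr ε (σ t))) {ε | ‖ε‖ ≤ D.e} := by
  have h1 : ContDiff ℝ (⊤ : ℕ∞) fun t => (σ t).1 := contDiff_fst.comp hσ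
  have h3 := Tr_cont2 D hσ.continuous hne
  rw [continuousOn_iff_continuous_domRestrict]
  have hTr : Continuous fun q : {ε : Conf g | ‖ε‖ ≤ D.e} × ℝ => D.Tr q.1.1 (σ q.2) :=
    h3.comp_continuous (f := fun q : {ε : Conf g | ‖ε‖ ≤ D.e} × ℝ => (q.1.1, q.2))
      (by fun_prop) fun q => ⟨q.1.2, mem_univ _⟩
  have hd : Continuous fun q : {ε : Conf g | ‖ε‖ ≤ D.e} × ℝ =>
      deriv (fun u => (σ u).1) q.2
        + ∑ i, q.1.1 i * deriv (fun u => ((D.χ i (σ u).1 : ℝ) : ℂ)) q.2 := by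
    refine ((h1.continuous_deriv (by simp)).comp continuous_snd).add
      (continuous_finsetSum _ fun i _ => ?_)
    refine Continuous.mul ?_ ?_
    · exact (continuous_apply i).comp (continuous_subtype_val.comp continuous_fst)
    · have hs : ContDiff ℝ (⊤ : ℕ∞) fun u => ((D.χ i (σ u).1 : ℝ) : ℂ) := (D.χ_smooth i).comp h1
      exact (hs.continuous_deriv (by simp)).comp continuous_snd
  have h4 : Continuous (Function.uncurry fun (ε : {ε : Conf g | ‖ε‖ ≤ D.e}) (t : ℝ) =>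
      (D.Tr ε.1 (σ t)).1 ^ k * (deriv (fun u => (σ u).1) t
        + ∑ i, ε.1 i * deriv (fun u => ((D.χ i (σ u).1 : ℝ) : ℂ)) t) / (D.Tr ε.1 (σ t)).2) := by
    refine Continuous.div (((continuous_fst.comp hTr).pow k).mul hd) (continuous_snd.comp hTr) ?_
    intro q
    exact mul_ne_zero (hne2 _) (D.Es_ne _ _)
  have h5 := intervalIntegral.continuous_parametric_intervalIntegral_of_continuous' h4
    (μ := volume) 0 1
  refine h5.congr fun ε => ?_
  show _ = abelInt k (fun t => D.Tr ε.1 (σ t))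
  unfold abelInt
  congr 1
  funext t
  rw [deriv_Tr D ε.1 hσ t]

/-! ### The frame -/

/-- the transported frame -/
def Fr {ι : Type} {a : Conf g} (D : Loc a) (s₀ : ℂ) (γ : ι → ℝ → Pt) (p : Conf g × ℂ) (i : ι)
    (t : ℝ) : Pt := scale (rt s₀ p.2) (Tr2 D (p.1 - a) (γ i t))

/-- its domain -/
def O0 {a : Conf g} (D : Loc a) (s₀ : ℂ) : Set (Conf g × ℂ) :=
  Metric.ball a (D.e / 2) ×ˢ Metric.ball s₀ ‖s₀‖

lemma O0_open {a : Conf g} (D : Loc a) (s₀ : ℂ) : IsOpen (O0 D s₀) :=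
  Metric.isOpen_ball.prod Metric.isOpen_ball

lemma O0_mem {a : Conf g} (D : Loc a) {s₀ : ℂ} (h0 : s₀ ≠ 0) : (a, s₀) ∈ O0 D s₀ :=
  ⟨Metric.mem_ball_self (by linarith [D.e_pos]), Metric.mem_ball_self (norm_pos_iff.2 h0)⟩

lemma O0_norm {a : Conf g} {D : Loc a} {s₀ : ℂ} {p : Conf g × ℂ} (h : p ∈ O0 D s₀) :
    ‖p.1 - a‖ ≤ D.e / 2 := by
  have := h.1
  rw [Metric.mem_ball, dist_eq_norm] at this
  exact this.le

lemma Fr_self {ι : Type} {a : Conf g} (D : Loc a) {s₀ : ℂ} (h0 : s₀ ≠ 0) (γ : ι → ℝ → Pt) :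
    Fr D s₀ γ (a, s₀) = γ := by
  funext i t
  have hX : ∀ x, D.X 0 x = 0 := by
    intro x
    unfold Loc.X
    simp
  have hE : ∀ x, D.Es 0 x = 1 := by
    intro x
    unfold Loc.Es Loc.V
    simp [hX]
  unfold Fr scale Tr2 Loc.Tr Loc.φ
  simp only [sub_self]
  rw [rt_self h0, hX, hX, hE, hE]
  simp

lemma perMat_Fr {ι : Type} {a : Conf g} (D : Loc a) (s₀ : ℂ) (γ : ι → ℝ → Pt) (p : Conf g × ℂ) :
    perMat (g := g) (Fr D s₀ γ p)
      = Dm (rt s₀ p.2) (perMat fun i t => Tr2 D (p.1 - a) (γ i t)) := perMat_scale _ _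

lemma perMat_Fr_cont {ι : Type} {a : Conf g} (D : Loc a) {s₀ : ℂ} (h0 : s₀ ≠ 0)
    {γ : ι → ℝ → Pt} (h : ∀ i, IsLoop a s₀ (γ i)) (k : Row g) (j : ι) :
    ContinuousOn (fun p => perMat (g := g) (Fr D s₀ γ p) k j) (O0 D s₀) := by
  have e : (fun p : Conf g × ℂ => perMat (g := g) (Fr D s₀ γ p) k j)
      = fun p => dvec g (rt s₀ p.2) k * per (fun t => Tr2 D (p.1 - a) (γ j t)) k := by
    funext p
    rw [perMat_Fr, Dm_apply]
    rfl
  rw [e]
  have hrt : ContinuousOn (fun p : Conf g × ℂ => rt s₀ p.2) (O0 D s₀) :=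
    (rt_diff h0).continuousOn.comp continuousOn_snd fun q hq => hq.2
  have hsub : ContinuousOn (fun p : Conf g × ℂ => p.1 - a) (O0 D s₀) := by fun_prop
  have hmaps : MapsTo (fun p : Conf g × ℂ => p.1 - a) (O0 D s₀) {ε | ‖ε‖ ≤ D.e} := by
    intro p hp
    have := O0_norm hp
    show ‖p.1 - a‖ ≤ D.e
    linarith [D.e_pos]
  have hs1 : ContDiff ℝ (⊤ : ℕ∞) fun t => (γ j t).1 := contDiff_fst.comp (h j).smooth
  have hs2 : ContDiff ℝ (⊤ : ℕ∞) fun t => (γ j t).2 := contDiff_snd.comp (h j).smooth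
  refine ContinuousOn.mul ?_ ?_
  · rcases k with k | k
    · simp only [dvec, Sum.elim_inl]
      exact continuousOn_const
    · simp only [dvec, Sum.elim_inr]
      exact hrt
  · rcases k with k | k
    · have h1 := (abelInt_cont D hs1 (fun t j' => loop_ne1 (h j) t j')
        (fun t => ((h j).mem t).1.2) k).comp hsub hmaps
      exact h1
    · have h1 := (abelInt_cont D hs2 (fun t j' => loop_ne2 h0 (h j) t j')
        (fun t => ((h j).mem t).2.2) k).comp hsub hmaps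
      exact h1

/-- The frame is a local frame. -/
theorem isLocalFrame_Fr {ι : Type} {T : Set (Conf g)} {Y : Set (Matrix (Row g) ι ℂ)} {a : Conf g}
    (D : Loc a) {s₀ : ℂ} (h0 : s₀ ≠ 0) {γ : ι → ℝ → Pt} (h : Generates a s₀ γ)
    {O : Set (Conf g × ℂ)} (hO : IsOpen O) (hsub : O ⊆ O0 D s₀)
    (hY : ∀ p ∈ O, perMat (g := g) (Fr D s₀ γ p) ∈ Y) :
    IsLocalFrame T Y (O ∩ {p | p.1 ∈ T ∧ p.2 ≠ 0}) (Fr D s₀ γ) := by
  refine ⟨⟨O, hO, rfl⟩, ?_, ?_, fun p hp => hY p hp.1, ?_⟩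
  · intro i
    have hmono : ∀ {f : (Conf g × ℂ) × ℝ → Pt}, ContinuousOn f (O0 D s₀ ×ˢ univ) →
        ContinuousOn f ((O ∩ {p | p.1 ∈ T ∧ p.2 ≠ 0}) ×ˢ univ) := fun hf =>
      hf.mono (prod_mono (inter_subset_left.trans hsub) le_rfl)
    apply hmono
    have hrt : ContinuousOn (fun q : (Conf g × ℂ) × ℝ => rt s₀ q.1.2) (O0 D s₀ ×ˢ univ) :=
      (rt_diff h0).continuousOn.comp (by fun_prop) fun q hq => hq.1.2
    have hmaps : MapsTo (fun q : (Conf g × ℂ) × ℝ => (q.1.1 - a, q.2)) (O0 D s₀ ×ˢ univ)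
        (Dm1 D) := by
      intro q hq
      have := O0_norm hq.1
      refine ⟨?_, mem_univ _⟩
      show ‖q.1.1 - a‖ ≤ D.e
      linarith [D.e_pos]
    have hc : ContinuousOn (fun q : (Conf g × ℂ) × ℝ => (q.1.1 - a, q.2)) (O0 D s₀ ×ˢ univ) := by
      fun_prop
    have hs1 : Continuous fun t => (γ i t).1 := continuous_fst.comp (h.loop i).smooth.continuous
    have hs2 : Continuous fun t => (γ i t).2 := continuous_snd.comp (h.loop i).smooth.continuous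
    have h1 := (Tr_cont2 D hs1 fun t j => loop_ne1 (h.loop i) t j).comp hc hmaps
    have h2 := (Tr_cont2 D hs2 fun t j => loop_ne2 h0 (h.loop i) t j).comp hc hmaps
    unfold Fr scale Tr2
    refine ContinuousOn.prodMk h1 (ContinuousOn.prodMk ?_ (ContinuousOn.div ?_ hrt fun q _ =>
      rt_ne _ _))
    · exact continuous_fst.comp_continuousOn h2
    · exact continuous_snd.comp_continuousOn h2
  · rintro ⟨b, s⟩ ⟨hp, hT, hs⟩
    have hp' := hsub hp
    have h1 := generates_Tr2 D (O0_norm hp') h0 h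
    have h2 := generates_scale (rt_ne s₀ s) h1
    rw [rt_sq h0 hs] at h2
    have h3 : a + (b - a) = b := by abel
    simp only at h2
    rw [h3] at h2
    exact h2
  · intro k j
    exact (perMat_Fr_cont D h0 h.loop k j).mono (inter_subset_left.trans hsub)

/-- Every generating family of loops extends to a local frame with values in `Y = univ`. -/
theorem exists_frame_univ {ι : Type} {T : Set (Conf g)} {a : Conf g} (ha : Function.Injective a)
    (haT : a ∈ T) {s₀ : ℂ} (h0 : s₀ ≠ 0) {γ : ι → ℝ → Pt} (h : Generates a s₀ γ) :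
    ∃ (U : Set (Conf g × ℂ)) (Γ : Conf g × ℂ → ι → ℝ → Pt), (a, s₀) ∈ U ∧
      Γ (a, s₀) = γ ∧ IsLocalFrame T Set.univ U Γ := by
  obtain ⟨ρ, hρ, hsep⟩ := exists_sep a ha
  let D : Loc a := ⟨ρ, hρ, hsep⟩
  exact ⟨O0 D s₀ ∩ {p | p.1 ∈ T ∧ p.2 ≠ 0}, Fr D s₀ γ, ⟨O0_mem D h0, haT, h0⟩, Fr_self D h0 γ,
    isLocalFrame_Fr D h0 h (O0_open D s₀) le_rfl fun _ _ => mem_univ _⟩

/-- Every basis of loops extends to a local frame with values in `GL_{4g}`. -/
theorem exists_frame_GL {T : Set (Conf g)} {a : Conf g} (ha : Function.Injective a)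
    (haT : a ∈ T) {s₀ : ℂ} (h0 : s₀ ≠ 0) {γ : Row g → ℝ → Pt} (h : Generates a s₀ γ)
    (hM : perMat γ ∈ GLn g) :
    ∃ (U : Set (Conf g × ℂ)) (Γ : Conf g × ℂ → Row g → ℝ → Pt), (a, s₀) ∈ U ∧
      Γ (a, s₀) = γ ∧ IsLocalFrame T (GLn g) U Γ := by
  obtain ⟨ρ, hρ, hsep⟩ := exists_sep a ha
  let D : Loc a := ⟨ρ, hρ, hsep⟩
  have hdet : ContinuousOn (fun p => (perMat (g := g) (Fr D s₀ γ p)).det) (O0 D s₀) := by
    simp only [Matrix.det_apply]
    refine continuousOn_finsetSum _ fun σ _ => ?_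
    refine ContinuousOn.const_smul ?_ _
    exact continuousOn_finsetProd _ fun i _ => perMat_Fr_cont D h0 h.loop _ _
  have hopen : IsOpen (O0 D s₀ ∩ (fun p => (perMat (g := g) (Fr D s₀ γ p)).det) ⁻¹' {0}ᶜ) :=
    hdet.isOpen_inter_preimage (O0_open D s₀) isOpen_compl_singleton
  refine ⟨(O0 D s₀ ∩ (fun p => (perMat (g := g) (Fr D s₀ γ p)).det) ⁻¹' {0}ᶜ)
    ∩ {p | p.1 ∈ T ∧ p.2 ≠ 0}, Fr D s₀ γ, ⟨⟨O0_mem D h0, ?_⟩, haT, h0⟩, Fr_self D h0 γ,
    isLocalFrame_Fr D h0 h hopen inter_subset_left fun p hp => hp.2⟩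
  · show (perMat (g := g) (Fr D s₀ γ (a, s₀))).det ≠ 0
    rw [Fr_self D h0]
    exact hM

end

end Pool.Agent.Y327.HP
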