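import Pool.Agent.Y327.HP.Trans

/-!
# The polynomials of the Gauss-Manin connection
-/

set_option autoImplicit false

namespace Pool.Agent.Y327.HP

open Complex MeasureTheory Set Topology Polynomial

noncomputable section

variable {g : ℕ}

/-- `∏_{l ≠ j} (X - b_l)` -/
def qj (b : Conf g) (j : Fin (2 * g + 1)) : ℂ[X] := ∏ l ∈ Finset.univ.erase j, (X - C (b l))

/-- the constants -/
def gk (b : Conf g) (k : ℕ) (j : Fin (2 * g + 1)) : ℂ := -(b j) ^ k / (qj b j).eval (b j)

/-- the primitive part -/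
def Gp (b ε : Conf g) (k : ℕ) : ℂ[X] := ∑ j, C (ε j * gk b k j) * qj b j

/-- the quotient -/
def Rj (b : Conf g) (k : ℕ) (j : Fin (2 * g + 1)) : ℂ[X] :=
  (X ^ k + C (gk b k j) * qj b j) /ₘ (X - C (b j))

/-- the polynomial of the connection -/
def PM (b ε : Conf g) (k : ℕ) : ℂ[X] :=
  ∑ j, C (ε j) * (C (1 / 2) * Rj b k j - C (gk b k j / 2) * derivative (qj b j))

lemma qj_eval (b : Conf g) (j : Fin (2 * g + 1)) (x : ℂ) :
    (qj b j).eval x = ∏ l ∈ Finset.univ.erase j, (x - b l) := by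
  unfold qj
  rw [eval_prod]
  simp

lemma qj_ne {b : Conf g} (hb : Function.Injective b) (j : Fin (2 * g + 1)) :
    (qj b j).eval (b j) ≠ 0 := by
  rw [qj_eval, Finset.prod_ne_zero_iff]
  intro l hl
  exact sub_ne_zero.2 (hb.ne (Finset.mem_erase.1 hl).1.symm)

lemma prod_deriv (s : Finset (Fin (2 * g + 1))) (b : Conf g) (x : ℂ) (hx : ∀ l, x - b l ≠ 0) :
    (derivative (∏ l ∈ s, (X - C (b l)))).eval x
      = (∏ l ∈ s, (x - b l)) * ∑ l ∈ s, 1 / (x - b l) := by
  classical
  induction s using Finset.induction_on with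
  | empty => simp
  | insert i s hi ih =>
    rw [Finset.prod_insert hi, derivative_mul, eval_add, eval_mul, eval_mul, ih,
      Finset.prod_insert hi, Finset.sum_insert hi, eval_prod]
    simp only [derivative_sub, derivative_X, derivative_C, sub_zero, eval_one, eval_sub, eval_X,
      eval_C]
    have := hx i
    field_simp

lemma qj_deriv (b : Conf g) (j : Fin (2 * g + 1)) (x : ℂ) (hx : ∀ l, x - b l ≠ 0) :
    (derivative (qj b j)).eval x
      = (qj b j).eval x * ((∑ l, 1 / (x - b l)) - 1 / (x - b j)) := by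
  rw [qj_eval]
  unfold qj
  rw [prod_deriv _ b x hx]
  congr 1
  rw [← Finset.add_sum_erase Finset.univ (fun l => 1 / (x - b l)) (Finset.mem_univ j)]
  ring

lemma Rj_eval {b : Conf g} (hb : Function.Injective b) (k : ℕ) (j : Fin (2 * g + 1)) (x : ℂ) :
    (x - b j) * (Rj b k j).eval x = x ^ k + gk b k j * (qj b j).eval x := by
  have hroot : (X ^ k + C (gk b k j) * qj b j).IsRoot (b j) := by
    rw [IsRoot.def, eval_add, eval_pow, eval_X, eval_mul, eval_C]
    unfold gk
    rw [div_mul_cancel₀ _ (qj_ne hb j)]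
    ring
  have h1 := mul_divByMonic_eq_iff_isRoot.2 hroot
  have h2 := congrArg (fun p : ℂ[X] => p.eval x) h1
  simp only [eval_mul, eval_sub, eval_X, eval_C, eval_add, eval_pow] at h2
  exact h2

lemma PM_eval {b : Conf g} (hb : Function.Injective b) (ε : Conf g) (k : ℕ) {x : ℂ}
    (hx : ∀ l, x - b l ≠ 0) :
    (PM b ε k).eval x = 1 / 2 * x ^ k * (∑ j, ε j / (x - b j)) - (derivative (Gp b ε k)).eval x
      + 1 / 2 * (Gp b ε k).eval x * ∑ l, 1 / (x - b l) := by
  have h3 := fun j => qj_deriv b j x hx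
  generalize ∑ l, 1 / (x - b l) = S at h3 ⊢
  unfold PM Gp
  rw [eval_finsetSum, derivative_sum, eval_finsetSum, eval_finsetSum, Finset.mul_sum,
    Finset.mul_sum, Finset.sum_mul, ← Finset.sum_sub_distrib, ← Finset.sum_add_distrib]
  refine Finset.sum_congr rfl fun j _ => ?_
  have h1 := hx j
  have h2 : (Rj b k j).eval x = (x ^ k + gk b k j * (qj b j).eval x) / (x - b j) := by
    rw [← Rj_eval hb k j x]
    field_simp
  simp only [eval_mul, eval_sub, eval_C, derivative_mul, derivative_C, zero_mul, zero_add]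
  rw [h2, h3 j]
  field_simp
  ring

lemma qj_natDegree (b : Conf g) (j : Fin (2 * g + 1)) : (qj b j).natDegree = 2 * g := by
  unfold qj
  rw [natDegree_prod_of_monic _ _ fun l _ => monic_X_sub_C _]
  simp

lemma num_natDegree (b : Conf g) {k : ℕ} (hk : k < 2 * g) (j : Fin (2 * g + 1)) :
    (X ^ k + C (gk b k j) * qj b j).natDegree ≤ 2 * g := by
  refine (natDegree_add_le _ _).trans (max_le ?_ ?_)
  · rw [natDegree_X_pow]
    exact hk.le
  · refine (natDegree_C_mul_le _ _).trans ?_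
    rw [qj_natDegree]

lemma PM_natDegree (b ε : Conf g) {k : ℕ} (hk : k < 2 * g) : (PM b ε k).natDegree < 2 * g := by
  have h : (PM b ε k).natDegree ≤ 2 * g - 1 := by
    unfold PM
    refine natDegree_sum_le_of_forall_le _ _ fun j _ => ?_
    refine (natDegree_C_mul_le _ _).trans ((natDegree_sub_le _ _).trans (max_le ?_ ?_))
    · refine (natDegree_C_mul_le _ _).trans ?_
      unfold Rj
      rw [natDegree_divByMonic _ (monic_X_sub_C _), natDegree_X_sub_C]
      have := num_natDegree b hk j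
      omega
    · refine (natDegree_C_mul_le _ _).trans ((natDegree_derivative_le _).trans ?_)
      rw [qj_natDegree]
  omega

/-! ### continuity of the coefficients -/

/-- the coefficients are continuous on `[0, 1]` -/
def CP (P : ℝ → ℂ[X]) : Prop := ∀ n, ContinuousOn (fun τ => (P τ).coeff n) (Icc (0 : ℝ) 1)

lemma CP.const (p : ℂ[X]) : CP fun _ => p := fun _ => continuousOn_const

lemma CP.C {c : ℝ → ℂ} (hc : ContinuousOn c (Icc (0 : ℝ) 1)) : CP fun τ => C (c τ) := by
  intro n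
  simp only [coeff_C]
  by_cases h : n = 0
  · simpa [h] using hc
  · simpa [h] using continuousOn_const

lemma CP.add {P Q : ℝ → ℂ[X]} (hP : CP P) (hQ : CP Q) : CP fun τ => P τ + Q τ := by
  intro n
  simp only [coeff_add]
  exact (hP n).add (hQ n)

lemma CP.sub {P Q : ℝ → ℂ[X]} (hP : CP P) (hQ : CP Q) : CP fun τ => P τ - Q τ := by
  intro n
  simp only [coeff_sub]
  exact (hP n).sub (hQ n)

lemma CP.mul {P Q : ℝ → ℂ[X]} (hP : CP P) (hQ : CP Q) : CP fun τ => P τ * Q τ := by
  intro n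
  simp only [coeff_mul]
  exact continuousOn_finsetSum _ fun i _ => (hP _).mul (hQ _)

lemma CP.sum {ι : Type*} (s : Finset ι) {P : ι → ℝ → ℂ[X]} (hP : ∀ i ∈ s, CP (P i)) :
    CP fun τ => ∑ i ∈ s, P i τ := by
  intro n
  simp only [finsetSum_coeff]
  exact continuousOn_finsetSum _ fun i hi => hP i hi n

lemma CP.prod {ι : Type*} (s : Finset ι) {P : ι → ℝ → ℂ[X]} (hP : ∀ i ∈ s, CP (P i)) :
    CP fun τ => ∏ i ∈ s, P i τ := by
  classical
  induction s using Finset.induction_on with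
  | empty =>
    simp only [Finset.prod_empty]
    exact CP.const 1
  | insert i s hi ih =>
    simp only [Finset.prod_insert hi]
    exact (hP i (Finset.mem_insert_self _ _)).mul
      (ih fun j hj => hP j (Finset.mem_insert_of_mem hj))

lemma CP.derivative {P : ℝ → ℂ[X]} (hP : CP P) : CP fun τ => derivative (P τ) := by
  intro n
  simp only [coeff_derivative]
  exact (hP _).mul continuousOn_const

lemma CP.divX {P : ℝ → ℂ[X]} (hP : CP P) {c : ℝ → ℂ} (hc : ContinuousOn c (Icc (0 : ℝ) 1))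
    (M : ℕ) (hM : ∀ τ, (P τ).natDegree ≤ M) :
    CP fun τ => P τ /ₘ (X - Polynomial.C (c τ)) := by
  intro n
  have h : ∀ τ, (P τ /ₘ (X - Polynomial.C (c τ))).coeff n
      = ∑ i ∈ Finset.Icc (n + 1) M, c τ ^ (i - (n + 1)) * (P τ).coeff i := by
    intro τ
    rw [coeff_divByMonic_X_sub_C]
    refine Finset.sum_subset (Finset.Icc_subset_Icc le_rfl (hM τ)) ?_
    intro i hi hni
    rw [Finset.mem_Icc] at hi hni
    rw [coeff_eq_zero_of_natDegree_lt (by omega), mul_zero]
  simp only [h]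
  exact continuousOn_finsetSum _ fun i _ => (hc.pow _).mul (hP _)

lemma PM_cont {a ε : Conf g} (hinj : ∀ τ ∈ Icc (0 : ℝ) 1, Function.Injective (a + τ • ε)) {k : ℕ}
    (hk : k < 2 * g) : CP fun τ => PM (a + τ • ε) ε k := by
  have hb : ∀ l, ContinuousOn (fun τ : ℝ => (a + τ • ε) l) (Icc (0 : ℝ) 1) := by
    intro l
    simp only [Pi.add_apply, Pi.smul_apply]
    fun_prop
  have hq : ∀ j, CP fun τ => qj (a + τ • ε) j := by
    intro j
    unfold qj
    exact CP.prod _ fun l _ => (CP.const X).sub (CP.C (hb l))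
  have hqe : ∀ j, ContinuousOn (fun τ : ℝ => (qj (a + τ • ε) j).eval ((a + τ • ε) j))
      (Icc (0 : ℝ) 1) := by
    intro j
    simp only [qj_eval]
    exact continuousOn_finsetProd _ fun l _ => (hb j).sub (hb l)
  have hg : ∀ j, ContinuousOn (fun τ : ℝ => gk (a + τ • ε) k j) (Icc (0 : ℝ) 1) := by
    intro j
    unfold gk
    exact ((hb j).pow k).neg.div (hqe j) fun τ hτ => qj_ne (hinj τ hτ) j
  unfold PM
  refine CP.sum _ fun j _ => (CP.const _).mul (CP.sub ?_ ?_)
  · refine (CP.const _).mul ?_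
    unfold Rj
    exact CP.divX ((CP.const _).add ((CP.C (hg j)).mul (hq j))) (hb j) (2 * g)
      fun τ => num_natDegree _ hk j
  · exact (CP.C ((hg j).div_const 2)).mul (hq j).derivative

/-- a uniform bound of the coefficients -/
lemma PM_bound {a ε : Conf g} (hinj : ∀ τ ∈ Icc (0 : ℝ) 1, Function.Injective (a + τ • ε)) :
    ∃ B : ℝ, 0 ≤ B ∧ ∀ k < 2 * g, ∀ l < 2 * g, ∀ τ ∈ Icc (0 : ℝ) 1,
      ‖(PM (a + τ • ε) ε k).coeff l‖ ≤ B := by
  have h : ∀ k l, k < 2 * g → ∃ B : ℝ, ∀ τ ∈ Icc (0 : ℝ) 1,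
      ‖(PM (a + τ • ε) ε k).coeff l‖ ≤ B := fun k l hk =>
    isCompact_Icc.exists_bound_of_continuousOn (PM_cont hinj hk l)
  choose! B hB using h
  refine ⟨∑ k ∈ Finset.range (2 * g), ∑ l ∈ Finset.range (2 * g), |B k l|,
    Finset.sum_nonneg fun k _ => Finset.sum_nonneg fun l _ => abs_nonneg _, ?_⟩
  intro k hk l hl τ hτ
  refine (hB k l hk τ hτ).trans ((le_abs_self _).trans ?_)
  refine le_trans ?_ (Finset.single_le_sum (f := fun k => ∑ l ∈ Finset.range (2 * g), |B k l|)
    (fun k _ => Finset.sum_nonneg fun l _ => abs_nonneg _) (Finset.mem_range.2 hk))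
  exact Finset.single_le_sum (f := fun l => |B k l|) (fun l _ => abs_nonneg _)
    (Finset.mem_range.2 hl)

end

end Pool.Agent.Y327.HP
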