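import Pool.Agent.Y327.HP.Defs

/-!
# Every hyperelliptic curve has a loop with a nonzero period
-/

set_option autoImplicit false

namespace Pool.Agent.Y327.HP

open Complex MeasureTheory Set

noncomputable section

variable {g : ℕ}

/-- two of the points such that the segment between them contains no third one -/
lemma exists_pair (hg : 1 ≤ g) (a : Conf g) (ha : Function.Injective a) :
    ∃ i j : Fin (2 * g + 1), i ≠ j ∧ ∀ l, l ≠ i → l ≠ j → ∀ u ∈ Icc (0 : ℝ) 1,
      a i + (u : ℂ) * (a j - a i) ≠ a l := by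
  classical
  let i : Fin (2 * g + 1) := ⟨0, by omega⟩
  have hne : (Finset.univ.erase i : Finset (Fin (2 * g + 1))).Nonempty :=
    ⟨⟨1, by omega⟩, by simp [i]⟩
  obtain ⟨j, hj, hmin⟩ := Finset.exists_min_image (Finset.univ.erase i) (fun l => ‖a l - a i‖) hne
  have hji : j ≠ i := (Finset.mem_erase.1 hj).1
  refine ⟨i, j, hji.symm, ?_⟩
  intro l hli hlj u hu h
  have h1 := hmin l (Finset.mem_erase.2 ⟨hli, Finset.mem_univ _⟩)
  have h2 : a l - a i = (u : ℂ) * (a j - a i) := by rw [← h]; ring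
  have h3 : 0 < ‖a j - a i‖ := norm_pos_iff.2 (sub_ne_zero.2 (ha.ne hji))
  rw [h2, norm_mul, Complex.norm_real, Real.norm_eq_abs, abs_of_nonneg hu.1] at h1
  have h4 : u = 1 := by
    apply le_antisymm hu.2
    by_contra hcon
    rw [not_le] at hcon
    nlinarith
  rw [h4, ofReal_one, one_mul] at h2
  apply hlj
  apply ha
  linear_combination h2

/-- the data of the explicit loop -/
structure Dat (a : Conf g) where
  i : Fin (2 * g + 1)
  j : Fin (2 * g + 1)
  hij : i ≠ j
  ha : Function.Injective a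
  seg : ∀ l, l ≠ i → l ≠ j → ∀ u ∈ Icc (0 : ℝ) 1, a i + (u : ℂ) * (a j - a i) ≠ a l

namespace Dat

variable {a : Conf g} (D : Dat a)

/-- difference of the two points -/
def d : ℂ := a D.j - a D.i

lemma d_ne : D.d ≠ 0 := sub_ne_zero.2 (D.ha.ne D.hij.symm)

/-- the other indices -/
def L : Finset (Fin (2 * g + 1)) := (Finset.univ.erase D.i).erase D.j

lemma mem_L {l : Fin (2 * g + 1)} (h : l ∈ D.L) : l ≠ D.i ∧ l ≠ D.j := by
  unfold L at h
  rw [Finset.mem_erase, Finset.mem_erase] at h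
  exact ⟨h.2.1, h.1⟩

lemma prod_split (F : Fin (2 * g + 1) → ℂ) :
    ∏ l, F l = F D.i * (F D.j * ∏ l ∈ D.L, F l) := by
  unfold L
  rw [Finset.mul_prod_erase, Finset.mul_prod_erase]
  · exact Finset.mem_univ _
  · exact Finset.mem_erase.2 ⟨D.hij.symm, Finset.mem_univ _⟩

/-- the ratios -/
def z (l : Fin (2 * g + 1)) : ℂ := D.d / (a D.i - a l)

lemma slit {l : Fin (2 * g + 1)} (h : l ∈ D.L) {u : ℝ} (hu : u ∈ Icc (0 : ℝ) 1) :
    1 + (u : ℂ) * D.z l ∈ slitPlane := by
  have hl := D.mem_L h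
  have hne : a D.i - a l ≠ 0 := sub_ne_zero.2 (D.ha.ne hl.1.symm)
  rw [mem_slitPlane_iff]
  by_contra hcon
  rw [not_or, not_lt, not_not] at hcon
  obtain ⟨h1, h2⟩ := hcon
  simp only [add_re, one_re, mul_re, ofReal_re, ofReal_im, zero_mul, sub_zero, add_im, one_im,
    mul_im, add_zero, zero_add] at h1 h2
  -- so `u > 0` and `z` is real
  have hu0 : 0 < u := by
    rcases hu.1.eq_or_lt with h0 | h0
    · rw [← h0] at h1
      norm_num at h1
    · exact h0
  have hz2 : (D.z l).im = 0 := by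
    rcases mul_eq_zero.1 h2 with h3 | h3
    · exact absurd h3 hu0.ne'
    · exact h3
  have hz : D.z l = ((D.z l).re : ℂ) := by
    apply Complex.ext <;> simp [hz2]
  set r := (D.z l).re with hr
  have hrneg : u * r ≤ -1 := by linarith
  have hr0 : r < 0 := by nlinarith
  have hr1 : r ≤ -1 := by nlinarith [hu.2]
  set v : ℝ := -1 / r with hv
  have hv0 : v ∈ Icc (0 : ℝ) 1 := by
    constructor
    · exact (div_pos_of_neg_of_neg (by norm_num) hr0).le
    · rw [hv, div_le_one_of_neg hr0]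
      exact hr1
  apply D.seg l hl.1 hl.2 v hv0
  have h5 : D.d = (r : ℂ) * (a D.i - a l) := by
    rw [← hz]
    unfold z
    field_simp
  show a D.i + (v : ℂ) * D.d = a l
  rw [h5, hv]
  push_cast
  have hrc : (r : ℂ) ≠ 0 := by exact_mod_cast hr0.ne
  field_simp
  ring

/-- a square root of the constant factor -/
def c₀ : ℂ := (IsAlgClosed.exists_pow_nat_eq (-∏ l ∈ D.L, (a D.i - a l)) (n := 2)
  (by norm_num)).choose

lemma c₀_sq : D.c₀ ^ 2 = -∏ l ∈ D.L, (a D.i - a l) :=
  (IsAlgClosed.exists_pow_nat_eq (-∏ l ∈ D.L, (a D.i - a l)) (n := 2)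
    (by norm_num)).choose_spec

lemma c₀_ne : D.c₀ ≠ 0 := by
  intro h
  have h1 := D.c₀_sq
  rw [h, zero_pow two_ne_zero] at h1
  have h2 : ∏ l ∈ D.L, (a D.i - a l) ≠ 0 := by
    rw [Finset.prod_ne_zero_iff]
    intro l hl
    exact sub_ne_zero.2 (D.ha.ne (D.mem_L hl).1.symm)
  apply h2
  linear_combination h1

/-- the square root as a function of `u` -/
def q (u : ℝ) : ℂ := D.c₀ * ∏ l ∈ D.L, exp (log (1 + (u : ℂ) * D.z l) / 2)

lemma q_ne (u : ℝ) : D.q u ≠ 0 := by
  unfold q
  refine mul_ne_zero D.c₀_ne ?_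
  rw [Finset.prod_ne_zero_iff]
  intro l _
  exact exp_ne_zero _

lemma q_sq {u : ℝ} (hu : u ∈ Icc (0 : ℝ) 1) :
    D.q u ^ 2 = -∏ l ∈ D.L, (a D.i + (u : ℂ) * D.d - a l) := by
  unfold q
  rw [mul_pow, D.c₀_sq, ← Finset.prod_pow, neg_mul, ← Finset.prod_mul_distrib]
  congr 1
  refine Finset.prod_congr rfl fun l hl => ?_
  have h1 : 1 + (u : ℂ) * D.z l ≠ 0 := slitPlane_ne_zero (D.slit hl hu)
  have hne : a D.i - a l ≠ 0 := sub_ne_zero.2 (D.ha.ne (D.mem_L hl).1.symm)
  rw [← exp_nat_mul]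
  have e : ((2 : ℕ) : ℂ) * (log (1 + (u : ℂ) * D.z l) / 2) = log (1 + (u : ℂ) * D.z l) := by
    push_cast
    ring
  rw [e, exp_log h1]
  unfold z
  field_simp
  ring

/-- the parameter `u = sin²` -/
def U (t : ℝ) : ℝ := Real.sin (Real.pi * t) ^ 2

lemma U_mem (t : ℝ) : U t ∈ Icc (0 : ℝ) 1 :=
  ⟨sq_nonneg _, Real.sin_sq_le_one _⟩

lemma U_smooth : ContDiff ℝ (⊤ : ℕ∞) U := by
  unfold U
  fun_prop

lemma U_per (t : ℝ) : U (t + 1) = U t := by
  unfold U
  rw [mul_add, mul_one, Real.sin_add_pi, neg_sq]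

lemma q_smooth : ContDiff ℝ (⊤ : ℕ∞) fun t => D.q (U t) := by
  unfold q
  refine contDiff_const.mul (contDiff_prod fun l hl => ?_)
  refine (ContDiff.div_const ?_ 2).cexp
  rw [contDiff_iff_contDiffAt]
  intro t
  have h1 : ContDiffAt ℝ (⊤ : ℕ∞) log (1 + (U t : ℂ) * D.z l) :=
    (contDiffAt_log (D.slit hl (U_mem t))).restrict_scalars ℝ
  have h2 : ContDiffAt ℝ (⊤ : ℕ∞) (fun t => 1 + (U t : ℂ) * D.z l) t := by
    refine contDiffAt_const.add (ContDiffAt.mul ?_ contDiffAt_const)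
    exact (ofRealCLM.contDiff.comp U_smooth).contDiffAt
  exact h1.comp t h2

/-- the explicit loop, first coordinate -/
def X (t : ℝ) : ℂ := a D.i + (U t : ℂ) * D.d

/-- the explicit loop, second coordinate -/
def Y (t : ℝ) : ℂ :=
  D.d * ((Real.sin (Real.pi * t) * Real.cos (Real.pi * t) : ℝ) : ℂ) * D.q (U t)

lemma X_smooth : ContDiff ℝ (⊤ : ℕ∞) D.X := by
  unfold X
  exact contDiff_const.add ((ofRealCLM.contDiff.comp U_smooth).mul contDiff_const)

lemma Y_smooth : ContDiff ℝ (⊤ : ℕ∞) D.Y := by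
  unfold Y
  refine (contDiff_const.mul (ofRealCLM.contDiff.comp ?_)).mul D.q_smooth
  have h : ContDiff ℝ (⊤ : ℕ∞) fun t : ℝ => Real.pi * t := contDiff_const.mul contDiff_id
  exact (Real.contDiff_sin.comp h).mul (Real.contDiff_cos.comp h)

lemma curve (t : ℝ) : D.Y t ^ 2 = pol a (D.X t) := by
  unfold Y pol
  rw [D.prod_split, mul_pow, mul_pow, D.q_sq (U_mem t)]
  have h1 : D.X t - a D.i = (U t : ℂ) * D.d := by unfold X; ring
  have h2 : D.X t - a D.j = -((Real.cos (Real.pi * t) ^ 2 : ℝ) : ℂ) * D.d := by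
    have : D.X t - a D.j = ((U t : ℂ) - 1) * D.d := by unfold X d; ring
    rw [this]
    unfold U
    have h3 := Real.sin_sq_add_cos_sq (Real.pi * t)
    have h4 : Real.sin (Real.pi * t) ^ 2 - 1 = -Real.cos (Real.pi * t) ^ 2 := by linarith
    have h5 : (((Real.sin (Real.pi * t) ^ 2 : ℝ) : ℂ) - 1)
        = ((Real.sin (Real.pi * t) ^ 2 - 1 : ℝ) : ℂ) := by push_cast; ring
    rw [h5, h4]
    push_cast
    ring
  have h3 : ∏ l ∈ D.L, (D.X t - a l) = ∏ l ∈ D.L, (a D.i + (U t : ℂ) * D.d - a l) := rfl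
  rw [h1, h2, h3]
  generalize ∏ l ∈ D.L, (a D.i + (U t : ℂ) * D.d - a l) = Q
  unfold U
  push_cast
  ring

lemma X_per (t : ℝ) : D.X (t + 1) = D.X t := by
  unfold X
  rw [U_per]

lemma Y_per (t : ℝ) : D.Y (t + 1) = D.Y t := by
  unfold Y
  rw [U_per, mul_add, mul_one, Real.sin_add_pi, Real.cos_add_pi, neg_mul_neg]

lemma U_deriv (t : ℝ) : HasDerivAt U
    (2 * Real.pi * (Real.sin (Real.pi * t) * Real.cos (Real.pi * t))) t := by
  unfold U
  have h1 : HasDerivAt (fun u : ℝ => Real.pi * u) (Real.pi) t := by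
    simpa using (hasDerivAt_id t).const_mul Real.pi
  refine ((h1.sin.pow 2).congr_deriv ?_)
  simp only [Nat.cast_ofNat]
  ring

lemma X_deriv (t : ℝ) : HasDerivAt D.X
    (((2 * Real.pi * (Real.sin (Real.pi * t) * Real.cos (Real.pi * t)) : ℝ) : ℂ) * D.d) t := by
  unfold X
  exact ((U_deriv t).ofReal_comp.mul_const D.d).const_add _

/-- `w = 2π / q`, the value of `dx / y` -/
def w (t : ℝ) : ℂ := 2 * Real.pi / D.q (U t)

lemma w_cont : Continuous D.w := by
  unfold w
  exact continuous_const.div D.q_smooth.continuous fun t => D.q_ne _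

/-- almost all parameters are good -/
lemma good_ae : ∀ᵐ t : ℝ ∂volume, t ∈ Set.uIoc (0 : ℝ) 1 →
    Real.sin (Real.pi * t) ≠ 0 ∧ Real.cos (Real.pi * t) ≠ 0 := by
  have h0 : ∀ᵐ t : ℝ ∂volume, t ∉ ({1 / 2, 1} : Set ℝ) :=
    (Set.toFinite ({1 / 2, 1} : Set ℝ)).countable.ae_notMem _
  filter_upwards [h0] with t ht hmem
  rw [Set.uIoc_of_le zero_le_one] at hmem
  simp only [Set.mem_insert_iff, Set.mem_singleton_iff, not_or] at ht
  have hpi := Real.pi_pos
  constructor
  · apply ne_of_gt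
    apply Real.sin_pos_of_pos_of_lt_pi
    · have := hmem.1
      positivity
    · have h1 : t < 1 := lt_of_le_of_ne hmem.2 ht.2
      nlinarith
  · rcases lt_or_gt_of_ne ht.1 with h | h
    · apply ne_of_gt
      apply Real.cos_pos_of_mem_Ioo
      constructor
      · have := hmem.1
        nlinarith
      · nlinarith
    · apply ne_of_lt
      apply Real.cos_neg_of_pi_div_two_lt_of_lt
      · nlinarith
      · have := hmem.2
        nlinarith

/-- the integral of `p(x) dx / y` over the loop -/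
def J (p : Polynomial ℂ) : ℂ := ∫ t in (0 : ℝ)..1, p.eval (D.X t) * D.w t

lemma J_int (p : Polynomial ℂ) :
    IntervalIntegrable (fun t => p.eval (D.X t) * D.w t) volume 0 1 :=
  ((p.continuous.comp D.X_smooth.continuous).mul D.w_cont).intervalIntegrable _ _

lemma J_add (p r : Polynomial ℂ) : D.J (p + r) = D.J p + D.J r := by
  unfold J
  rw [← intervalIntegral.integral_add (D.J_int p) (D.J_int r)]
  congr 1
  funext t
  rw [Polynomial.eval_add]
  ring

lemma J_C_mul (c : ℂ) (p : Polynomial ℂ) : D.J (Polynomial.C c * p) = c * D.J p := by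
  unfold J
  rw [← intervalIntegral.integral_const_mul]
  congr 1
  funext t
  rw [Polynomial.eval_mul, Polynomial.eval_C]
  ring

lemma abelInt_eq (k : ℕ) : abelInt k (fun t => (D.X t, D.Y t)) = D.J (Polynomial.X ^ k) := by
  unfold abelInt J
  apply intervalIntegral.integral_congr_ae
  filter_upwards [good_ae] with t ht hmem
  obtain ⟨hS, hC⟩ := ht hmem
  have hd : deriv (fun u => ((fun t => (D.X t, D.Y t)) u).1) t = _ := (D.X_deriv t).deriv
  rw [hd]
  simp only [Polynomial.eval_pow, Polynomial.eval_X]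
  unfold Y w
  have h1 := D.q_ne (U t)
  have h2 := D.d_ne
  have hS' : ((Real.sin (Real.pi * t) : ℝ) : ℂ) ≠ 0 := by exact_mod_cast hS
  have hC' : ((Real.cos (Real.pi * t) : ℝ) : ℂ) ≠ 0 := by exact_mod_cast hC
  push_cast at hS' hC' ⊢
  field_simp

/-- the polynomial `∏ (X - a_i)` -/
def f (_ : Dat a) : Polynomial ℂ := ∏ l, (Polynomial.X - Polynomial.C (a l))

lemma f_eval (x : ℂ) : D.f.eval x = pol a x := by
  unfold f pol
  rw [Polynomial.eval_prod]
  simp

/-- exact forms have no period -/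
lemma J_exact (n : ℕ) : D.J (Polynomial.C (n : ℂ) * (Polynomial.X ^ (n - 1) * D.f)
    + Polynomial.C (1 / 2) * (Polynomial.X ^ n * Polynomial.derivative D.f)) = 0 := by
  have hsm : ContDiff ℝ (⊤ : ℕ∞) fun t => D.X t ^ n * D.Y t := (D.X_smooth.pow n).mul D.Y_smooth
  have hdiff : ∀ t, DifferentiableAt ℝ (fun t => D.X t ^ n * D.Y t) t := fun t =>
    (hsm.differentiable (by simp)) t
  have hcont : Continuous (deriv fun t => D.X t ^ n * D.Y t) :=
    hsm.continuous_deriv (by simp)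
  have h1 : ∫ t in (0 : ℝ)..1, deriv (fun t => D.X t ^ n * D.Y t) t = 0 := by
    rw [intervalIntegral.integral_deriv_eq_sub (fun t _ => hdiff t)
      (hcont.intervalIntegrable _ _)]
    have h2 := D.X_per 0
    have h3 := D.Y_per 0
    rw [zero_add] at h2 h3
    rw [h2, h3, sub_self]
  rw [← h1]
  unfold J
  apply intervalIntegral.integral_congr_ae
  filter_upwards [good_ae] with t ht hmem
  obtain ⟨hS, hC⟩ := ht hmem
  have hS' : ((Real.sin (Real.pi * t) : ℝ) : ℂ) ≠ 0 := by exact_mod_cast hS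
  have hC' : ((Real.cos (Real.pi * t) : ℝ) : ℂ) ≠ 0 := by exact_mod_cast hC
  have hq := D.q_ne (U t)
  have hd0 := D.d_ne
  -- the derivatives
  have hXd := D.X_deriv t
  obtain ⟨y', hYd⟩ : ∃ y', HasDerivAt D.Y y' t :=
    ⟨_, ((D.Y_smooth.differentiable (by simp)) t).hasDerivAt⟩
  set x' : ℂ := ((2 * Real.pi * (Real.sin (Real.pi * t) * Real.cos (Real.pi * t)) : ℝ) : ℂ) * D.d
    with hx'
  -- differentiate the equation of the curve
  have e1 : HasDerivAt (fun t => D.Y t ^ 2) (2 * D.Y t * y') t := by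
    have := hYd.pow 2
    refine this.congr_deriv ?_
    simp
  have e2 : HasDerivAt (fun t => D.f.eval (D.X t)) (D.f.derivative.eval (D.X t) * x') t :=
    (D.f.hasDerivAt (D.X t)).comp_of_eq t hXd rfl
  have e3 : 2 * D.Y t * y' = D.f.derivative.eval (D.X t) * x' := by
    have h4 : (fun t => D.Y t ^ 2) = fun t => D.f.eval (D.X t) := by
      funext t
      rw [D.curve, D.f_eval]
    rw [h4] at e1
    exact e1.unique e2
  have hw : x' = D.Y t * D.w t := by
    rw [hx']
    unfold Y w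
    push_cast
    field_simp
  have hY0 : D.Y t ≠ 0 := by
    unfold Y
    refine mul_ne_zero (mul_ne_zero hd0 ?_) hq
    push_cast at hS' hC' ⊢
    exact mul_ne_zero hS' hC'
  have hy' : y' = 1 / 2 * (D.f.derivative.eval (D.X t) * D.w t) := by
    have h5 : 2 * D.Y t * y' = 2 * D.Y t * (1 / 2 * (D.f.derivative.eval (D.X t) * D.w t)) := by
      rw [e3, hw]
      ring
    exact mul_left_cancel₀ (mul_ne_zero two_ne_zero hY0) h5
  have hder : HasDerivAt (fun t => D.X t ^ n * D.Y t)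
      ((n : ℂ) * D.X t ^ (n - 1) * x' * D.Y t + D.X t ^ n * y') t := (hXd.pow n).mul hYd
  rw [hder.deriv]
  simp only [Polynomial.eval_add, Polynomial.eval_mul, Polynomial.eval_C, Polynomial.eval_pow,
    Polynomial.eval_X]
  have hfy : D.f.eval (D.X t) = D.Y t ^ 2 := by rw [D.curve, D.f_eval]
  rw [hfy, hy', hw]
  ring

lemma f_monic : D.f.Monic := Polynomial.monic_prod_of_monic _ _ fun _ _ => Polynomial.monic_X_sub_C _

lemma f_natDegree : D.f.natDegree = 2 * g + 1 := by
  unfold f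
  rw [Polynomial.natDegree_prod_of_monic _ _ fun _ _ => Polynomial.monic_X_sub_C _]
  simp

/-- if the first `2g` integrals vanish, all do -/
lemma J_all (h : ∀ k, k < 2 * g → D.J (Polynomial.X ^ k) = 0) (p : Polynomial ℂ) : D.J p = 0 := by
  have key : ∀ n : ℕ, ∀ p : Polynomial ℂ, (∀ m, n ≤ m → p.coeff m = 0) → D.J p = 0 := by
    intro n
    induction n with
    | zero =>
      intro p hp
      have : p = 0 := by
        ext m
        rw [hp m (Nat.zero_le _), Polynomial.coeff_zero]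
      rw [this]
      simp [J]
    | succ n ih =>
      intro p hp
      have hXn : D.J (Polynomial.X ^ n) = 0 := by
        by_cases hn : n < 2 * g
        · exact h n hn
        · -- reduce by an exact form
          obtain ⟨j, rfl⟩ : ∃ j, n = j + 2 * g := ⟨n - 2 * g, by omega⟩
          set R : Polynomial ℂ := Polynomial.C (j : ℂ) * (Polynomial.X ^ (j - 1) * D.f)
            + Polynomial.C (1 / 2) * (Polynomial.X ^ j * Polynomial.derivative D.f) with hR
          set lc : ℂ := (j : ℂ) + 1 / 2 * (2 * g + 1) with hlc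
          have hlc0 : lc ≠ 0 := by
            have : lc = (((j : ℝ) + 1 / 2 * (2 * g + 1) : ℝ) : ℂ) := by
              rw [hlc]; push_cast; ring
            rw [this, Complex.ofReal_ne_zero]
            positivity
          have hc1 : ∀ m, j + 2 * g ≤ m →
              (R - Polynomial.C lc * Polynomial.X ^ (j + 2 * g)).coeff m = 0 := by
            intro m hm
            have hfc : ∀ k, 2 * g + 1 < k → D.f.coeff k = 0 := fun k hk =>
              Polynomial.coeff_eq_zero_of_natDegree_lt (by rw [D.f_natDegree]; exact hk)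
            have hf1 : D.f.coeff (2 * g + 1) = 1 := by
              have := D.f_monic.coeff_natDegree
              rwa [D.f_natDegree] at this
            rw [hR, Polynomial.coeff_sub, Polynomial.coeff_add, Polynomial.coeff_C_mul,
              Polynomial.coeff_C_mul, Polynomial.coeff_C_mul, Polynomial.coeff_X_pow]
            have t2 : (Polynomial.X ^ j * Polynomial.derivative D.f).coeff m
                = D.f.coeff (m - j + 1) * ((m - j : ℕ) + 1) := by
              rw [Polynomial.coeff_X_pow_mul', if_pos (by omega), Polynomial.coeff_derivative]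
            have t1 : (j : ℂ) * (Polynomial.X ^ (j - 1) * D.f).coeff m
                = (j : ℂ) * D.f.coeff (m - j + 1) := by
              rcases Nat.eq_zero_or_pos j with hj | hj
              · simp [hj]
              · rw [Polynomial.coeff_X_pow_mul', if_pos (by omega)]
                congr 2
                omega
            rw [t1, t2]
            rcases hm.eq_or_lt with hm | hm
            · rw [if_pos hm.symm]
              have e1 : m - j + 1 = 2 * g + 1 := by omega
              have e2 : m - j = 2 * g := by omega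
              rw [e1, hf1, e2, hlc]
              push_cast
              ring
            · rw [if_neg (by omega), hfc (m - j + 1) (by omega)]
              ring
          have h2 := ih _ hc1
          have h3 := D.J_exact j
          rw [← hR] at h3
          have h4 : D.J R = D.J (R - Polynomial.C lc * Polynomial.X ^ (j + 2 * g))
              + lc * D.J (Polynomial.X ^ (j + 2 * g)) := by
            rw [← D.J_C_mul, ← D.J_add]
            congr 1
            ring
          rw [h3, h2, zero_add] at h4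
          exact (mul_eq_zero.1 h4.symm).resolve_left hlc0
      have h5 : D.J p = D.J (p - Polynomial.C (p.coeff n) * Polynomial.X ^ n)
          + p.coeff n * D.J (Polynomial.X ^ n) := by
        rw [← D.J_C_mul, ← D.J_add]
        congr 1
        ring
      rw [h5, hXn, mul_zero, add_zero]
      apply ih
      intro m hm
      rw [Polynomial.coeff_sub, Polynomial.coeff_C_mul, Polynomial.coeff_X_pow]
      rcases hm.eq_or_lt with hm | hm
      · rw [if_pos hm.symm, hm]; ring
      · rw [if_neg (by omega), hp m (by omega)]; ring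
  exact key (p.natDegree + 1) p fun m hm => Polynomial.coeff_eq_zero_of_natDegree_lt (by omega)

lemma q_contOn : ContinuousOn D.q (Icc (0 : ℝ) 1) := by
  unfold q
  refine continuousOn_const.mul (continuousOn_finsetProd _ fun l hl => ?_)
  refine ContinuousOn.cexp (ContinuousOn.div_const ?_ 2)
  refine ContinuousOn.clog ?_ fun u hu => D.slit hl hu
  fun_prop

/-- some period is nonzero -/
lemma exists_ne : ∃ k, k < 2 * g ∧ D.J (Polynomial.X ^ k) ≠ 0 := by
  by_contra hcon
  push Not at hcon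
  have hall := D.J_all hcon
  -- the conjugate of `1 / q`
  set h : ℝ → ℂ := fun u => (starRingEnd ℂ) (1 / D.q u) with hh
  have hc : ContinuousOn (fun u => 1 / D.q u) (Icc (0 : ℝ) 1) :=
    continuousOn_const.div D.q_contOn fun u _ => D.q_ne u
  have hhc : ContinuousOn h (Icc (0 : ℝ) 1) := continuous_conj.comp_continuousOn hc
  obtain ⟨B, hB⟩ := isCompact_Icc.exists_bound_of_continuousOn hc
  have hB0 : 0 < B := by
    have h1 := hB 0 ⟨le_rfl, zero_le_one⟩
    have h2 : 0 < ‖1 / D.q 0‖ := norm_pos_iff.2 (div_ne_zero one_ne_zero (D.q_ne 0))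
    linarith
  -- the positive integral
  set A : ℝ := ∫ t in (0 : ℝ)..1, 2 * Real.pi * ‖1 / D.q (U t)‖ ^ 2 with hA
  have hqc : Continuous fun t => D.q (U t) := D.q_smooth.continuous
  have hAc : Continuous fun t => 2 * Real.pi * ‖1 / D.q (U t)‖ ^ 2 := by
    refine continuous_const.mul (Continuous.pow (Continuous.norm ?_) 2)
    exact continuous_const.div hqc fun t => D.q_ne _
  have hApos : 0 < A := by
    apply intervalIntegral.intervalIntegral_pos_of_pos_on (hAc.intervalIntegrable _ _) _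
      zero_lt_one
    intro t _
    have h1 : 0 < ‖1 / D.q (U t)‖ := norm_pos_iff.2 (div_ne_zero one_ne_zero (D.q_ne _))
    have := Real.pi_pos
    positivity
  set ε : ℝ := A / (8 * Real.pi * B) with hε
  have hpi := Real.pi_pos
  have hε0 : 0 < ε := by positivity
  obtain ⟨P1, hP1⟩ := exists_polynomial_near_of_continuousOn 0 1 (fun u => (h u).re)
    (continuous_re.comp_continuousOn hhc) ε hε0
  obtain ⟨P2, hP2⟩ := exists_polynomial_near_of_continuousOn 0 1 (fun u => (h u).im)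
    (continuous_im.comp_continuousOn hhc) ε hε0
  set p : Polynomial ℂ := (P1.map (algebraMap ℝ ℂ) + Polynomial.C I * P2.map (algebraMap ℝ ℂ)).comp
    ((Polynomial.X - Polynomial.C (a D.i)) * Polynomial.C (1 / D.d)) with hp
  have hpe : ∀ t, p.eval (D.X t) = ((P1.eval (U t) : ℝ) : ℂ) + I * ((P2.eval (U t) : ℝ) : ℂ) := by
    intro t
    have h1 : ((Polynomial.X - Polynomial.C (a D.i)) * Polynomial.C (1 / D.d)).eval (D.X t)
        = (U t : ℂ) := by
      simp only [Polynomial.eval_mul, Polynomial.eval_sub, Polynomial.eval_X, Polynomial.eval_C]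
      unfold X
      have := D.d_ne
      field_simp
      ring
    have h2 : ∀ P : Polynomial ℝ, (P.map (algebraMap ℝ ℂ)).eval (U t : ℂ)
        = ((P.eval (U t) : ℝ) : ℂ) := by
      intro P
      rw [Polynomial.eval_map]
      exact (Polynomial.eval₂_at_apply (algebraMap ℝ ℂ) (U t))
    rw [hp, Polynomial.eval_comp, h1, Polynomial.eval_add, Polynomial.eval_mul,
      Polynomial.eval_C, h2, h2]
  have hnear : ∀ t, ‖h (U t) - p.eval (D.X t)‖ ≤ 2 * ε := by
    intro t
    rw [hpe]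
    have h1 := hP1 (U t) (U_mem t)
    have h2 := hP2 (U t) (U_mem t)
    refine (Complex.norm_le_abs_re_add_abs_im _).trans ?_
    have e1 : (h (U t) - (((P1.eval (U t) : ℝ) : ℂ) + I * ((P2.eval (U t) : ℝ) : ℂ))).re
        = (h (U t)).re - P1.eval (U t) := by simp
    have e2 : (h (U t) - (((P1.eval (U t) : ℝ) : ℂ) + I * ((P2.eval (U t) : ℝ) : ℂ))).im
        = (h (U t)).im - P2.eval (U t) := by simp
    rw [e1, e2, abs_sub_comm, abs_sub_comm (h (U t)).im]
    linarith
  have hzero := hall p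
  unfold J at hzero
  have hmain : (A : ℂ) = ∫ t in (0 : ℝ)..1, (h (U t) - p.eval (D.X t)) * D.w t := by
    have h1 : ∫ t in (0 : ℝ)..1, (h (U t) - p.eval (D.X t)) * D.w t
        = (∫ t in (0 : ℝ)..1, h (U t) * D.w t) - ∫ t in (0 : ℝ)..1, p.eval (D.X t) * D.w t := by
      rw [← intervalIntegral.integral_sub _ (D.J_int p)]
      · congr 1
        funext t
        ring
      · refine Continuous.intervalIntegrable (Continuous.mul ?_ D.w_cont) _ _
        exact continuous_conj.comp (continuous_const.div hqc fun t => D.q_ne _)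
    rw [h1, hzero, sub_zero, hA, ← intervalIntegral.integral_ofReal]
    congr 1
    funext t
    have h2 : h (U t) * D.w t
        = 2 * Real.pi * ((starRingEnd ℂ) (1 / D.q (U t)) * (1 / D.q (U t))) := by
      simp only [hh]
      unfold w
      ring
    rw [h2, ← Complex.normSq_eq_conj_mul_self, Complex.normSq_eq_norm_sq]
    push_cast
    ring
  have hbound : ‖∫ t in (0 : ℝ)..1, (h (U t) - p.eval (D.X t)) * D.w t‖
      ≤ (2 * ε * (2 * Real.pi * B)) * |1 - 0| := by
    apply intervalIntegral.norm_integral_le_of_norm_le_const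
    intro t _
    rw [norm_mul]
    refine mul_le_mul (hnear t) ?_ (norm_nonneg _) (by positivity)
    have h1 := hB (U t) (U_mem t)
    have h2 : D.w t = (2 * Real.pi : ℝ) * (1 / D.q (U t)) := by
      unfold w
      push_cast
      ring
    rw [h2, norm_mul, Complex.norm_real, Real.norm_eq_abs, abs_of_pos (by positivity)]
    gcongr
  rw [← hmain, Complex.norm_real, Real.norm_eq_abs, abs_of_pos hApos, sub_zero, abs_one,
    mul_one] at hbound
  have : 2 * ε * (2 * Real.pi * B) = A / 2 := by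
    rw [hε]
    field_simp
    ring
  linarith

/-! ### Loops that avoid the branch points -/

/-- the domain of the square root -/
def V : Set ℂ := {u | ∀ l ∈ D.L, 1 + u * D.z l ∈ slitPlane}

lemma V_open : IsOpen D.V := by
  have : D.V = ⋂ l ∈ D.L, {u : ℂ | 1 + u * D.z l ∈ slitPlane} := by
    ext u
    simp [V]
  rw [this]
  refine isOpen_biInter_finset fun l _ => ?_
  exact isOpen_slitPlane.preimage (by fun_prop)

/-- the square root -/
def qc (u : ℂ) : ℂ := D.c₀ * ∏ l ∈ D.L, exp (log (1 + u * D.z l) / 2)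

lemma qc_ne (u : ℂ) : D.qc u ≠ 0 := by
  unfold qc
  refine mul_ne_zero D.c₀_ne ?_
  rw [Finset.prod_ne_zero_iff]
  intro l _
  exact exp_ne_zero _

lemma qc_sq {u : ℂ} (hu : u ∈ D.V) :
    D.qc u ^ 2 = -∏ l ∈ D.L, (a D.i + u * D.d - a l) := by
  unfold qc
  rw [mul_pow, D.c₀_sq, ← Finset.prod_pow, neg_mul, ← Finset.prod_mul_distrib]
  congr 1
  refine Finset.prod_congr rfl fun l hl => ?_
  have h1 : 1 + u * D.z l ≠ 0 := slitPlane_ne_zero (hu l hl)
  have hne : a D.i - a l ≠ 0 := sub_ne_zero.2 (D.ha.ne (D.mem_L hl).1.symm)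
  rw [← exp_nat_mul]
  have e : ((2 : ℕ) : ℂ) * (log (1 + u * D.z l) / 2) = log (1 + u * D.z l) := by
    push_cast
    ring
  rw [e, exp_log h1]
  unfold z
  field_simp
  ring

lemma qc_contDiffAt {u : ℂ} (hu : u ∈ D.V) : ContDiffAt ℝ (⊤ : ℕ∞) D.qc u := by
  unfold qc
  refine contDiffAt_const.mul (contDiffAt_prod fun l hl => ?_)
  refine (ContDiffAt.div_const ?_ 2).cexp
  have h1 : ContDiffAt ℝ (⊤ : ℕ∞) log (1 + u * D.z l) :=
    (contDiffAt_log (hu l hl)).restrict_scalars ℝ
  have h2 : ContDiffAt ℝ (⊤ : ℕ∞) (fun u : ℂ => 1 + u * D.z l) u := by fun_prop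
  exact h1.comp u h2

/-- the point `r exp (2 π i t)` -/
def Z (r t : ℝ) : ℂ := r * exp (2 * Real.pi * I * t)

/-- the ellipse around `[0, 1]` -/
def uu (r t : ℝ) : ℂ := 1 / 2 - (Z r t + (Z r t)⁻¹) / 4

lemma Z_ne {r : ℝ} (hr : 1 ≤ r) (t : ℝ) : Z r t ≠ 0 := by
  unfold Z
  refine mul_ne_zero ?_ (exp_ne_zero _)
  exact_mod_cast (by linarith : r ≠ 0)

lemma Z_cont : Continuous fun p : ℝ × ℝ => Z p.1 p.2 := by
  unfold Z
  fun_prop

lemma uu_one (t : ℝ) : uu 1 t = (U t : ℂ) := by
  have h1 : Z 1 t = exp ((2 * Real.pi * t : ℝ) * I) := by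
    unfold Z
    push_cast
    rw [one_mul]
    congr 1
    ring
  have h2 : (Z 1 t)⁻¹ = exp (-((2 * Real.pi * t : ℝ) * I)) := by
    rw [h1, exp_neg]
  unfold uu
  rw [h2, h1]
  have h3 : exp ((2 * Real.pi * t : ℝ) * I) + exp (-((2 * Real.pi * t : ℝ) * I))
      = 2 * ((Real.cos (2 * Real.pi * t) : ℝ) : ℂ) := by
    rw [ofReal_cos, Complex.cos, neg_mul]
    ring
  rw [h3]
  have h4 : U t = 1 / 2 - Real.cos (2 * Real.pi * t) / 2 := by
    unfold U
    rw [Real.sin_sq_eq_half_sub]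
    congr 3
    ring
  rw [h4]
  push_cast
  ring

/-- the loop, first coordinate -/
def XX (r t : ℝ) : ℂ := a D.i + uu r t * D.d

/-- the square root of `(x - a_i) (x - a_j)` -/
def QQ (r t : ℝ) : ℂ := -(D.d / 4) * (Z r t - (Z r t)⁻¹)

/-- the loop, second coordinate -/
def YY (r t : ℝ) : ℂ := I * D.QQ r t * D.qc (uu r t)

lemma Z_deriv (r t : ℝ) : HasDerivAt (Z r) (2 * Real.pi * I * Z r t) t := by
  unfold Z
  have h1 : HasDerivAt (fun t : ℝ => 2 * Real.pi * I * (t : ℂ)) (2 * Real.pi * I) t := by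
    simpa using (ofRealCLM.hasDerivAt (x := t)).const_mul (2 * Real.pi * I)
  refine ((h1.cexp.const_mul (r : ℂ))).congr_deriv ?_
  ring

lemma uu_deriv {r : ℝ} (hr : 1 ≤ r) (t : ℝ) :
    HasDerivAt (uu r) (-(2 * Real.pi * I) * (Z r t - (Z r t)⁻¹) / 4) t := by
  unfold uu
  have h1 := Z_deriv r t
  have h2 := h1.inv (Z_ne hr t)
  have h3 := ((h1.add h2).div_const 4).const_sub (1 / 2 : ℂ)
  refine h3.congr_deriv ?_
  have := Z_ne hr t
  field_simp
  ring

lemma XX_deriv {r : ℝ} (hr : 1 ≤ r) (t : ℝ) :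
    HasDerivAt (D.XX r) (2 * Real.pi * I * D.QQ r t) t := by
  unfold XX
  refine (((uu_deriv hr t).mul_const D.d).const_add _).congr_deriv ?_
  unfold QQ
  ring

lemma Z_smooth (r : ℝ) : ContDiff ℝ (⊤ : ℕ∞) (Z r) := by
  unfold Z
  refine contDiff_const.mul (ContDiff.cexp ?_)
  exact contDiff_const.mul ofRealCLM.contDiff

lemma uu_smooth {r : ℝ} (hr : 1 ≤ r) : ContDiff ℝ (⊤ : ℕ∞) (uu r) := by
  unfold uu
  exact contDiff_const.sub (((Z_smooth r).add ((Z_smooth r).inv (Z_ne hr))).div_const 4)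

lemma XX_smooth {r : ℝ} (hr : 1 ≤ r) : ContDiff ℝ (⊤ : ℕ∞) (D.XX r) := by
  unfold XX
  exact contDiff_const.add ((uu_smooth hr).mul contDiff_const)

lemma QQ_smooth {r : ℝ} (hr : 1 ≤ r) : ContDiff ℝ (⊤ : ℕ∞) (D.QQ r) := by
  unfold QQ
  exact contDiff_const.mul ((Z_smooth r).sub ((Z_smooth r).inv (Z_ne hr)))

lemma qcuu_smooth {r : ℝ} (hr : 1 ≤ r) (hV : ∀ t, uu r t ∈ D.V) :
    ContDiff ℝ (⊤ : ℕ∞) fun t => D.qc (uu r t) := by
  rw [contDiff_iff_contDiffAt]
  intro t
  exact (D.qc_contDiffAt (hV t)).comp t (uu_smooth hr).contDiffAt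

lemma YY_smooth {r : ℝ} (hr : 1 ≤ r) (hV : ∀ t, uu r t ∈ D.V) :
    ContDiff ℝ (⊤ : ℕ∞) (D.YY r) := by
  unfold YY
  exact (contDiff_const.mul (D.QQ_smooth hr)).mul (D.qcuu_smooth hr hV)

lemma curve' {r : ℝ} (hr : 1 ≤ r) {t : ℝ} (hV : uu r t ∈ D.V) :
    D.YY r t ^ 2 = pol a (D.XX r t) := by
  unfold YY pol
  rw [D.prod_split, mul_pow, mul_pow, D.qc_sq hV]
  have h3 : ∏ l ∈ D.L, (D.XX r t - a l) = ∏ l ∈ D.L, (a D.i + uu r t * D.d - a l) := rfl
  rw [h3]
  generalize ∏ l ∈ D.L, (a D.i + uu r t * D.d - a l) = Q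
  have h1 : D.XX r t - a D.i = uu r t * D.d := by unfold XX; ring
  have h2 : D.XX r t - a D.j = (uu r t - 1) * D.d := by unfold XX d; ring
  rw [h1, h2, I_sq]
  unfold QQ uu
  have := Z_ne hr t
  field_simp
  ring

lemma Z_norm {r : ℝ} (hr : 1 ≤ r) (t : ℝ) : ‖Z r t‖ = r := by
  unfold Z
  rw [norm_mul, Complex.norm_real, Real.norm_eq_abs, abs_of_nonneg (by linarith)]
  have : (2 * Real.pi * I * t : ℂ) = ((2 * Real.pi * t : ℝ) : ℂ) * I := by
    push_cast
    ring
  rw [this, norm_exp_ofReal_mul_I, mul_one]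

lemma YY_ne {r : ℝ} (hr : 1 < r) (t : ℝ) : D.YY r t ≠ 0 := by
  unfold YY QQ
  refine mul_ne_zero (mul_ne_zero I_ne_zero (mul_ne_zero ?_ ?_)) (D.qc_ne _)
  · exact neg_ne_zero.2 (div_ne_zero D.d_ne (by norm_num))
  · intro h
    have h0 := Z_ne hr.le t
    have h1 : Z r t * Z r t = 1 := by
      have h2 : Z r t = (Z r t)⁻¹ := by linear_combination h
      calc Z r t * Z r t = Z r t * (Z r t)⁻¹ := by rw [← h2]
        _ = 1 := mul_inv_cancel₀ h0
    have h3 := congrArg norm h1
    rw [norm_mul, Z_norm hr.le, norm_one] at h3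
    nlinarith

lemma Z_per (r t : ℝ) : Z r (t + 1) = Z r t := by
  unfold Z
  congr 1
  push_cast
  rw [mul_add, mul_one, exp_add, exp_two_pi_mul_I, mul_one]

lemma abelInt_eq' {r : ℝ} (hr : 1 < r) (k : ℕ) :
    abelInt k (fun t => (D.XX r t, D.YY r t))
      = ∫ t in (0 : ℝ)..1, D.XX r t ^ k * (2 * Real.pi / D.qc (uu r t)) := by
  unfold abelInt
  congr 1
  funext t
  have hd : deriv (fun u => ((fun t => (D.XX r t, D.YY r t)) u).1) t = _ :=
    (D.XX_deriv hr.le t).deriv
  rw [hd]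
  have hY := D.YY_ne hr t
  unfold YY at hY ⊢
  have hQ : D.QQ r t ≠ 0 := by
    intro h
    apply hY
    rw [h]
    ring
  have h1 := D.qc_ne (uu r t)
  have hI := I_ne_zero
  simp only
  field_simp

/-- for `r` close to `1` the ellipse stays in the domain -/
lemma exists_delta : ∃ δ : ℝ, 0 < δ ∧ ∀ r ∈ Icc (1 : ℝ) (1 + δ), ∀ t, uu r t ∈ D.V := by
  -- tube lemma
  have hcont : ContinuousOn (fun p : ℝ × ℝ => uu p.1 p.2) (Ici 1 ×ˢ univ) := by
    unfold uu
    refine continuousOn_const.sub ((Z_cont.continuousOn.add ?_).div_const 4)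
    exact Z_cont.continuousOn.inv₀ fun p hp => Z_ne hp.1 _
  -- clamp the first variable
  set c : ℝ × ℝ → ℂ := fun p => uu (max 1 p.1) p.2 with hc
  have hcc : Continuous c := by
    have : Continuous fun p : ℝ × ℝ => ((max 1 p.1, p.2) : ℝ × ℝ) := by fun_prop
    refine hcont.comp_continuous this fun p => ⟨?_, mem_univ _⟩
    show (1 : ℝ) ≤ max 1 p.1
    exact le_max_left _ _
  have hopen : IsOpen (c ⁻¹' D.V) := D.V_open.preimage hcc
  have hsub : ({1} : Set ℝ) ×ˢ Icc (0 : ℝ) 1 ⊆ c ⁻¹' D.V := by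
    rintro ⟨r, t⟩ ⟨hr, _⟩
    rw [mem_singleton_iff] at hr
    simp only at hr
    subst hr
    show uu (max 1 1) t ∈ D.V
    rw [max_self, uu_one]
    intro l hl
    exact D.slit hl (U_mem t)
  obtain ⟨A, B, hA, _, hA1, hB1, hAB⟩ := generalized_tube_lemma isCompact_singleton
    isCompact_Icc hopen hsub
  obtain ⟨δ, hδ, hδA⟩ := Metric.isOpen_iff.1 hA 1 (hA1 rfl)
  refine ⟨δ / 2, by linarith, ?_⟩
  intro r hr t
  have hrA : r ∈ A := by
    apply hδA
    rw [Metric.mem_ball, Real.dist_eq, abs_of_nonneg (by linarith [hr.1])]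
    linarith [hr.2]
  -- reduce `t` to `[0, 1]`
  have hper : uu r t = uu r (Int.fract t) := by
    have h1 : Function.Periodic (uu r) 1 := by
      intro s
      unfold uu
      rw [Z_per]
    have h2 := (h1.int_mul ⌊t⌋) (Int.fract t)
    rw [mul_one, Int.fract_add_floor] at h2
    exact h2
  rw [hper]
  have h3 : ((r, Int.fract t) : ℝ × ℝ) ∈ c ⁻¹' D.V :=
    hAB ⟨hrA, hB1 ⟨Int.fract_nonneg t, (Int.fract_lt_one t).le⟩⟩
  have h4 : c (r, Int.fract t) = uu r (Int.fract t) := by
    simp only [hc]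
    rw [max_eq_right hr.1]
  rw [← h4]
  exact h3

/-- a good loop -/
lemma exists_good : ∃ r : ℝ, 1 < r ∧ (∀ t, uu r t ∈ D.V) ∧ ∃ k, k < 2 * g ∧
    abelInt k (fun t => (D.XX r t, D.YY r t)) ≠ 0 := by
  obtain ⟨k, hk, hk0⟩ := D.exists_ne
  obtain ⟨δ, hδ, hV⟩ := D.exists_delta
  -- clamp
  set cl : ℝ → ℝ := fun r => max 1 (min r (1 + δ)) with hcl
  have hclm : ∀ r, cl r ∈ Icc (1 : ℝ) (1 + δ) := fun r =>
    ⟨le_max_left _ _, max_le (by linarith) (min_le_right _ _)⟩
  have hclc : Continuous cl := by fun_prop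
  have hZc : Continuous fun p : ℝ × ℝ => Z (cl p.1) p.2 :=
    Z_cont.comp (by fun_prop : Continuous fun p : ℝ × ℝ => ((cl p.1, p.2) : ℝ × ℝ))
  have huc : Continuous fun p : ℝ × ℝ => uu (cl p.1) p.2 := by
    unfold uu
    exact continuous_const.sub ((hZc.add (hZc.inv₀ fun p => Z_ne (hclm p.1).1 _)).div_const 4)
  have hqc : Continuous fun p : ℝ × ℝ => D.qc (uu (cl p.1) p.2) := by
    rw [continuous_iff_continuousAt]
    intro p
    exact ContinuousAt.comp (f := fun p : ℝ × ℝ => uu (cl p.1) p.2)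
      (D.qc_contDiffAt (hV _ (hclm p.1) p.2)).continuousAt huc.continuousAt
  have hF : Continuous fun r : ℝ =>
      ∫ t in (0 : ℝ)..1, D.XX (cl r) t ^ k * (2 * Real.pi / D.qc (uu (cl r) t)) := by
    apply intervalIntegral.continuous_parametric_intervalIntegral_of_continuous'
      (f := fun r t => D.XX (cl r) t ^ k * (2 * Real.pi / D.qc (uu (cl r) t)))
    refine Continuous.mul (Continuous.pow ?_ k) (continuous_const.div hqc fun p => D.qc_ne _)
    unfold XX
    exact continuous_const.add (huc.mul continuous_const)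
  have h1 : ∫ t in (0 : ℝ)..1, D.XX (cl 1) t ^ k * (2 * Real.pi / D.qc (uu (cl 1) t)) ≠ 0 := by
    have hcl1 : cl 1 = 1 := by
      simp only [hcl]
      rw [min_eq_left (by linarith), max_self]
    have h2 : ∫ t in (0 : ℝ)..1, D.XX (cl 1) t ^ k * (2 * Real.pi / D.qc (uu (cl 1) t))
        = D.J (Polynomial.X ^ k) := by
      unfold J
      congr 1
      funext t
      rw [hcl1]
      unfold XX w
      rw [uu_one, Polynomial.eval_pow, Polynomial.eval_X]
      rfl
    rw [h2]
    exact hk0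
  have h3 : ∀ᶠ r in nhds (1 : ℝ),
      ∫ t in (0 : ℝ)..1, D.XX (cl r) t ^ k * (2 * Real.pi / D.qc (uu (cl r) t)) ≠ 0 :=
    hF.continuousAt.eventually_ne h1
  obtain ⟨η, hη, hη2⟩ := Metric.eventually_nhds_iff.1 h3
  set r : ℝ := 1 + min (η / 2) δ with hr
  have hm : 0 < min (η / 2) δ := lt_min (by linarith) hδ
  have hr1 : 1 < r := by linarith
  have hrI : r ∈ Icc (1 : ℝ) (1 + δ) := ⟨hr1.le, by linarith [min_le_right (η / 2) δ]⟩
  have hclr : cl r = r := by
    simp only [hcl]
    rw [min_eq_left hrI.2, max_eq_right hrI.1]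
  refine ⟨r, hr1, hV r hrI, k, hk, ?_⟩
  rw [D.abelInt_eq' hr1]
  have h4 := hη2 (y := r) (by
    rw [Real.dist_eq, abs_of_pos (by linarith)]
    have := min_le_left (η / 2) δ
    linarith)
  rwa [hclr] at h4

end Dat

/-- every curve `y² = ∏ (x - a_i)` of genus at least one has a smooth loop avoiding the branch
points with a nonzero period -/
theorem exists_loop (hg : 1 ≤ g) (a : Conf g) (ha : Function.Injective a) :
    ∃ σ : ℝ → ℂ × ℂ, ContDiff ℝ (⊤ : ℕ∞) σ ∧ Function.Periodic σ 1 ∧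
      (∀ t, (σ t).2 ^ 2 = pol a (σ t).1 ∧ (σ t).2 ≠ 0) ∧
      ∃ k : Fin (2 * g), abelInt k σ ≠ 0 := by
  obtain ⟨i, j, hij, hseg⟩ := exists_pair hg a ha
  let D : Dat a := ⟨i, j, hij, ha, hseg⟩
  obtain ⟨r, hr, hV, k, hk, hk0⟩ := D.exists_good
  refine ⟨fun t => (D.XX r t, D.YY r t), (D.XX_smooth hr.le).prodMk (D.YY_smooth hr.le hV),
    fun t => ?_, fun t => ⟨D.curve' hr.le (hV t), D.YY_ne hr t⟩, ⟨k, hk⟩, hk0⟩
  show (D.XX r (t + 1), D.YY r (t + 1)) = (D.XX r t, D.YY r t)
  unfold Dat.XX Dat.YY Dat.QQ Dat.uu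
  rw [Dat.Z_per]

end

end Pool.Agent.Y327.HP
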