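import Pool.Agent.Y327.HP.GM

/-!
# Transport preserves linear relations between periods
-/

set_option autoImplicit false

namespace Pool.Agent.Y327.HP

open Complex MeasureTheory Set Topology Polynomial

noncomputable section

variable {g : ℕ}

/-- loops on the curve `y² = ∏ (x - a_i)`, `y ≠ 0` -/
structure CL (a : Conf g) (σ : ℝ → ℂ × ℂ) : Prop where
  smooth : ContDiff ℝ (⊤ : ℕ∞) σ
  per : Function.Periodic σ 1
  mem : ∀ t, (σ t).2 ^ 2 = pol a (σ t).1 ∧ (σ t).2 ≠ 0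

/-- the data of a moving loop -/
structure Mov (a : Conf g) where
  D : Loc a
  ε : Conf g
  hε : ‖ε‖ ≤ D.e / 2
  σ : ℝ → ℂ × ℂ
  hσ : CL a σ

namespace Mov

variable {a : Conf g} (M : Mov a)

def x0 (t : ℝ) : ℂ := (M.σ t).1
def y0 (t : ℝ) : ℂ := (M.σ t).2
def X (t : ℝ) : ℂ := M.D.X M.ε (M.x0 t)
def v (j : Fin (2 * g + 1)) (t : ℝ) : ℂ := M.D.V j M.ε (M.x0 t)
def xx (τ t : ℝ) : ℂ := M.x0 t + τ * M.X t
def xt (τ t : ℝ) : ℂ := deriv M.x0 t + τ * deriv M.X t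
def yy (τ t : ℝ) : ℂ := M.y0 t * exp ((∑ j, log (1 + τ * M.v j t)) / 2)
def S1 (τ t : ℝ) : ℂ := ∑ j, M.v j t / (1 + τ * M.v j t)

lemma x0_smooth : ContDiff ℝ (⊤ : ℕ∞) M.x0 := contDiff_fst.comp M.hσ.smooth
lemma y0_smooth : ContDiff ℝ (⊤ : ℕ∞) M.y0 := contDiff_snd.comp M.hσ.smooth
lemma X_smooth : ContDiff ℝ (⊤ : ℕ∞) M.X := (M.D.X_smooth M.ε).comp M.x0_smooth

lemma pol_ne (t : ℝ) : pol a (M.x0 t) ≠ 0 := by
  have h := M.hσ.mem t
  unfold x0
  rw [← h.1]
  exact pow_ne_zero 2 h.2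

lemma x0_ne (t : ℝ) (j : Fin (2 * g + 1)) : M.x0 t - a j ≠ 0 := Loc.ne_of_pol (M.pol_ne t) j

lemma v_smooth (j : Fin (2 * g + 1)) : ContDiff ℝ (⊤ : ℕ∞) (M.v j) := by
  unfold v Loc.V
  simp only [div_eq_mul_inv]
  exact (M.X_smooth.sub contDiff_const).mul
    ((M.x0_smooth.sub contDiff_const).inv fun t => M.x0_ne t j)

lemma small {τ : ℝ} (hτ : |τ| ≤ 2) : ‖τ • M.ε‖ ≤ M.D.e := by
  rw [norm_smul, Real.norm_eq_abs]
  have h1 := M.hε
  have h2 := norm_nonneg M.ε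
  nlinarith [abs_nonneg τ]

lemma slit {τ : ℝ} (hτ : |τ| ≤ 2) (j : Fin (2 * g + 1)) (t : ℝ) :
    1 + (τ : ℂ) * M.v j t ∈ slitPlane := by
  have := M.D.V_slit (M.small hτ) j (M.x0 t)
  rwa [M.D.V_smul] at this

lemma Es_eq (τ t : ℝ) :
    M.D.Es (τ • M.ε) (M.x0 t) = exp ((∑ j, log (1 + τ * M.v j t)) / 2) := by
  unfold Loc.Es
  simp only [M.D.V_smul]
  rfl

lemma Tr_eq (τ t : ℝ) : M.D.Tr (τ • M.ε) (M.σ t) = (M.xx τ t, M.yy τ t) := by
  have h1 : M.D.Tr (τ • M.ε) (M.σ t)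
      = (M.D.φ (τ • M.ε) (M.x0 t), M.y0 t * M.D.Es (τ • M.ε) (M.x0 t)) := rfl
  rw [h1, M.Es_eq]
  unfold Loc.φ xx yy X
  rw [M.D.X_smul]

lemma yy_ne (τ t : ℝ) : M.yy τ t ≠ 0 := mul_ne_zero (M.hσ.mem t).2 (exp_ne_zero _)

lemma xx_hasDerivAt_t (τ t : ℝ) : HasDerivAt (M.xx τ) (M.xt τ t) t := by
  unfold xx xt
  have h1 : HasDerivAt M.x0 (deriv M.x0 t) t := (M.x0_smooth.differentiable (by simp) t).hasDerivAt
  have h2 : HasDerivAt M.X (deriv M.X t) t := (M.X_smooth.differentiable (by simp) t).hasDerivAt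
  exact h1.add (h2.const_mul (τ : ℂ))

/-- the integrand -/
def F (k : ℕ) (τ t : ℝ) : ℂ := M.xx τ t ^ k * M.xt τ t / M.yy τ t

lemma abelInt_eq (k : ℕ) (τ : ℝ) :
    abelInt k (fun t => M.D.Tr (τ • M.ε) (M.σ t)) = ∫ t in (0 : ℝ)..1, M.F k τ t := by
  unfold abelInt F
  congr 1
  funext t
  have h1 : (fun u => (M.D.Tr (τ • M.ε) (M.σ u)).1) = M.xx τ := by
    funext u
    rw [M.Tr_eq]
  have h2 : (M.D.Tr (τ • M.ε) (M.σ t)).1 = M.xx τ t := by rw [M.Tr_eq]
  have h3 : (M.D.Tr (τ • M.ε) (M.σ t)).2 = M.yy τ t := by rw [M.Tr_eq]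
  simp only [h1, h2, h3, (M.xx_hasDerivAt_t τ t).deriv]

/-- derivative of the integrand in `τ` -/
def G (k : ℕ) (τ t : ℝ) : ℂ :=
  (k * M.xx τ t ^ (k - 1) * M.X t * M.xt τ t + M.xx τ t ^ k * deriv M.X t) / M.yy τ t
    - M.F k τ t * (M.S1 τ t / 2)

lemma yy_hasDerivAt {τ : ℝ} (hτ : |τ| ≤ 2) (t : ℝ) :
    HasDerivAt (fun τ => M.yy τ t) (M.yy τ t * (M.S1 τ t / 2)) τ := by
  have h1 : ∀ j, HasDerivAt (fun τ : ℝ => log (1 + (τ : ℂ) * M.v j t))
      (M.v j t / (1 + (τ : ℂ) * M.v j t)) τ := by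
    intro j
    refine HasDerivAt.clog_real ?_ (M.slit hτ j t)
    have := ((ofRealCLM.hasDerivAt (x := τ)).mul_const (M.v j t)).const_add (1 : ℂ)
    simpa using this
  have h2 : HasDerivAt (fun τ : ℝ => ∑ j, log (1 + (τ : ℂ) * M.v j t)) (M.S1 τ t) τ :=
    HasDerivAt.fun_sum fun j _ => h1 j
  have h3 := ((h2.div_const 2).cexp).const_mul (M.y0 t)
  refine h3.congr_deriv ?_
  unfold yy
  ring

lemma F_hasDerivAt (k : ℕ) {τ : ℝ} (hτ : |τ| ≤ 2) (t : ℝ) :
    HasDerivAt (fun τ => M.F k τ t) (M.G k τ t) τ := by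
  have h1 : HasDerivAt (fun τ : ℝ => M.xx τ t) (M.X t) τ := by
    unfold xx
    have := ((ofRealCLM.hasDerivAt (x := τ)).mul_const (M.X t)).const_add (M.x0 t)
    simpa using this
  have h2 : HasDerivAt (fun τ : ℝ => M.xt τ t) (deriv M.X t) τ := by
    unfold xt
    have := ((ofRealCLM.hasDerivAt (x := τ)).mul_const (deriv M.X t)).const_add (deriv M.x0 t)
    simpa using this
  have h3 := M.yy_hasDerivAt hτ t
  have h4 := (((h1.pow k).mul h2).div h3 (M.yy_ne τ t))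
  refine h4.congr_deriv ?_
  have := M.yy_ne τ t
  unfold G F
  field_simp
  simp only [Pi.mul_apply, Pi.pow_apply]
  ring

/-! ### continuity -/

/-- the parameter domain -/
def Dom : Set (ℝ × ℝ) := {p | |p.1| ≤ 2}

lemma yy_cont : ContinuousOn (fun p : ℝ × ℝ => M.yy p.1 p.2) Dom := by
  unfold yy
  refine ContinuousOn.mul ?_ (ContinuousOn.cexp (ContinuousOn.div_const ?_ 2))
  · exact (M.y0_smooth.continuous.comp continuous_snd).continuousOn
  · refine continuousOn_finsetSum _ fun j _ => ContinuousOn.clog ?_ fun p hp => M.slit hp j p.2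
    refine Continuous.continuousOn ?_
    exact continuous_const.add ((continuous_ofReal.comp continuous_fst).mul
      ((M.v_smooth j).continuous.comp continuous_snd))

lemma xx_cont : Continuous (fun p : ℝ × ℝ => M.xx p.1 p.2) := by
  unfold xx
  exact (M.x0_smooth.continuous.comp continuous_snd).add
    ((continuous_ofReal.comp continuous_fst).mul (M.X_smooth.continuous.comp continuous_snd))

lemma dX_cont : Continuous (deriv M.X) := M.X_smooth.continuous_deriv (by simp)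

lemma xt_cont : Continuous (fun p : ℝ × ℝ => M.xt p.1 p.2) := by
  unfold xt
  exact ((M.x0_smooth.continuous_deriv (by simp)).comp continuous_snd).add
    ((continuous_ofReal.comp continuous_fst).mul (M.dX_cont.comp continuous_snd))

lemma S1_cont : ContinuousOn (fun p : ℝ × ℝ => M.S1 p.1 p.2) Dom := by
  unfold S1
  refine continuousOn_finsetSum _ fun j _ => ContinuousOn.div ?_ ?_ fun p hp =>
    slitPlane_ne_zero (M.slit hp j p.2)
  · exact ((M.v_smooth j).continuous.comp continuous_snd).continuousOn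
  · refine Continuous.continuousOn ?_
    exact continuous_const.add ((continuous_ofReal.comp continuous_fst).mul
      ((M.v_smooth j).continuous.comp continuous_snd))

lemma F_cont (k : ℕ) : ContinuousOn (fun p : ℝ × ℝ => M.F k p.1 p.2) Dom := by
  unfold F
  exact (((M.xx_cont.pow k).mul M.xt_cont).continuousOn).div M.yy_cont fun p _ => M.yy_ne _ _

lemma G_cont (k : ℕ) : ContinuousOn (fun p : ℝ × ℝ => M.G k p.1 p.2) Dom := by
  unfold G
  refine ContinuousOn.sub (ContinuousOn.div ?_ M.yy_cont fun p _ => M.yy_ne _ _)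
    ((M.F_cont k).mul (M.S1_cont.div_const 2))
  refine Continuous.continuousOn ?_
  exact (((continuous_const.mul (M.xx_cont.pow _)).mul
    (M.X_smooth.continuous.comp continuous_snd)).mul M.xt_cont).add
    ((M.xx_cont.pow k).mul (M.dX_cont.comp continuous_snd))

lemma slice_cont {f : ℝ × ℝ → ℂ} (hf : ContinuousOn f Dom) {τ : ℝ} (hτ : |τ| ≤ 2) :
    Continuous fun t => f (τ, t) := by
  have h := hf.comp (f := fun t : ℝ => (τ, t)) (s := univ) (by fun_prop) fun t _ => hτ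
  exact continuousOn_univ.1 h

lemma int_hasDerivAt (k : ℕ) {τ : ℝ} (hτ : |τ| < 2) :
    HasDerivAt (fun τ => ∫ t in (0 : ℝ)..1, M.F k τ t) (∫ t in (0 : ℝ)..1, M.G k τ t) τ := by
  have hsub : Icc (-2 : ℝ) 2 ×ˢ Icc (0 : ℝ) 1 ⊆ Dom := by
    rintro ⟨τ, t⟩ ⟨h, _⟩
    exact abs_le.2 h
  obtain ⟨B, hB⟩ := (isCompact_Icc.prod isCompact_Icc).exists_bound_of_continuousOn
    ((M.G_cont k).mono hsub)
  have hnhds : {τ : ℝ | |τ| ≤ 2} ∈ 𝓝 τ := by
    have h1 : IsOpen {τ : ℝ | |τ| < 2} := isOpen_lt continuous_abs continuous_const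
    exact Filter.mem_of_superset (h1.mem_nhds hτ)
      fun x hx => (show |x| ≤ 2 from le_of_lt hx)
  refine (intervalIntegral.hasDerivAt_integral_of_dominated_loc_of_deriv_le
    (F := fun τ t => M.F k τ t) (F' := fun τ t => M.G k τ t) (bound := fun _ => B) hnhds
    ?_ ?_ ?_ ?_ ?_ ?_).2
  · filter_upwards [hnhds] with τ' hτ'
    exact (slice_cont (M.F_cont k) hτ').aestronglyMeasurable
  · exact (slice_cont (M.F_cont k) hτ.le).intervalIntegrable _ _
  · exact (slice_cont (M.G_cont k) hτ.le).aestronglyMeasurable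
  · refine Filter.Eventually.of_forall fun t ht τ' hτ' => ?_
    rw [uIoc_of_le zero_le_one] at ht
    exact hB (τ', t) ⟨abs_le.1 hτ', ⟨ht.1.le, ht.2⟩⟩
  · exact intervalIntegrable_const
  · exact Filter.Eventually.of_forall fun t _ τ' hτ' => M.F_hasDerivAt k hτ' t

/-! ### the connection -/

/-- the configuration at time `τ` -/
def b (τ : ℝ) : Conf g := a + τ • M.ε

lemma xx_sub {τ t : ℝ} (j : Fin (2 * g + 1)) :
    M.xx τ t - M.b τ j = (M.x0 t - a j) * (1 + τ * M.v j t) := by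
  have h1 := M.x0_ne t j
  have h2 : M.v j t = (M.X t - M.ε j) / (M.x0 t - a j) := rfl
  rw [h2]
  unfold xx b
  simp only [Pi.add_apply, Pi.smul_apply, real_smul]
  field_simp
  ring

lemma xx_sub_ne {τ : ℝ} (hτ : |τ| ≤ 2) (t : ℝ) (j : Fin (2 * g + 1)) :
    M.xx τ t - M.b τ j ≠ 0 := by
  rw [xx_sub]
  exact mul_ne_zero (M.x0_ne t j) (slitPlane_ne_zero (M.slit hτ j t))

lemma S1_eq {τ : ℝ} (hτ : |τ| ≤ 2) (t : ℝ) :
    M.S1 τ t = ∑ j, (M.X t - M.ε j) / (M.xx τ t - M.b τ j) := by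
  unfold S1
  refine Finset.sum_congr rfl fun j _ => ?_
  rw [xx_sub]
  have h1 := M.x0_ne t j
  have h2 : M.X t - M.ε j = M.v j t * (M.x0 t - a j) := by
    have h3 : M.v j t = (M.X t - M.ε j) / (M.x0 t - a j) := rfl
    rw [h3]
    field_simp
  have h4 := slitPlane_ne_zero (M.slit hτ j t)
  rw [h2]
  field_simp

lemma yy_sq {τ : ℝ} (hτ : |τ| ≤ 2) (t : ℝ) : M.yy τ t ^ 2 = pol (M.b τ) (M.xx τ t) := by
  have h1 := M.D.pol_φ (M.small hτ) (M.pol_ne t)
  have h2 : M.D.φ (τ • M.ε) (M.x0 t) = M.xx τ t := by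
    unfold Loc.φ xx X
    rw [M.D.X_smul]
  rw [h2] at h1
  have h3 : M.yy τ t = M.y0 t * M.D.Es (τ • M.ε) (M.x0 t) := by
    rw [M.Es_eq]
    rfl
  rw [h3, mul_pow]
  have h4 : M.y0 t ^ 2 = pol a (M.x0 t) := (M.hσ.mem t).1
  rw [h4]
  exact h1.symm

lemma yy_smooth {τ : ℝ} (hτ : |τ| ≤ 2) : ContDiff ℝ (⊤ : ℕ∞) (M.yy τ) := by
  have h1 := M.y0_smooth.mul (M.D.Es_smooth (M.small hτ) M.x0_smooth fun t j => M.x0_ne t j)
  have h2 : M.yy τ = fun t => M.y0 t * M.D.Es (τ • M.ε) (M.x0 t) := by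
    funext t
    rw [M.Es_eq]
    rfl
  rw [h2]
  exact h1

lemma pol_hasDerivAt (b : Conf g) {x : ℝ → ℂ} {x' : ℂ} {t : ℝ} (hx : HasDerivAt x x' t)
    (hne : ∀ j, x t - b j ≠ 0) :
    HasDerivAt (fun t => pol b (x t)) (pol b (x t) * ((∑ j, 1 / (x t - b j)) * x')) t := by
  have h1 : ∀ z : ℂ, pol b z = (∏ l, (Polynomial.X - C (b l))).eval z := by
    intro z
    unfold pol
    rw [eval_prod]
    simp
  have h2 := ((∏ l, (Polynomial.X - C (b l))).hasDerivAt (x t)).comp_of_eq t hx rfl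
  rw [prod_deriv Finset.univ b (x t) hne] at h2
  have h3 : (fun t => pol b (x t))
      = ((fun z => (∏ l, (Polynomial.X - C (b l))).eval z) ∘ x) := by
    funext t
    exact h1 _
  rw [h3]
  refine h2.congr_deriv ?_
  unfold pol
  ring

lemma yy_hasDerivAt_t {τ : ℝ} (hτ : |τ| ≤ 2) (t : ℝ) :
    HasDerivAt (M.yy τ)
      (M.yy τ t * ((∑ j, 1 / (M.xx τ t - M.b τ j)) * M.xt τ t) / 2) t := by
  obtain ⟨y', hy'⟩ : ∃ y', HasDerivAt (M.yy τ) y' t :=
    ⟨_, ((M.yy_smooth hτ).differentiable (by simp) t).hasDerivAt⟩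
  have h1 : HasDerivAt (fun t => M.yy τ t ^ 2) (2 * M.yy τ t * y') t := by
    refine (hy'.pow 2).congr_deriv ?_
    simp
  have h2 := pol_hasDerivAt (M.b τ) (M.xx_hasDerivAt_t τ t) (M.xx_sub_ne hτ t)
  have h3 : (fun t => M.yy τ t ^ 2) = fun t => pol (M.b τ) (M.xx τ t) := by
    funext t
    exact M.yy_sq hτ t
  rw [h3] at h1
  have h4 := h1.unique h2
  have h5 := M.yy_ne τ t
  rw [← M.yy_sq hτ] at h4
  have h6 : y' = M.yy τ t * ((∑ j, 1 / (M.xx τ t - M.b τ j)) * M.xt τ t) / 2 := by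
    have h7 : 2 * M.yy τ t * y'
        = 2 * M.yy τ t * (M.yy τ t * ((∑ j, 1 / (M.xx τ t - M.b τ j)) * M.xt τ t) / 2) := by
      rw [h4]
      ring
    exact mul_left_cancel₀ (mul_ne_zero two_ne_zero h5) h7
  rw [← h6]
  exact hy'

/-- the primitive -/
def Q (k : ℕ) (τ t : ℝ) : ℂ :=
  (M.xx τ t ^ k * M.X t + (Gp (M.b τ) M.ε k).eval (M.xx τ t)) / M.yy τ t

lemma b_inj {τ : ℝ} (hτ : |τ| ≤ 2) : Function.Injective (M.b τ) := M.D.inj_add (M.small hτ)

lemma Q_hasDerivAt (k : ℕ) {τ : ℝ} (hτ : |τ| ≤ 2) (t : ℝ) :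
    HasDerivAt (M.Q k τ)
      (M.G k τ t - (PM (M.b τ) M.ε k).eval (M.xx τ t) * M.xt τ t / M.yy τ t) t := by
  have hx := M.xx_hasDerivAt_t τ t
  have hy := M.yy_hasDerivAt_t hτ t
  have hX : HasDerivAt M.X (deriv M.X t) t := (M.X_smooth.differentiable (by simp) t).hasDerivAt
  have hG : HasDerivAt (fun t => (Gp (M.b τ) M.ε k).eval (M.xx τ t))
      ((derivative (Gp (M.b τ) M.ε k)).eval (M.xx τ t) * M.xt τ t) t :=
    ((Gp (M.b τ) M.ε k).hasDerivAt (M.xx τ t)).comp_of_eq t hx rfl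
  have h1 := (((hx.pow k).mul hX).add hG).div hy (M.yy_ne τ t)
  refine h1.congr_deriv ?_
  rw [PM_eval (M.b_inj hτ) M.ε k (M.xx_sub_ne hτ t)]
  unfold G F
  rw [M.S1_eq hτ]
  have hsplit : ∑ j, (M.X t - M.ε j) / (M.xx τ t - M.b τ j)
      = M.X t * (∑ j, 1 / (M.xx τ t - M.b τ j)) - ∑ j, M.ε j / (M.xx τ t - M.b τ j) := by
    rw [Finset.mul_sum, ← Finset.sum_sub_distrib]
    refine Finset.sum_congr rfl fun j _ => ?_
    ring
  rw [hsplit]
  generalize (∑ j, 1 / (M.xx τ t - M.b τ j)) = A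
  generalize (∑ j, M.ε j / (M.xx τ t - M.b τ j)) = B
  have := M.yy_ne τ t
  simp only [Pi.mul_apply, Pi.pow_apply, Pi.add_apply]
  field_simp
  ring

/-- periodicity -/
lemma Q_per (k : ℕ) (τ : ℝ) : M.Q k τ 1 = M.Q k τ 0 := by
  have h := M.hσ.per 0
  rw [zero_add] at h
  have h1 : M.x0 1 = M.x0 0 := by unfold x0; rw [h]
  have h2 : M.y0 1 = M.y0 0 := by unfold y0; rw [h]
  unfold Q xx yy X v
  rw [h1, h2]

/-- periods of polynomials -/
def I (τ : ℝ) (p : ℂ[X]) : ℂ := ∫ t in (0 : ℝ)..1, p.eval (M.xx τ t) * M.xt τ t / M.yy τ t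

lemma I_cont (p : ℂ[X]) {τ : ℝ} (hτ : |τ| ≤ 2) :
    Continuous fun t => p.eval (M.xx τ t) * M.xt τ t / M.yy τ t := by
  have h1 : Continuous fun t => M.xx τ t := M.xx_cont.comp (by fun_prop : Continuous fun t : ℝ => (τ, t))
  have h2 : Continuous fun t => M.xt τ t := M.xt_cont.comp (by fun_prop : Continuous fun t : ℝ => (τ, t))
  exact ((p.continuous.comp h1).mul h2).div (M.yy_smooth hτ).continuous fun t => M.yy_ne τ t

lemma I_pow (k : ℕ) (τ : ℝ) : M.I τ (Polynomial.X ^ k) = ∫ t in (0 : ℝ)..1, M.F k τ t := by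
  unfold I F
  simp

lemma I_expand {τ : ℝ} (hτ : |τ| ≤ 2) (p : ℂ[X]) (n : ℕ) (hp : p.natDegree < n) :
    M.I τ p = ∑ l ∈ Finset.range n, p.coeff l * M.I τ (Polynomial.X ^ l) := by
  have h1 : ∀ t, p.eval (M.xx τ t) * M.xt τ t / M.yy τ t
      = ∑ l ∈ Finset.range n, p.coeff l
        * ((Polynomial.X ^ l : ℂ[X]).eval (M.xx τ t) * M.xt τ t / M.yy τ t) := by
    intro t
    rw [eval_eq_sum_range' hp, Finset.sum_mul, Finset.sum_div]
    refine Finset.sum_congr rfl fun l _ => ?_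
    simp only [eval_pow, eval_X]
    ring
  unfold I
  simp only [h1]
  rw [intervalIntegral.integral_finsetSum]
  · refine Finset.sum_congr rfl fun l _ => ?_
    rw [intervalIntegral.integral_const_mul]
  · intro l _
    exact ((M.I_cont _ hτ).const_mul _).intervalIntegrable _ _

lemma int_G (k : ℕ) {τ : ℝ} (hτ : |τ| ≤ 2) :
    ∫ t in (0 : ℝ)..1, M.G k τ t = M.I τ (PM (M.b τ) M.ε k) := by
  have hc1 : Continuous fun t => M.G k τ t := slice_cont (M.G_cont k) hτ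
  have hc2 := M.I_cont (PM (M.b τ) M.ε k) hτ
  have h1 : ∫ t in (0 : ℝ)..1,
      (M.G k τ t - (PM (M.b τ) M.ε k).eval (M.xx τ t) * M.xt τ t / M.yy τ t) = 0 := by
    rw [intervalIntegral.integral_eq_sub_of_hasDerivAt (fun t _ => M.Q_hasDerivAt k hτ t)
      ((hc1.sub hc2).intervalIntegrable _ _), M.Q_per, sub_self]
  rw [intervalIntegral.integral_sub (hc1.intervalIntegrable _ _) (hc2.intervalIntegrable _ _)] at h1
  exact sub_eq_zero.1 h1

/-- the Gauss-Manin equation -/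
lemma I_hasDerivAt {k : ℕ} (hk : k < 2 * g) {τ : ℝ} (hτ : |τ| < 2) :
    HasDerivAt (fun τ => M.I τ (Polynomial.X ^ k))
      (∑ l ∈ Finset.range (2 * g), (PM (M.b τ) M.ε k).coeff l * M.I τ (Polynomial.X ^ l)) τ := by
  have h1 := M.int_hasDerivAt k hτ
  rw [M.int_G k hτ.le, M.I_expand hτ.le _ _ (PM_natDegree _ _ hk)] at h1
  simpa only [M.I_pow] using h1

end Mov

/-- Transport preserves linear relations between periods. -/
theorem relation_transport {a : Conf g} (D : Loc a) {ε : Conf g} (hε : ‖ε‖ ≤ D.e / 2) {ι : Type*}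
    (s : Finset ι) (n : ι → ℂ) (σ : ι → ℝ → ℂ × ℂ) (hσ : ∀ i, CL a (σ i))
    (h0 : ∀ k < 2 * g, ∑ i ∈ s, n i * abelInt k (σ i) = 0) :
    ∀ k < 2 * g, ∑ i ∈ s, n i * abelInt k (fun t => D.Tr ε (σ i t)) = 0 := by
  let M : ι → Mov a := fun i => ⟨D, ε, hε, σ i, hσ i⟩
  have hb : ∀ i τ, (M i).b τ = a + τ • ε := fun i τ => rfl
  set W : ℝ → (Fin (2 * g) → ℂ) := fun τ k => ∑ i ∈ s, n i * (M i).I τ (Polynomial.X ^ (k : ℕ))
    with hW
  have hderiv : ∀ τ : ℝ, |τ| < 2 → HasDerivAt W (fun k => ∑ l : Fin (2 * g),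
      (PM (a + τ • ε) ε k).coeff l * W τ l) τ := by
    intro τ hτ
    rw [hasDerivAt_pi]
    intro k
    have h1 : HasDerivAt (fun τ => ∑ i ∈ s, n i * (M i).I τ (Polynomial.X ^ (k : ℕ)))
        (∑ i ∈ s, n i * ∑ l ∈ Finset.range (2 * g),
          (PM ((M i).b τ) (M i).ε k).coeff l * (M i).I τ (Polynomial.X ^ l)) τ :=
      HasDerivAt.fun_sum fun i _ => ((M i).I_hasDerivAt k.2 hτ).const_mul (n i)
    refine h1.congr_deriv ?_
    simp only [hW]
    have h2 : ∀ i, ∑ l ∈ Finset.range (2 * g),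
        (PM ((M i).b τ) (M i).ε k).coeff l * (M i).I τ (Polynomial.X ^ l)
        = ∑ l : Fin (2 * g), (PM (a + τ • ε) ε k).coeff l * (M i).I τ (Polynomial.X ^ (l : ℕ)) := by
      intro i
      rw [← Fin.sum_univ_eq_sum_range
        (fun l => (PM ((M i).b τ) (M i).ε k).coeff l * (M i).I τ (Polynomial.X ^ l))]
      exact Finset.sum_congr rfl fun l _ => rfl
    simp only [h2]
    simp only [Finset.mul_sum]
    rw [Finset.sum_comm]
    refine Finset.sum_congr rfl fun l _ => Finset.sum_congr rfl fun i _ => ?_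
    ring
  have hW0 : W 0 = 0 := by
    funext k
    simp only [hW, Pi.zero_apply]
    have h1 : ∀ i, (M i).I 0 (Polynomial.X ^ (k : ℕ)) = abelInt k (σ i) := by
      intro i
      rw [(M i).I_pow, ← (M i).abelInt_eq]
      have h2 : ∀ t, (M i).D.Tr ((0 : ℝ) • (M i).ε) ((M i).σ t) = σ i t := by
        intro t
        rw [(M i).Tr_eq]
        unfold Mov.xx Mov.yy Mov.x0 Mov.y0
        simp
        rfl
      simp only [h2]
    simp only [h1]
    exact h0 k k.2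
  obtain ⟨B, hB0, hB⟩ := PM_bound (a := a) (ε := ε) (fun τ hτ => by
    apply D.inj_add
    rw [norm_smul, Real.norm_eq_abs, abs_of_nonneg hτ.1]
    have h1 := norm_nonneg ε
    have h2 := D.e_pos
    nlinarith [hτ.2])
  have hW1 : W 1 = 0 := by
    have hcont : ContinuousOn W (Icc 0 1) := fun τ hτ =>
      (hderiv τ (by rw [abs_of_nonneg hτ.1]; linarith [hτ.2])).continuousAt.continuousWithinAt
    have h1 := norm_le_gronwallBound_of_norm_deriv_right_le (f := W)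
      (f' := fun τ k => ∑ l : Fin (2 * g), (PM (a + τ • ε) ε k).coeff l * W τ l)
      (δ := 0) (K := 2 * g * B) (ε := 0) (a := 0) (b := 1) hcont
      (fun τ hτ => (hderiv τ (by rw [abs_of_nonneg hτ.1]; linarith [hτ.2])).hasDerivWithinAt)
      (by rw [hW0, norm_zero]) (fun τ hτ => by
        rw [add_zero, pi_norm_le_iff_of_nonneg (by positivity)]
        intro k
        calc ‖∑ l : Fin (2 * g), (PM (a + τ • ε) ε k).coeff l * W τ l‖
            ≤ ∑ _l : Fin (2 * g), B * ‖W τ‖ := by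
              refine norm_sum_le_of_le _ fun l _ => ?_
              rw [norm_mul]
              exact mul_le_mul (hB k k.2 l l.2 τ ⟨hτ.1, hτ.2.le⟩) (norm_le_pi_norm _ _)
                (norm_nonneg _) hB0
          _ = 2 * g * B * ‖W τ‖ := by
              rw [Finset.sum_const, Finset.card_univ, Fintype.card_fin, nsmul_eq_mul]
              push_cast
              ring) 1 ⟨zero_le_one, le_rfl⟩
    rw [gronwallBound_ε0_δ0] at h1
    exact norm_le_zero_iff.1 h1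
  intro k hk
  have h1 := congrFun hW1 ⟨k, hk⟩
  simp only [hW, Pi.zero_apply] at h1
  have h2 : ∀ i, (M i).I 1 (Polynomial.X ^ k) = abelInt k (fun t => D.Tr ε (σ i t)) := by
    intro i
    rw [(M i).I_pow, ← (M i).abelInt_eq, one_smul]
  simp only [h2] at h1
  exact h1

end

end Pool.Agent.Y327.HP
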