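import Pool.Agent.Y327.HP.Cnt

/-!
# At every algebraic point the closure of the period point is strictly smaller than the fibre
-/

set_option autoImplicit false

namespace Pool.Agent.Y327.HP

open Complex MeasureTheory Set

noncomputable section

variable {g : ℕ}

/-- Substitution of algebraic values for the coordinates of the base. -/
def subst {ι : Type} (a' : Fin (2 * g + 1) → Qbar) (s' : Qbar)
    (F : MvPolynomial ((Fin (2 * g + 1) ⊕ Unit) ⊕ (Row g × ι)) Qbar) :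
    MvPolynomial (Row g × ι) Qbar :=
  MvPolynomial.aeval (Sum.elim (Sum.elim (fun i => MvPolynomial.C (a' i))
    fun _ => MvPolynomial.C s') fun ij => MvPolynomial.X ij) F

lemma ev₀_subst {ι : Type} (a' : Fin (2 * g + 1) → Qbar) (s' : Qbar)
    (F : MvPolynomial ((Fin (2 * g + 1) ⊕ Unit) ⊕ (Row g × ι)) Qbar)
    (M : Matrix (Row g) ι ℂ) :
    ev₀ (subst a' s' F) M = ev F ((fun i => (a' i : ℂ), (s' : ℂ)), M) := by
  unfold ev₀ subst ev
  rw [MvPolynomial.comp_aeval_apply]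
  congr 2
  funext v
  rcases v with (i | u) | ij
  · simp only [Sum.elim_inl, MvPolynomial.aeval_C]
    rfl
  · simp only [Sum.elim_inl, Sum.elim_inr, MvPolynomial.aeval_C]
    rfl
  · simp only [Sum.elim_inr, MvPolynomial.aeval_X]

/-- The closure of a point of the graph is contained in the fibre. -/
theorem ptClosure_subset {ι : Type} {T : Set (Conf g)} {Y : Set (Matrix (Row g) ι ℂ)} {a : Conf g}
    (haT : a ∈ T) (haa : ∀ i, IsAlgebraic ℚ (a i)) {s₀ : ℂ} (h0 : s₀ ≠ 0)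
    (hsa : IsAlgebraic ℚ s₀) {M₀ : Matrix (Row g) ι ℂ}
    {G : Set ((Conf g × ℂ) × Matrix (Row g) ι ℂ)} (hG : ((a, s₀), M₀) ∈ G) :
    ptClosure Y M₀ ⊆ {M | ((a, s₀), M) ∈ BVar T Y G} := by
  intro M hM
  rintro Z ⟨⟨I, rfl⟩, hZ⟩
  have h1 := hZ hG
  let a' : Fin (2 * g + 1) → Qbar := fun i => ⟨a i, mem_algebraicClosure_iff.mpr (haa i)⟩
  let s' : Qbar := ⟨s₀, mem_algebraicClosure_iff.mpr hsa⟩
  have h2 : ∀ (F : MvPolynomial ((Fin (2 * g + 1) ⊕ Unit) ⊕ (Row g × ι)) Qbar)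
      (N : Matrix (Row g) ι ℂ), ev₀ (subst a' s' F) N = ev F ((a, s₀), N) := fun F N =>
    ev₀_subst a' s' F N
  have h3 := hM {N | N ∈ Y ∧ ∀ F ∈ subst a' s' '' I, ev₀ F N = 0} ⟨⟨_, rfl⟩, ?_⟩
  · refine ⟨haT, h0, h3.1, fun F hF => ?_⟩
    rw [← h2]
    exact h3.2 _ ⟨F, hF, rfl⟩
  · refine ⟨h1.2.2.1, ?_⟩
    rintro _ ⟨F, hF, rfl⟩
    rw [h2]
    exact h1.2.2.2 F hF

/-- At every algebraic point the inclusion is strict. -/
theorem strict_frames {ι : Type} (hg : 1 ≤ g) {T : Set (Conf g)} {Y : Set (Matrix (Row g) ι ℂ)}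
    (hY : ∀ ρ : ℂ, ρ ≠ 0 → ∀ M ∈ Y, Dm ρ M ∈ Y)
    {a : Conf g} (ha : Function.Injective a) (haa : ∀ i, IsAlgebraic ℚ (a i)) {s₀ : ℂ}
    (hs₀ : s₀ ≠ 0) (hsa : IsAlgebraic ℚ s₀) {U : Set (Conf g × ℂ)}
    {Γ : Conf g × ℂ → ι → ℝ → Pt} (hΓ : IsLocalFrame T Y U Γ) (hU : (a, s₀) ∈ U)
    {G : Set ((Conf g × ℂ) × Matrix (Row g) ι ℂ)} (hG : graph U Γ ⊆ G) :
    ptClosure Y (perMat (Γ (a, s₀))) ⊂ {M | ((a, s₀), M) ∈ BVar T Y G} := by
  obtain ⟨w, hw⟩ := IsAlgClosed.exists_pow_nat_eq s₀ (n := 2) (by norm_num)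
  have hwa : IsAlgebraic ℚ w := IsAlgebraic.of_pow (n := 2) (by norm_num) (by rw [hw]; exact hsa)
  let K : IntermediateField ℚ ℂ := IntermediateField.adjoin ℚ {w}
  have hK : FiniteDimensional ℚ K := IntermediateField.adjoin.finiteDimensional hwa.isIntegral
  have hwk : w ∈ kap K a s₀ := by
    have h1 : w ∈ K := IntermediateField.subset_adjoin ℚ {w} rfl
    exact (kap K a s₀).algebraMap_mem ⟨w, h1⟩
  have haT : a ∈ T := by
    obtain ⟨O, _, hU2⟩ := hΓ.opn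
    rw [hU2] at hU
    exact hU.2.1
  obtain ⟨F, _, hF1, N, hN, hF2⟩ := main_frames hg K hY ha haa (le_refl 1) hs₀ hsa hw hwk hΓ hU
    (Lam_countable' a hs₀) hG
  refine ⟨ptClosure_subset haT haa hs₀ hsa (hG ⟨hU, rfl⟩), fun h => hF2 (hF1 N (h hN))⟩

end

end Pool.Agent.Y327.HP
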