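import Pool.Agent.Y327.HP.Fam

/-!
# Transport of loops when the branch points move
-/

set_option autoImplicit false

namespace Pool.Agent.Y327.HP

open Complex MeasureTheory Set Topology
open scoped NNReal

noncomputable section

variable {g : ℕ}

lemma exists_sep (a : Conf g) (ha : Function.Injective a) :
    ∃ ρ : ℝ, 0 < ρ ∧ ∀ i j, i ≠ j → 4 * ρ < ‖a i - a j‖ := by
  classical
  set S : Finset (Fin (2 * g + 1) × Fin (2 * g + 1)) := Finset.univ.filter fun p => p.1 ≠ p.2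
    with hS
  by_cases hne : S.Nonempty
  · obtain ⟨p, hp, hmin⟩ := S.exists_min_image (fun p => ‖a p.1 - a p.2‖) hne
    have hp' : p.1 ≠ p.2 := (Finset.mem_filter.1 hp).2
    have h0 : 0 < ‖a p.1 - a p.2‖ := norm_pos_iff.2 (sub_ne_zero.2 (ha.ne hp'))
    refine ⟨‖a p.1 - a p.2‖ / 5, by positivity, fun i j hij => ?_⟩
    have h1 := hmin (i, j) (Finset.mem_filter.2 ⟨Finset.mem_univ _, hij⟩)
    simp only at h1
    linarith
  · refine ⟨1, one_pos, fun i j hij => ?_⟩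
    exact absurd ⟨(i, j), Finset.mem_filter.2 ⟨Finset.mem_univ _, hij⟩⟩ hne

/-- the local data at a configuration -/
structure Loc (a : Conf g) where
  ρ : ℝ
  hρ : 0 < ρ
  sep : ∀ i j, i ≠ j → 4 * ρ < ‖a i - a j‖

namespace Loc

variable {a : Conf g} (D : Loc a)

lemma inj (D' : Loc a) : Function.Injective a := by
  intro i j hij
  by_contra hne
  have h1 := D'.sep i j hne
  rw [hij, sub_self, norm_zero] at h1
  have := D'.hρ
  linarith

/-- the bump functions -/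
def χ (i : Fin (2 * g + 1)) : ContDiffBump (a i) :=
  ⟨D.ρ, 2 * D.ρ, D.hρ, by linarith [D.hρ]⟩

/-- the displacement -/
def X (ε : Conf g) (x : ℂ) : ℂ := ∑ i, ε i * ((D.χ i x : ℝ) : ℂ)

lemma X_smul (τ : ℝ) (ε : Conf g) (x : ℂ) : D.X (τ • ε) x = τ * D.X ε x := by
  unfold X
  rw [Finset.mul_sum]
  refine Finset.sum_congr rfl fun i _ => ?_
  simp only [Pi.smul_apply, real_smul]
  ring

lemma χ_smooth (i : Fin (2 * g + 1)) : ContDiff ℝ (⊤ : ℕ∞) fun x : ℂ => ((D.χ i x : ℝ) : ℂ) :=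
  ofRealCLM.contDiff.comp (D.χ i).contDiff

lemma X_smooth (ε : Conf g) : ContDiff ℝ (⊤ : ℕ∞) (D.X ε) := by
  unfold X
  exact ContDiff.sum fun i _ => contDiff_const.mul (D.χ_smooth i)

/-- near the `j`-th point the displacement is constant -/
lemma X_near (ε : Conf g) {x : ℂ} {j : Fin (2 * g + 1)} (h : ‖x - a j‖ ≤ D.ρ) :
    D.X ε x = ε j := by
  unfold X
  rw [Finset.sum_eq_single j]
  · have : D.χ j x = 1 := (D.χ j).one_of_mem_closedBall (by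
      rw [Metric.mem_closedBall, dist_eq_norm]
      exact h)
    rw [this]
    simp
  · intro i _ hij
    have h1 := D.sep i j hij
    have h2 : D.χ i x = 0 := (D.χ i).zero_of_le_dist (by
      rw [dist_eq_norm]
      show 2 * D.ρ ≤ ‖x - a i‖
      have h3 : ‖a i - a j‖ ≤ ‖x - a j‖ + ‖x - a i‖ := by
        have : a i - a j = (x - a j) - (x - a i) := by ring
        rw [this]
        exact norm_sub_le _ _
      linarith [D.hρ])
    rw [h2]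
    simp
  · intro h
    exact absurd (Finset.mem_univ _) h

/-- number of points -/
def N (g : ℕ) : ℝ := 2 * g + 1

lemma N_pos : 0 < N g := by unfold N; positivity

lemma X_bound (ε : Conf g) (x : ℂ) : ‖D.X ε x‖ ≤ N g * ‖ε‖ := by
  unfold X
  calc ‖∑ i, ε i * ((D.χ i x : ℝ) : ℂ)‖ ≤ ∑ _i : Fin (2 * g + 1), ‖ε‖ := by
        refine norm_sum_le_of_le _ fun i _ => ?_
        rw [norm_mul, Complex.norm_real, Real.norm_eq_abs, abs_of_nonneg (D.χ i).nonneg]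
        calc ‖ε i‖ * D.χ i x ≤ ‖ε‖ * 1 :=
              mul_le_mul (norm_le_pi_norm ε i) (D.χ i).le_one (D.χ i).nonneg (norm_nonneg _)
          _ = ‖ε‖ := mul_one _
    _ = N g * ‖ε‖ := by
        rw [Finset.sum_const, Finset.card_univ, Fintype.card_fin, nsmul_eq_mul]
        unfold N
        push_cast
        ring

/-- the relative displacement -/
def V (j : Fin (2 * g + 1)) (ε : Conf g) (x : ℂ) : ℂ := (D.X ε x - ε j) / (x - a j)

lemma V_smul (j : Fin (2 * g + 1)) (τ : ℝ) (ε : Conf g) (x : ℂ) :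
    D.V j (τ • ε) x = τ * D.V j ε x := by
  unfold V
  rw [X_smul]
  simp only [Pi.smul_apply, real_smul]
  ring

lemma V_bound (j : Fin (2 * g + 1)) (ε : Conf g) (x : ℂ) :
    ‖D.V j ε x‖ ≤ (N g + 1) / D.ρ * ‖ε‖ := by
  have hN := N_pos (g := g)
  have hρ := D.hρ
  unfold V
  by_cases h : ‖x - a j‖ ≤ D.ρ
  · rw [D.X_near ε h, sub_self, zero_div, norm_zero]
    positivity
  · rw [not_le] at h
    rw [norm_div, div_le_iff₀ (by linarith)]
    have h1 : ‖D.X ε x - ε j‖ ≤ (N g + 1) * ‖ε‖ := by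
      refine (norm_sub_le _ _).trans ?_
      have h2 := D.X_bound ε x
      have h3 := norm_le_pi_norm ε j
      linarith
    refine h1.trans ?_
    have h4 : (N g + 1) / D.ρ * ‖ε‖ * ‖x - a j‖ = (N g + 1) * ‖ε‖ * (‖x - a j‖ / D.ρ) := by
      field_simp
    rw [h4]
    refine le_mul_of_one_le_right (by positivity) ?_
    rw [one_le_div hρ]
    exact h.le

lemma exists_lip : ∃ C : ℝ, 0 ≤ C ∧ ∀ (ε : Conf g) (x y : ℂ),
    ‖D.X ε x - D.X ε y‖ ≤ C * ‖ε‖ * ‖x - y‖ := by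
  have h : ∀ i, ∃ C : ℝ≥0, LipschitzWith C (D.χ i) := fun i =>
    ContDiff.lipschitzWith_of_hasCompactSupport (D.χ i).hasCompactSupport
      ((D.χ i).contDiff (n := 1)) (by simp)
  choose C hC using h
  refine ⟨∑ i, (C i : ℝ), Finset.sum_nonneg fun i _ => (C i).2, fun ε x y => ?_⟩
  unfold X
  rw [← Finset.sum_sub_distrib, Finset.sum_mul, Finset.sum_mul]
  refine norm_sum_le_of_le _ fun i _ => ?_
  rw [← mul_sub, norm_mul, ← ofReal_sub, Complex.norm_real]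
  have h1 := (hC i).dist_le_mul x y
  rw [dist_eq_norm, dist_eq_norm] at h1
  calc ‖ε i‖ * ‖D.χ i x - D.χ i y‖ ≤ ‖ε‖ * (C i * ‖x - y‖) :=
        mul_le_mul (norm_le_pi_norm ε i) h1 (norm_nonneg _) (norm_nonneg _)
    _ = C i * ‖ε‖ * ‖x - y‖ := by ring

/-- Lipschitz constant of the displacement -/
def C : ℝ := D.exists_lip.choose

lemma C_nonneg : 0 ≤ D.C := D.exists_lip.choose_spec.1

lemma X_lip (ε : Conf g) (x y : ℂ) : ‖D.X ε x - D.X ε y‖ ≤ D.C * ‖ε‖ * ‖x - y‖ :=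
  D.exists_lip.choose_spec.2 ε x y

/-- the size of the neighbourhood -/
def e : ℝ := min (1 / (2 * (D.C + 1))) (min (1 / (2 * ((N g + 1) / D.ρ))) D.ρ)

lemma e_pos : 0 < D.e := by
  have h1 := D.C_nonneg
  have h2 := D.hρ
  have h3 := N_pos (g := g)
  unfold e
  refine lt_min (by positivity) (lt_min (by positivity) h2)

lemma lip_half {ε : Conf g} (hε : ‖ε‖ ≤ D.e) (x y : ℂ) :
    ‖D.X ε x - D.X ε y‖ ≤ 1 / 2 * ‖x - y‖ := by
  refine (D.X_lip ε x y).trans ?_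
  have h1 := D.C_nonneg
  have h2 : ‖ε‖ ≤ 1 / (2 * (D.C + 1)) := hε.trans (min_le_left _ _)
  have h3 : D.C * ‖ε‖ ≤ 1 / 2 := by
    calc D.C * ‖ε‖ ≤ (D.C + 1) * (1 / (2 * (D.C + 1))) :=
          mul_le_mul (by linarith) h2 (norm_nonneg _) (by linarith)
      _ = 1 / 2 := by field_simp
  gcongr

lemma V_half {ε : Conf g} (hε : ‖ε‖ ≤ D.e) (j : Fin (2 * g + 1)) (x : ℂ) :
    ‖D.V j ε x‖ ≤ 1 / 2 := by
  refine (D.V_bound j ε x).trans ?_
  have h1 := D.hρ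
  have h3 := N_pos (g := g)
  have h2 : ‖ε‖ ≤ 1 / (2 * ((N g + 1) / D.ρ)) :=
    hε.trans ((min_le_right _ _).trans (min_le_left _ _))
  calc (N g + 1) / D.ρ * ‖ε‖ ≤ (N g + 1) / D.ρ * (1 / (2 * ((N g + 1) / D.ρ))) := by gcongr
    _ = 1 / 2 := by field_simp

lemma V_slit {ε : Conf g} (hε : ‖ε‖ ≤ D.e) (j : Fin (2 * g + 1)) (x : ℂ) :
    1 + D.V j ε x ∈ slitPlane :=
  mem_slitPlane_of_norm_lt_one ((D.V_half hε j x).trans_lt (by norm_num))

lemma inj_add {ε : Conf g} (hε : ‖ε‖ ≤ D.e) : Function.Injective (a + ε) := by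
  intro i j hij
  by_contra hne
  have h1 := D.sep i j hne
  have h2 : ‖ε‖ ≤ D.ρ := hε.trans ((min_le_right _ _).trans (min_le_right _ _))
  have h3 : a i - a j = ε j - ε i := by
    have : a i + ε i = a j + ε j := hij
    linear_combination this
  rw [h3] at h1
  have h4 := norm_sub_le (ε j) (ε i)
  have h5 := norm_le_pi_norm ε i
  have h6 := norm_le_pi_norm ε j
  have h7 := D.hρ
  linarith

/-- the diffeomorphism of the plane -/
def φ (ε : Conf g) (x : ℂ) : ℂ := x + D.X ε x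

lemma φ_smooth (ε : Conf g) : ContDiff ℝ (⊤ : ℕ∞) (D.φ ε) := by
  unfold φ
  exact contDiff_id.add (D.X_smooth ε)

lemma φ_approx {ε : Conf g} (hε : ‖ε‖ ≤ D.e) :
    ApproximatesLinearOn (D.φ ε) ((ContinuousLinearEquiv.refl ℝ ℂ : ℂ ≃L[ℝ] ℂ) : ℂ →L[ℝ] ℂ)
      univ (1 / 2 : ℝ≥0) := by
  intro x _ y _
  have h1 : D.φ ε x - D.φ ε y
      - ((ContinuousLinearEquiv.refl ℝ ℂ : ℂ ≃L[ℝ] ℂ) : ℂ →L[ℝ] ℂ) (x - y)
      = D.X ε x - D.X ε y := by
    unfold φ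
    simp
    ring
  rw [h1]
  have := D.lip_half hε x y
  simpa using this

lemma refl_norm : ‖((ContinuousLinearEquiv.refl ℝ ℂ).symm : ℂ →L[ℝ] ℂ)‖₊ = 1 := by
  have h : ((ContinuousLinearEquiv.refl ℝ ℂ).symm : ℂ →L[ℝ] ℂ) = ContinuousLinearMap.id ℝ ℂ := rfl
  rw [h]
  ext
  simp

/-- the homeomorphism -/
def H (ε : Conf g) (hε : ‖ε‖ ≤ D.e) : ℂ ≃ₜ ℂ :=
  (D.φ_approx hε).toHomeomorph (D.φ ε) (Or.inr (by
    rw [refl_norm, inv_one]
    have : (1 / 2 : ℝ≥0) < 1 := by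
      rw [← NNReal.coe_lt_coe]
      norm_num
    exact this))

lemma H_coe (ε : Conf g) (hε : ‖ε‖ ≤ D.e) : (D.H ε hε : ℂ → ℂ) = D.φ ε := rfl

lemma H_symm_smooth (ε : Conf g) (hε : ‖ε‖ ≤ D.e) :
    ContDiff ℝ (⊤ : ℕ∞) ((D.H ε hε).symm : ℂ → ℂ) := by
  have hdiff : ∀ x, HasFDerivAt (D.X ε) (fderiv ℝ (D.X ε) x) x := fun x =>
    ((D.X_smooth ε).differentiable (by simp) x).hasFDerivAt
  have hlip : LipschitzWith (1 / 2) (D.X ε) := by
    refine LipschitzWith.of_dist_le_mul fun x y => ?_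
    rw [dist_eq_norm, dist_eq_norm]
    simpa using D.lip_half hε x y
  have hnorm : ∀ x, ‖-fderiv ℝ (D.X ε) x‖ < 1 := by
    intro x
    rw [norm_neg]
    refine (norm_fderiv_le_of_lipschitz ℝ hlip).trans_lt ?_
    norm_num
  let u : ℂ → (ℂ →L[ℝ] ℂ)ˣ := fun x => Units.oneSub (-fderiv ℝ (D.X ε) x) (hnorm x)
  refine Homeomorph.contDiff_symm (D.H ε hε)
    (f₀' := fun x => ContinuousLinearEquiv.unitsEquiv ℝ ℂ (u x)) ?_ (D.φ_smooth ε)
  intro x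
  have h1 : HasFDerivAt (D.φ ε) (ContinuousLinearMap.id ℝ ℂ + fderiv ℝ (D.X ε) x) x :=
    (hasFDerivAt_id x).add (hdiff x)
  have h2 : ((ContinuousLinearEquiv.unitsEquiv ℝ ℂ (u x) : ℂ ≃L[ℝ] ℂ) : ℂ →L[ℝ] ℂ)
      = ContinuousLinearMap.id ℝ ℂ + fderiv ℝ (D.X ε) x := by
    refine ContinuousLinearMap.ext fun v => ?_
    show ((u x : (ℂ →L[ℝ] ℂ)ˣ) : ℂ →L[ℝ] ℂ) v = _
    show (1 - -fderiv ℝ (D.X ε) x) v = _
    simp
  rw [h2]
  exact h1

/-- the factor on the second coordinate -/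
def Es (ε : Conf g) (x : ℂ) : ℂ := exp ((∑ j, log (1 + D.V j ε x)) / 2)

lemma Es_ne (ε : Conf g) (x : ℂ) : D.Es ε x ≠ 0 := exp_ne_zero _

lemma Es_sq {ε : Conf g} (hε : ‖ε‖ ≤ D.e) (x : ℂ) :
    D.Es ε x ^ 2 = ∏ j, (1 + D.V j ε x) := by
  unfold Es
  rw [← exp_nat_mul]
  have e1 : ((2 : ℕ) : ℂ) * ((∑ j, log (1 + D.V j ε x)) / 2) = ∑ j, log (1 + D.V j ε x) := by
    push_cast
    ring
  rw [e1, exp_sum]
  exact Finset.prod_congr rfl fun j _ => exp_log (slitPlane_ne_zero (D.V_slit hε j x))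

lemma ne_of_pol {x : ℂ} (h : pol a x ≠ 0) (j : Fin (2 * g + 1)) : x - a j ≠ 0 := by
  intro h0
  apply h
  unfold pol
  exact Finset.prod_eq_zero (Finset.mem_univ j) h0

lemma pol_φ {ε : Conf g} (hε : ‖ε‖ ≤ D.e) {x : ℂ} (hx : pol a x ≠ 0) :
    pol (a + ε) (D.φ ε x) = pol a x * D.Es ε x ^ 2 := by
  rw [D.Es_sq hε]
  unfold pol
  rw [← Finset.prod_mul_distrib]
  refine Finset.prod_congr rfl fun j _ => ?_
  have h1 := ne_of_pol hx j
  unfold φ V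
  simp only [Pi.add_apply]
  field_simp
  ring

lemma φ_pt (ε : Conf g) (j : Fin (2 * g + 1)) : D.φ ε (a j) = a j + ε j := by
  unfold φ
  rw [D.X_near ε (j := j) (by rw [sub_self, norm_zero]; exact D.hρ.le)]

/-- the transport of points -/
def Tr (ε : Conf g) (p : ℂ × ℂ) : ℂ × ℂ := (D.φ ε p.1, p.2 * D.Es ε p.1)

lemma Tr_mem {ε : Conf g} (hε : ‖ε‖ ≤ D.e) {s : ℂ} {p : ℂ × ℂ}
    (h : s * p.2 ^ 2 = pol a p.1) (hs : s ≠ 0) (h2 : p.2 ≠ 0) :
    s * (D.Tr ε p).2 ^ 2 = pol (a + ε) (D.Tr ε p).1 ∧ (D.Tr ε p).2 ≠ 0 := by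
  have h0 : pol a p.1 ≠ 0 := by
    rw [← h]
    exact mul_ne_zero hs (pow_ne_zero 2 h2)
  refine ⟨?_, mul_ne_zero h2 (D.Es_ne ε _)⟩
  unfold Tr
  simp only
  rw [D.pol_φ hε h0, ← h]
  ring

/-- smoothness of the factor along a curve avoiding the points -/
lemma Es_smooth {ε : Conf g} (hε : ‖ε‖ ≤ D.e) {x : ℝ → ℂ} (hx : ContDiff ℝ (⊤ : ℕ∞) x)
    (hne : ∀ t j, x t - a j ≠ 0) : ContDiff ℝ (⊤ : ℕ∞) fun t => D.Es ε (x t) := by
  unfold Es
  refine ContDiff.cexp (ContDiff.div_const (ContDiff.sum fun j _ => ?_) 2)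
  have hV : ContDiff ℝ (⊤ : ℕ∞) fun t => 1 + D.V j ε (x t) := by
    unfold V
    simp only [div_eq_mul_inv]
    refine contDiff_const.add (ContDiff.mul ?_ ((hx.sub contDiff_const).inv fun t => hne t j))
    exact ((D.X_smooth ε).comp hx).sub contDiff_const
  rw [contDiff_iff_contDiffAt]
  intro t
  have h1 : ContDiffAt ℝ (⊤ : ℕ∞) log (1 + D.V j ε (x t)) :=
    (contDiffAt_log (D.V_slit hε j (x t))).restrict_scalars ℝ
  exact ContDiffAt.comp t (f := fun t => 1 + D.V j ε (x t)) h1 hV.contDiffAt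

/-- transport of curves -/
lemma Tr_smooth {ε : Conf g} (hε : ‖ε‖ ≤ D.e) {σ : ℝ → ℂ × ℂ} (hσ : ContDiff ℝ (⊤ : ℕ∞) σ)
    (hne : ∀ t j, (σ t).1 - a j ≠ 0) : ContDiff ℝ (⊤ : ℕ∞) fun t => D.Tr ε (σ t) := by
  have h1 : ContDiff ℝ (⊤ : ℕ∞) fun t => (σ t).1 := contDiff_fst.comp hσ
  have h2 : ContDiff ℝ (⊤ : ℕ∞) fun t => (σ t).2 := contDiff_snd.comp hσ
  exact ((D.φ_smooth ε).comp h1).prodMk (h2.mul (D.Es_smooth hε h1 hne))

/-- every curve over `a + ε` is a transport -/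
lemma exists_Tr {ε : Conf g} (hε : ‖ε‖ ≤ D.e) {s : ℂ} (hs : s ≠ 0) {σ : ℝ → ℂ × ℂ}
    (hσ : ContDiff ℝ (⊤ : ℕ∞) σ) (hper : Function.Periodic σ 1)
    (hmem : ∀ t, s * (σ t).2 ^ 2 = pol (a + ε) (σ t).1 ∧ (σ t).2 ≠ 0) :
    ∃ σ₀ : ℝ → ℂ × ℂ, ContDiff ℝ (⊤ : ℕ∞) σ₀ ∧ Function.Periodic σ₀ 1 ∧
      (∀ t, s * (σ₀ t).2 ^ 2 = pol a (σ₀ t).1 ∧ (σ₀ t).2 ≠ 0) ∧ ∀ t, D.Tr ε (σ₀ t) = σ t := by
  set x : ℝ → ℂ := fun t => (D.H ε hε).symm (σ t).1 with hx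
  have hσ1 : ContDiff ℝ (⊤ : ℕ∞) fun t => (σ t).1 := contDiff_fst.comp hσ
  have hσ2 : ContDiff ℝ (⊤ : ℕ∞) fun t => (σ t).2 := contDiff_snd.comp hσ
  have hxs : ContDiff ℝ (⊤ : ℕ∞) x := (D.H_symm_smooth ε hε).comp hσ1
  have hφx : ∀ t, D.φ ε (x t) = (σ t).1 := by
    intro t
    have := (D.H ε hε).apply_symm_apply (σ t).1
    exact this
  have hpol0 : ∀ t, pol (a + ε) (σ t).1 ≠ 0 := by
    intro t
    rw [← (hmem t).1]
    exact mul_ne_zero hs (pow_ne_zero 2 (hmem t).2)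
  have hne : ∀ t j, x t - a j ≠ 0 := by
    intro t j h
    have h1 : x t = a j := sub_eq_zero.1 h
    apply hpol0 t
    rw [← hφx t, h1, D.φ_pt]
    unfold pol
    exact Finset.prod_eq_zero (Finset.mem_univ j) (by simp)
  have hpolx : ∀ t, pol a (x t) ≠ 0 := by
    intro t
    unfold pol
    rw [Finset.prod_ne_zero_iff]
    exact fun j _ => hne t j
  refine ⟨fun t => (x t, (σ t).2 / D.Es ε (x t)), ?_, ?_, ?_, ?_⟩
  · simp only [div_eq_mul_inv]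
    exact hxs.prodMk (hσ2.mul ((D.Es_smooth hε hxs hne).inv fun t => D.Es_ne _ _))
  · intro t
    simp only [hx]
    rw [hper t]
  · intro t
    refine ⟨?_, div_ne_zero (hmem t).2 (D.Es_ne _ _)⟩
    simp only
    have h1 := D.pol_φ hε (hpolx t)
    rw [hφx t, ← (hmem t).1] at h1
    have h2 := D.Es_ne ε (x t)
    field_simp
    linear_combination h1
  · intro t
    unfold Tr
    simp only
    rw [hφx t, div_mul_cancel₀ _ (D.Es_ne _ _)]

end Loc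

end

end Pool.Agent.Y327.HP
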